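import Pool.Agent.R201.RN.Stm

/-! # Invariant strictly convex renormings of `L₁[0,1]`: assembly -/

set_option autoImplicit false

open Set MeasureTheory Filter Topology

namespace Pool.Agent.R201.RN

theorem continuous_ev (pos : Prop) (G : Type) [Group G] (g : G) (f : E) :
    Continuous fun α : Act pos G => α.1 g f := by
  have h1 : Continuous (fun (α : Act pos G) (g : G) (f : E) => α.1 g f) := continuous_induced_dom
  exact (continuous_apply f).comp ((continuous_apply g).comp h1)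

theorem smul_nonneg_E (c : ℝ) (hc : 0 ≤ c) (f : E) (hf : 0 ≤ f) : 0 ≤ c • f := by
  rw [← Lp.coeFn_nonneg] at *
  filter_upwards [Lp.coeFn_smul c f, hf] with t h1 h2
  rw [h1]
  simp only [Pi.smul_apply, smul_eq_mul, Pi.zero_apply] at *
  exact mul_nonneg hc h2

theorem main.{u} (hD : SDens) (hT : STop) (hB : SBaire) (hO : SObs) (hF : SFn) (hH : SHall)
    (hA : SAmen.{u}) :
    ∃ (G : Type) (_ : Group G), Countable G ∧ LocFin G ∧ Amenable.{u} G ∧
      ∀ pos : Prop, (SG pos G)ᶜ ∈ residual (Act pos G) ∧ SG pos G ∉ residual (Act pos G) := by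
  obtain ⟨G, iG, hc, hU⟩ := hH
  obtain ⟨A, B, hA0, hB0, hne, hA1, hB1, hAB⟩ := hF
  have hlf : LocFin G := by
    intro K
    obtain ⟨Γ, h1, h2, -⟩ := hU K
    exact ⟨Γ, h1, h2⟩
  refine ⟨G, iG, hc, hlf, hA G hlf, ?_⟩
  intro pos
  have hres : (SG pos G)ᶜ ∈ residual (Act pos G) := by
    set B' : E := (1 / 2 : ℝ) • (A + B) with hB'
    have hB'0 : 0 ≤ B' := smul_nonneg_E _ (by norm_num) _ (add_nonneg hA0 hB0)
    let O : ℕ → Set (Act pos G) := fun k =>
      {α | (∃ a : G, ‖α.1 a A - B‖ < 1 / ((k : ℝ) + 1)) ∧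
        ∃ b : G, ‖α.1 b A - B'‖ < 1 / ((k : ℝ) + 1)}
    have hopen : ∀ k, IsOpen (O k) := by
      intro k
      have e1 : ∀ C : E, IsOpen {α : Act pos G | ∃ a : G, ‖α.1 a A - C‖ < 1 / ((k : ℝ) + 1)} := by
        intro C
        have : {α : Act pos G | ∃ a : G, ‖α.1 a A - C‖ < 1 / ((k : ℝ) + 1)} =
            ⋃ a : G, {α : Act pos G | ‖α.1 a A - C‖ < 1 / ((k : ℝ) + 1)} := by
          ext α; simp
        rw [this]
        refine isOpen_iUnion fun a => ?_
        exact isOpen_lt (((continuous_ev pos G a A).sub continuous_const).norm) continuous_const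
      exact (e1 B).inter (e1 B')
    have hdense : ∀ k, Dense (O k) := by
      intro k
      refine hT G pos (O k) ?_
      intro β K F ε hε
      have hk : (0 : ℝ) < 1 / ((k : ℝ) + 1) := by positivity
      obtain ⟨α, h1, ⟨a, h2⟩, ⟨b, h3⟩⟩ := hD G hU pos β K F A B B' hA1 hB1 hAB
        (fun _ => ⟨hA0, hB0, hB'0⟩) (min ε (1 / ((k : ℝ) + 1))) (lt_min hε hk)
      refine ⟨α, ⟨⟨a, lt_of_lt_of_le h2 (min_le_right _ _)⟩,
        ⟨b, lt_of_lt_of_le h3 (min_le_right _ _)⟩⟩, ?_⟩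
      intro g hg f hf
      exact lt_of_lt_of_le (h1 g hg f hf) (min_le_left _ _)
    have hmem : (⋂ k, O k) ∈ residual (Act pos G) :=
      countable_iInter_mem.2 fun k => residual_of_dense_open (hopen k) (hdense k)
    refine mem_of_superset hmem ?_
    intro α hα
    refine hO G pos α A B hne ?_
    intro ε hε
    obtain ⟨k, hk⟩ := exists_nat_one_div_lt hε
    have := mem_iInter.1 hα k
    obtain ⟨⟨a, ha⟩, ⟨b, hb⟩⟩ := this
    exact ⟨⟨a, lt_trans ha hk⟩, ⟨b, lt_trans hb hk⟩⟩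
  refine ⟨hres, ?_⟩
  intro h
  have := hB G pos
  have h2 : (SG pos G ∩ (SG pos G)ᶜ) ∈ residual (Act pos G) := inter_mem h hres
  have h3 : Dense (SG pos G ∩ (SG pos G)ᶜ) := dense_of_mem_residual h2
  rw [inter_compl_self] at h3
  have h4 : Nonempty (Act pos G) := ⟨⟨1, fun _ g f hf => by simpa using hf⟩⟩
  obtain ⟨α⟩ := h4
  have := h3 α
  simp at this

end Pool.Agent.R201.RN
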