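import Mathlib

/-! # Invariant strictly convex renormings of `L₁[0,1]`: definitions -/

set_option autoImplicit false

open Set MeasureTheory Filter Topology

namespace Pool.Agent.R201.RN

/-- The real Banach lattice `L₁[0,1]`. -/
abbrev E : Type := Lp ℝ 1 (volume.restrict (Icc (0 : ℝ) 1))

/-- The space of actions of `G` on `L₁[0,1]`: homomorphisms `α` from `G` to the group of
surjective linear isometries of `L₁[0,1]`. If `pos` is `False` these are all the actions by linear
isometries (`Act_G`); if `pos` is `True` the isometries are required to be positive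
(`Act_G^+`). -/
def Act (pos : Prop) (G : Type) [Group G] : Type :=
  {α : G →* (E ≃ₗᵢ[ℝ] E) // pos → ∀ (g : G) (f : E), 0 ≤ f → 0 ≤ α g f}

/-- The topology of the space of actions: pointwise convergence of `α g f` (in norm) for all
`g` in `G` and all `f` in `L₁[0,1]`; that is, the product over `G` of the strong operator
topology. -/
noncomputable instance (pos : Prop) (G : Type) [Group G] : TopologicalSpace (Act pos G) :=
  TopologicalSpace.induced (fun (α : Act pos G) (g : G) (f : E) => α.1 g f) inferInstance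

/-- The actions that admit an invariant strictly convex equivalent norm. -/
def SG (pos : Prop) (G : Type) [Group G] : Set (Act pos G) :=
  {α | ∃ N : E → ℝ,
    (∀ x y, N (x + y) ≤ N x + N y) ∧ (∀ (c : ℝ) (x : E), N (c • x) = |c| * N x) ∧
    (∃ c C : ℝ, 0 < c ∧ ∀ x, c * ‖x‖ ≤ N x ∧ N x ≤ C * ‖x‖) ∧
    (∀ x y, x ≠ y → N x = N y → N ((1 / 2 : ℝ) • (x + y)) < N x) ∧
    ∀ (g : G) (x : E), N (α.1 g x) = N x}

/-- A group is amenable if every continuous action on a (nonempty) compact Hausdorff space has
an invariant regular Borel probability measure. -/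
def Amenable.{u} (G : Type) [Group G] : Prop :=
  ∀ (X : Type u) [TopologicalSpace X] [CompactSpace X] [T2Space X] [Nonempty X]
    [MeasurableSpace X] [BorelSpace X] [MulAction G X],
    (∀ g : G, Continuous fun x : X => g • x) →
    ∃ μ : Measure X, IsProbabilityMeasure μ ∧ μ.Regular ∧
      ∀ g : G, μ.map (fun x => g • x) = μ

/-- `G` is locally finite: every finite subset lies in a finite subgroup. -/
def LocFin (G : Type) [Group G] : Prop :=
  ∀ K : Finset G, ∃ Γ : Subgroup G, Finite Γ ∧ ∀ g ∈ K, g ∈ Γ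

/-! ## Auxiliary objects -/

/-- Every finite subset of `G` lies in a finite subgroup `Γ` such that for every finite nonempty
set `S` there is an injective homomorphism from the symmetric group on `Γ × S` to `G` that maps
left multiplication by `g ∈ Γ` on the first factor to `g`. -/
def PropU (G : Type) [Group G] : Prop :=
  ∀ K : Finset G, ∃ Γ : Subgroup G, Finite Γ ∧ (∀ g ∈ K, g ∈ Γ) ∧
    ∀ (S : Type) [Finite S] [Nonempty S],
      ∃ j : Equiv.Perm (Γ × S) →* G, Function.Injective j ∧
        ∀ g : Γ, j (Equiv.prodCongr (Equiv.mulLeft g) (Equiv.refl S)) = g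

/-- The constant function `1`. -/
noncomputable def one : E := Lp.const 1 (volume.restrict (Icc (0 : ℝ) 1)) (1 : ℝ)

/-- `ρ` decomposes `L₁[0,1]` as an `ℓ₁`-sum of copies of itself (positively, if `pos`). -/
structure IsDec (pos : Prop) {P : Type} (ρ : P → E →ₗᵢ[ℝ] E) : Prop where
  ortho : ∀ (s : Finset P) (φ : P → E), ‖∑ p ∈ s, ρ p (φ p)‖ = ∑ p ∈ s, ‖φ p‖
  posi : pos → ∀ (p : P) (f : E), 0 ≤ f → 0 ≤ ρ p f
  dense : ∀ (f : E) (ε : ℝ), 0 < ε → ∃ (s : Finset P) (φ : P → E),
    ‖f - ∑ p ∈ s, ρ p (φ p)‖ < ε ∧ (pos → 0 ≤ f → ∀ p, 0 ≤ φ p)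

end Pool.Agent.R201.RN
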