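import Pool.Agent.R201.RN.Stm

/-! # Project RN (MP_af7e7c_an): plan

Claim: there is a countable locally finite (hence amenable) group `G` (a Hall type group) such
that the complement of `S_G` is comeager in both spaces of actions; so the equivalence of Q1 is false.

* Obstruction (`SObs`): if `α(a_n) A → B` and `α(b_n) A → (A+B)/2` with `A ≠ B`, then every
  invariant equivalent norm `N` has `N A = N B = N ((A+B)/2)` and is not strictly convex.
* Fix `A, B ≥ 0` of norm 1 with `(A+B)/2` of norm 1 (`SFn`). The set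
  `O_k = {α : ∃ a, ‖α(a)A - B‖ < 1/k, ∃ b, ‖α(b)A - (A+B)/2‖ < 1/k}` is open; it is dense
  (`SDens` and `STop`).
* `SDens`: given `β`, finite `K ⊆ Γ` (finite subgroup of `PropU`), by `SQD` there is a
  decomposition `R` of `E = L₁[0,1]` indexed by `Q = Γ × S` and coefficients `c f` such that
  `f ≈ ∑_q c_f(q) R_q 1`, `c_{β(g)f}(g q) = c_f(q)`, and permutations `σ, σ'` of `Q` mapping
  `c_A` to (nearly) `c_B`, `c_{B'}`. Embed `Q` in a `G`-set `P` (`SGS`), extend `R` to a
  decomposition of `E` indexed by `P` (by `SA3`, `SW`, `SProd`), let `G` permute it (`SAct`).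
* `SQD`: `f ≈ ∑_z J_z(f/|Γ|) = ∑_z J_z β(z) (β(z)⁻¹ f/|Γ|)` (`SA2`) and
  `β(z)⁻¹ f/|Γ| ≈ ∑_θ C(β(z)⁻¹ f/|Γ|)_θ ρ_θ 1` (`SA1`), split further by weights `w_s` (`SW`) and
  signs, and use the telescoping permutations (`STel`).
-/
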