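import Pool.Agent.R201.RN.SWP

/-! # Approximation by step functions -/

set_option autoImplicit false

open Set MeasureTheory Filter Topology

namespace Pool.Agent.R201.RN

namespace SA1X

open SWX

/-- the measure -/
noncomputable abbrev mu : Measure ℝ := volume.restrict (Icc (0 : ℝ) 1)

/-- the intervals -/
def Iv (n : ℕ) (i : Fin n) : Set ℝ := Ioc (((i : ℕ) : ℝ) / n) (((i : ℕ) : ℝ) / n + 1 / n)

lemma Iv_meas (n : ℕ) (i : Fin n) : MeasurableSet (Iv n i) := measurableSet_Ioc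

lemma npos {n : ℕ} (i : Fin n) : (0 : ℝ) < n := by
  have : 0 < n := lt_of_le_of_lt (Nat.zero_le _) i.2
  exact_mod_cast this

lemma le_one {n : ℕ} (i : Fin n) : (((i : ℕ) : ℝ) / n + 1 / n) ≤ 1 := by
  rw [← add_div, div_le_one (npos i)]
  exact_mod_cast i.2

lemma Iv_disj {n : ℕ} (i k : Fin n) (h : i ≠ k) : Disjoint (Iv n i) (Iv n k) := by
  rw [Set.disjoint_left]
  have hn := npos i
  have key : ∀ a b : Fin n, a < b → ((a : ℕ) : ℝ) / n + 1 / n ≤ ((b : ℕ) : ℝ) / n := by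
    intro a b hab
    rw [← add_div]
    gcongr
    exact_mod_cast hab
  intro x hx hx'
  rcases lt_or_gt_of_ne h with h' | h'
  · have := key i k h'
    have h1 := hx.2
    have h2 := hx'.1
    linarith
  · have := key k i h'
    have h1 := hx'.2
    have h2 := hx.1
    linarith

lemma Iv_sub {n : ℕ} (i : Fin n) : Iv n i ⊆ Icc (0 : ℝ) 1 := by
  intro x hx
  have h1 : (0 : ℝ) ≤ ((i : ℕ) : ℝ) / n := by positivity
  exact ⟨h1.trans hx.1.le, hx.2.trans (le_one i)⟩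

lemma Iv_cover {n : ℕ} (hn : 0 < n) {t : ℝ} (h0 : 0 < t) (h1 : t ≤ 1) : ∃ i : Fin n, t ∈ Iv n i := by
  have hn' : (0 : ℝ) < n := by exact_mod_cast hn
  have hm1 : 0 < ⌈t * n⌉₊ := Nat.ceil_pos.mpr (by positivity)
  have hm2 : ⌈t * n⌉₊ ≤ n := by
    rw [Nat.ceil_le]
    nlinarith
  have hm3 : t * n ≤ ⌈t * n⌉₊ := Nat.le_ceil _
  have hm4 : (⌈t * n⌉₊ : ℝ) < t * n + 1 := Nat.ceil_lt_add_one (by positivity)
  obtain ⟨m, hm⟩ : ∃ m : ℕ, ⌈t * n⌉₊ = m + 1 := ⟨⌈t * n⌉₊ - 1, by omega⟩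
  rw [hm] at hm2 hm3 hm4
  push_cast at hm3 hm4
  refine ⟨⟨m, by omega⟩, ?_, ?_⟩
  · show (m : ℝ) / n < t
    rw [div_lt_iff₀ hn']
    linarith
  · show t ≤ (m : ℝ) / n + 1 / n
    rw [← add_div, le_div_iff₀ hn']
    linarith

lemma mu_Iv {n : ℕ} (i : Fin n) : mu.real (Iv n i) = 1 / n := by
  have h1 : mu (Iv n i) = volume (Iv n i) := by
    rw [Measure.restrict_apply (Iv_meas n i), inter_eq_left.mpr (Iv_sub i)]
  rw [Measure.real, h1, Iv, Real.volume_Ioc, add_sub_cancel_left, ENNReal.toReal_ofReal]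
  have := npos i
  positivity

/-- the averages -/
noncomputable def C (n : ℕ) (f : E) (i : Fin n) : ℝ := ∫ x in Iv n i, (f : ℝ → ℝ) x ∂mu

lemma C_nonneg {n : ℕ} {f : E} (hf : 0 ≤ f) (i : Fin n) : 0 ≤ C n f i := by
  refine integral_nonneg_of_ae (ae_restrict_of_ae ?_)
  exact (Lp.coeFn_nonneg f).mpr hf

lemma C_sub (n : ℕ) (f g : E) (i : Fin n) : C n (f - g) i = C n f i - C n g i := by
  unfold C
  rw [← integral_sub (L1.integrable_coeFn f).integrableOn (L1.integrable_coeFn g).integrableOn]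
  exact integral_congr_ae (ae_restrict_of_ae (Lp.coeFn_sub f g))

lemma C_sum_le (n : ℕ) (f : E) : ∑ i, |C n f i| ≤ ‖f‖ := by
  have hint : Integrable (fun x => |(f : ℝ → ℝ) x|) mu := (L1.integrable_coeFn f).abs
  have h1 : ∀ i : Fin n, |C n f i| ≤ ∫ x, (Iv n i).indicator (fun x => |(f : ℝ → ℝ) x|) x ∂mu := by
    intro i
    rw [integral_indicator (Iv_meas n i)]
    exact abs_integral_le_integral_abs
  calc ∑ i, |C n f i| ≤ ∑ i, ∫ x, (Iv n i).indicator (fun x => |(f : ℝ → ℝ) x|) x ∂mu :=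
        Finset.sum_le_sum fun i _ => h1 i
    _ = ∫ x, ∑ i, (Iv n i).indicator (fun x => |(f : ℝ → ℝ) x|) x ∂mu := by
        rw [integral_finsetSum]
        intro i _
        exact hint.indicator (Iv_meas n i)
    _ ≤ ∫ x, |(f : ℝ → ℝ) x| ∂mu := by
        refine integral_mono ?_ hint ?_
        · exact integrable_finsetSum _ fun i _ => hint.indicator (Iv_meas n i)
        · intro t
          show ∑ i, (Iv n i).indicator (fun x => |(f : ℝ → ℝ) x|) t ≤ |(f : ℝ → ℝ) t|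
          have h2 : ∀ i : Fin n, (Iv n i).indicator (fun x => |(f : ℝ → ℝ) x|) t
              = (Iv n i).indicator (fun _ => (1 : ℝ)) t * |(f : ℝ → ℝ) t| := by
            intro i
            by_cases ht : t ∈ Iv n i
            · rw [indicator_of_mem ht, indicator_of_mem ht, one_mul]
            · rw [indicator_of_notMem ht, indicator_of_notMem ht, zero_mul]
          rw [Finset.sum_congr rfl fun i _ => h2 i, ← Finset.sum_mul]
          have h3 := ind_le (fun i => Iv n i) Iv_disj Finset.univ t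
          calc _ ≤ 1 * |(f : ℝ → ℝ) t| := mul_le_mul_of_nonneg_right h3 (abs_nonneg _)
            _ = _ := one_mul _
    _ = ‖f‖ := by
        rw [L1.norm_eq_integral_norm]
        rfl

/-- the property of the transport maps -/
def TP (T : ℝ → ℝ → E →ₗᵢ[ℝ] E) : Prop :=
  ∀ u l : ℝ, 0 ≤ u → 0 < l → u + l ≤ 1 → ∀ f : E,
    (T u l f : ℝ → ℝ) =ᵐ[volume.restrict (Icc (0 : ℝ) 1)]
      fun t => if t ∈ Ioc u (u + l) then l⁻¹ * (f : ℝ → ℝ) ((t - u) / l) else 0

/-- the averaging operators -/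
noncomputable def En (T : ℝ → ℝ → E →ₗᵢ[ℝ] E) (n : ℕ) (f : E) : E :=
  ∑ i : Fin n, C n f i • T (((i : ℕ) : ℝ) / n) (1 / n) one

lemma En_sub (T : ℝ → ℝ → E →ₗᵢ[ℝ] E) (n : ℕ) (f g : E) : En T n (f - g) = En T n f - En T n g := by
  unfold En
  rw [← Finset.sum_sub_distrib]
  refine Finset.sum_congr rfl fun i _ => ?_
  rw [C_sub, sub_smul]

lemma En_norm (T : ℝ → ℝ → E →ₗᵢ[ℝ] E) (n : ℕ) (f : E) : ‖En T n f‖ ≤ ‖f‖ := by
  unfold En
  refine (norm_sum_le _ _).trans ?_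
  refine le_trans (le_of_eq ?_) (C_sum_le n f)
  refine Finset.sum_congr rfl fun i _ => ?_
  rw [norm_smul, LinearIsometry.norm_map, norm_oneE, mul_one, Real.norm_eq_abs]

open Classical in
lemma En_ae {T : ℝ → ℝ → E →ₗᵢ[ℝ] E} (hT : TP T) (n : ℕ) (f : E) :
    ((En T n f : E) : ℝ → ℝ) =ᵐ[mu] fun t => ∑ i : Fin n, C n f i * (if t ∈ Iv n i then (n : ℝ) else 0) := by
  have hall : ∀ᵐ t ∂mu, ∀ i : Fin n,
      ((C n f i • T (((i : ℕ) : ℝ) / n) (1 / n) one : E) : ℝ → ℝ) t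
        = C n f i * (if t ∈ Iv n i then (n : ℝ) else 0) := by
    rw [ae_all_iff]
    intro i
    have hn := npos i
    filter_upwards [Lp.coeFn_smul (C n f i) (T (((i : ℕ) : ℝ) / n) (1 / n) one),
      hT (((i : ℕ) : ℝ) / n) (1 / n) (by positivity) (by positivity) (le_one i) one] with t h1 h2
    rw [h1, Pi.smul_apply, h2, one_apply, smul_eq_mul]
    congr 1
    unfold Iv
    by_cases ht : t ∈ Ioc (((i : ℕ) : ℝ) / n) (((i : ℕ) : ℝ) / n + 1 / n)
    · rw [if_pos ht, if_pos ht, mul_one, one_div, inv_inv]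
    · rw [if_neg ht, if_neg ht]
  unfold En
  filter_upwards [Lp.coeFn_fun_finsetSum Finset.univ
    (fun i : Fin n => C n f i • T (((i : ℕ) : ℝ) / n) (1 / n) one), hall] with t h1 h2
  rw [h1]
  exact Finset.sum_congr rfl fun i _ => h2 i

lemma cont_conv {T : ℝ → ℝ → E →ₗᵢ[ℝ] E} (hT : TP T) (g : ℝ → ℝ) (hgc : Continuous g)
    (hg : Integrable g mu) {δ : ℝ} (hδ : 0 < δ) :
    ∃ N0 : ℕ, ∀ n : ℕ, N0 ≤ n → ‖hg.toL1 g - En T n (hg.toL1 g)‖ ≤ δ := by
  classical
  have hu := isCompact_Icc.uniformContinuousOn_of_continuous (s := Icc (0 : ℝ) 1) hgc.continuousOn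
  rw [Metric.uniformContinuousOn_iff] at hu
  obtain ⟨d, hd, hd2⟩ := hu δ hδ
  obtain ⟨N0, hN0⟩ := exists_nat_gt (1 / d)
  refine ⟨N0 + 1, fun n hn => ?_⟩
  have hn0 : 0 < n := by omega
  have hnr : (0 : ℝ) < n := by exact_mod_cast hn0
  have hnd : 1 / (n : ℝ) < d := by
    rw [div_lt_iff₀ hnr]
    rw [div_lt_iff₀ hd] at hN0
    have h1 : (N0 : ℝ) ≤ n := by exact_mod_cast (by omega : N0 ≤ n)
    nlinarith
  obtain ⟨G, hG⟩ : ∃ G : E, G = hg.toL1 g := ⟨_, rfl⟩
  have hGae : (G : ℝ → ℝ) =ᵐ[mu] g := by rw [hG]; exact hg.coeFn_toL1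
  rw [← hG]
  have hC : ∀ i : Fin n, C n G i = ∫ x in Iv n i, g x ∂mu := fun i =>
    integral_congr_ae (ae_restrict_of_ae hGae)
  have hkey : ∀ (i : Fin n) (t : ℝ), t ∈ Iv n i → |g t - n * C n G i| ≤ δ := by
    intro i t ht
    have h1 : ‖∫ x in Iv n i, (g t - g x) ∂mu‖ ≤ δ * mu.real (Iv n i) := by
      refine norm_setIntegral_le_of_norm_le_const (measure_lt_top _ _) ?_
      intro x hx
      rw [← dist_eq_norm]
      refine (hd2 t (Iv_sub i ht) x (Iv_sub i hx) ?_).le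
      rw [Real.dist_eq, abs_lt]
      have h2 := ht.1
      have h3 := ht.2
      have h4 := hx.1
      have h5 := hx.2
      constructor <;> linarith
    have h2 : ∫ x in Iv n i, (g t - g x) ∂mu = (1 / n) * g t - C n G i := by
      rw [integral_sub (integrable_const _) hg.integrableOn, setIntegral_const, mu_Iv, hC, smul_eq_mul]
    rw [h2, mu_Iv, Real.norm_eq_abs] at h1
    have h3 : g t - n * C n G i = n * ((1 / n) * g t - C n G i) := by
      field_simp
    rw [h3, abs_mul, abs_of_pos hnr]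
    calc (n : ℝ) * |(1 / n) * g t - C n G i| ≤ n * (δ * (1 / n)) := by gcongr
      _ = δ := by field_simp
  have hbound : ∀ᵐ t ∂mu, ‖((G - En T n G : E) : ℝ → ℝ) t‖ ≤ δ := by
    filter_upwards [Lp.coeFn_sub G (En T n G), hGae, En_ae hT n G,
      ae_restrict_mem (μ := volume) (s := Icc (0 : ℝ) 1) measurableSet_Icc,
      compl_mem_ae_iff.mpr (measure_singleton (μ := mu) (0 : ℝ))] with t h1 h2 h3 h4 h5
    rw [h1, Pi.sub_apply, h2, h3]
    have ht0 : 0 < t := lt_of_le_of_ne h4.1 (fun h => h5 (by simp [← h]))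
    obtain ⟨i, hi⟩ := Iv_cover hn0 ht0 h4.2
    have h6 : ∑ k : Fin n, C n G k * (if t ∈ Iv n k then (n : ℝ) else 0) = n * C n G i := by
      rw [Finset.sum_eq_single i]
      · rw [if_pos hi, mul_comm]
      · intro k _ hk
        rw [if_neg, mul_zero]
        exact fun h => Set.disjoint_left.mp (Iv_disj i k hk.symm) hi h
      · intro h
        exact absurd (Finset.mem_univ i) h
    rw [h6, Real.norm_eq_abs]
    exact hkey i t hi
  rw [L1.norm_eq_integral_norm]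
  calc ∫ t, ‖((G - En T n G : E) : ℝ → ℝ) t‖ ∂mu ≤ ∫ t, δ ∂mu :=
        integral_mono_ae (L1.integrable_coeFn _).norm (integrable_const _) hbound
    _ = δ := by simp

lemma conv {T : ℝ → ℝ → E →ₗᵢ[ℝ] E} (hT : TP T) (f : E) {ε : ℝ} (hε : 0 < ε) :
    ∃ N0 : ℕ, ∀ n : ℕ, N0 ≤ n → ‖f - En T n f‖ < ε := by
  obtain ⟨g, hg1, hg2⟩ := (L1.integrable_coeFn f).exists_boundedContinuous_integral_sub_le
    (ε := ε / 4) (by positivity)
  obtain ⟨N0, hN0⟩ := cont_conv hT g g.continuous hg2 (δ := ε / 4) (by positivity)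
  refine ⟨N0, fun n hn => ?_⟩
  have h1 := hN0 n hn
  obtain ⟨G, hG⟩ : ∃ G : E, G = hg2.toL1 g := ⟨_, rfl⟩
  rw [← hG] at h1
  have h2 : ‖f - G‖ ≤ ε / 4 := by
    rw [L1.norm_eq_integral_norm]
    refine le_trans (le_of_eq (integral_congr_ae ?_)) hg1
    have hGae : (G : ℝ → ℝ) =ᵐ[mu] g := by rw [hG]; exact hg2.coeFn_toL1
    filter_upwards [Lp.coeFn_sub f G, hGae] with t h3 h4
    rw [h3, Pi.sub_apply, h4]
  have h3 : ‖En T n (f - G)‖ ≤ ε / 4 := (En_norm T n _).trans h2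
  have h4 : f - En T n f = (f - G) - En T n (f - G) + (G - En T n G) := by
    rw [En_sub]
    abel
  rw [h4]
  calc _ ≤ ‖(f - G) - En T n (f - G)‖ + ‖G - En T n G‖ := norm_add_le _ _
    _ ≤ (‖f - G‖ + ‖En T n (f - G)‖) + ‖G - En T n G‖ := by
        gcongr
        exact norm_sub_le _ _
    _ < ε := by linarith

end SA1X

open SA1X SWX in
theorem sA1 (h : SD1) : SA1 := by
  classical
  obtain ⟨T, hT1, hT2⟩ := h
  intro F ε hε
  choose N hN using fun f : E => conv (T := T) hT1 f hε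
  obtain ⟨n, hn⟩ : ∃ n : ℕ, n = F.sup N + 1 := ⟨_, rfl⟩
  have hn0 : 0 < n := by omega
  have hnr : (0 : ℝ) < n := by exact_mod_cast hn0
  refine ⟨n, fun i => T (((i : ℕ) : ℝ) / n) (1 / n), fun f i => SA1X.C n f i, ?_, ?_⟩
  · refine hT2 (Fin n) (fun i => ((i : ℕ) : ℝ) / n) (fun _ => 1 / n) ?_ ?_ ?_
    · intro i
      exact ⟨by positivity, by positivity, SA1X.le_one i⟩
    · intro i k hik
      exact Iv_disj i k hik
    · have h1 := hasSum_fintype (fun _ : Fin n => (1 : ℝ) / n)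
      have h2 : ∑ _i : Fin n, (1 : ℝ) / n = 1 := by
        rw [Finset.sum_const, Finset.card_univ, Fintype.card_fin, nsmul_eq_mul]
        field_simp
      rwa [h2] at h1
  · intro f hf
    refine ⟨?_, fun h0 i => SA1X.C_nonneg h0 i⟩
    have h1 : N f ≤ n := by
      have := Finset.le_sup (f := N) hf
      omega
    exact hN f n h1

end Pool.Agent.R201.RN
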