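import Pool.Agent.R201.RN.Stm

/-! # Pieces SA2 and SA3 -/

set_option autoImplicit false

open Set MeasureTheory Filter Topology

namespace Pool.Agent.R201.RN

namespace SA23P

theorem norm_one_le : ‖one‖ ≤ 1 := by
  unfold one
  refine (Lp.norm_const_le _ _ _).trans ?_
  simp

theorem conj_sum {n : ℕ} {I : Type} {ρ : Fin n → E →ₗᵢ[ℝ] E} {τ J : I → E →ₗᵢ[ℝ] E}
    (hJ : ∀ i k f, J i (ρ k f) = ρ k (τ i f)) (i : I) (c : Fin n → ℝ) :
    J i (∑ k, c k • ρ k one) = ∑ k, c k • ρ k (τ i one) := by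
  rw [map_sum]
  apply Finset.sum_congr rfl
  intro k _
  rw [map_smul, hJ]

end SA23P

open SA23P

theorem sA2 (h1 : SA1) (h2 : SW) (h3 : SConj) : SA2 := by
  intro Γ _ _ F ε hε
  obtain ⟨n, ρ, C, hρ, hC⟩ := h1 F (ε / 2) (by positivity)
  have hcard : (0 : ℝ) < Fintype.card Γ := by exact_mod_cast Fintype.card_pos
  have hsum : HasSum (fun _ : Γ => 1 / (Fintype.card Γ : ℝ)) 1 := by
    have h := hasSum_fintype (fun _ : Γ => 1 / (Fintype.card Γ : ℝ))
    rw [Finset.sum_const, Finset.card_univ, nsmul_eq_mul, mul_one_div_cancel hcard.ne'] at h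
    exact h
  obtain ⟨τ, hτ, hτs⟩ := h2 Γ (fun _ => 1 / (Fintype.card Γ : ℝ)) (fun _ => by positivity) hsum
  have hτs' : ∑ z, (1 / (Fintype.card Γ : ℝ)) • τ z one = one :=
    (hasSum_fintype _).unique hτs
  obtain ⟨J, hJ, hJρ⟩ := h3 n ρ Γ τ hρ hτ
  refine ⟨J, hJ, fun f hf => ?_⟩
  have h4 := (hC f hf).1
  set fc : E := ∑ i, C f i • ρ i one with hfc
  have h5 : ∑ z, J z ((1 / (Fintype.card Γ : ℝ)) • fc) = fc := by
    have h6 : ∀ z, J z ((1 / (Fintype.card Γ : ℝ)) • fc) =
        ∑ k, C f k • ρ k ((1 / (Fintype.card Γ : ℝ)) • τ z one) := by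
      intro z
      rw [map_smul, hfc, conj_sum hJρ, Finset.smul_sum]
      apply Finset.sum_congr rfl
      intro k _
      rw [map_smul, smul_comm]
    rw [Finset.sum_congr rfl (fun z _ => h6 z), Finset.sum_comm]
    rw [hfc]
    apply Finset.sum_congr rfl
    intro k _
    rw [← Finset.smul_sum, ← map_sum, hτs']
  have h7 : f - ∑ z, J z ((1 / (Fintype.card Γ : ℝ)) • f) =
      (f - fc) + ∑ z, J z ((1 / (Fintype.card Γ : ℝ)) • (fc - f)) := by
    have h8 : ∑ z, J z ((1 / (Fintype.card Γ : ℝ)) • (fc - f)) =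
        fc - ∑ z, J z ((1 / (Fintype.card Γ : ℝ)) • f) := by
      rw [← h5, ← Finset.sum_sub_distrib]
      apply Finset.sum_congr rfl
      intro z _
      rw [h5, smul_sub, map_sub]
    rw [h8]
    abel
  rw [h7]
  have h9 : ‖∑ z, J z ((1 / (Fintype.card Γ : ℝ)) • (fc - f))‖ ≤ ‖f - fc‖ := by
    calc ‖∑ z, J z ((1 / (Fintype.card Γ : ℝ)) • (fc - f))‖
        ≤ ∑ z, ‖J z ((1 / (Fintype.card Γ : ℝ)) • (fc - f))‖ := norm_sum_le _ _
      _ = ∑ _z : Γ, (1 / (Fintype.card Γ : ℝ)) * ‖f - fc‖ := by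
          apply Finset.sum_congr rfl
          intro z _
          rw [LinearIsometry.norm_map, norm_smul, Real.norm_of_nonneg (by positivity), norm_sub_rev]
      _ = ‖f - fc‖ := by
          rw [Finset.sum_const, Finset.card_univ, nsmul_eq_mul, ← mul_assoc,
            mul_one_div_cancel hcard.ne', one_mul]
  calc ‖(f - fc) + ∑ z, J z ((1 / (Fintype.card Γ : ℝ)) • (fc - f))‖
      ≤ ‖f - fc‖ + ‖∑ z, J z ((1 / (Fintype.card Γ : ℝ)) • (fc - f))‖ := norm_add_le _ _
    _ < ε := by linarith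

theorem sA3 (h1 : SA1) (h2 : SW) (h3 : SConj) : SA3 := by
  intro F ε hε
  obtain ⟨n, ρ, C, hρ, hC⟩ := h1 F (ε / 4) (by positivity)
  set M : ℝ := 1 + ∑ f ∈ F, ∑ k, |C f k| with hM
  have hM1 : 1 ≤ M := by
    have : 0 ≤ ∑ f ∈ F, ∑ k, |C f k| :=
      Finset.sum_nonneg fun _ _ => Finset.sum_nonneg fun _ _ => abs_nonneg _
    linarith
  have hMpos : 0 < M := by linarith
  set δ : ℝ := min (1 / 2) (ε / (8 * M)) with hδ
  have hδ0 : 0 < δ := lt_min (by norm_num) (by positivity)
  have hδ1 : δ ≤ 1 / 2 := min_le_left _ _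
  have hδ2 : M * (2 * δ) ≤ ε / 4 := by
    have h4 : δ ≤ ε / (8 * M) := min_le_right _ _
    rw [le_div_iff₀ (by positivity)] at h4
    linarith
  have hsum : HasSum (fun b : Bool => if b = true then 1 - δ else δ) 1 := by
    have h := hasSum_fintype (fun b : Bool => if b = true then 1 - δ else δ)
    rw [Fintype.sum_bool] at h
    simpa using h
  obtain ⟨τ, hτ, hτs⟩ := h2 Bool (fun b => if b = true then 1 - δ else δ)
    (fun b => by cases b <;> simp <;> linarith) hsum
  have hτs' : (1 - δ) • τ true one + δ • τ false one = one := by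
    have h := (hasSum_fintype _).unique hτs
    rw [Fintype.sum_bool] at h
    simpa using h
  obtain ⟨J, hJ, hJρ⟩ := h3 n ρ Bool τ hρ hτ
  refine ⟨J, hJ, fun f hf => ?_⟩
  have h4 := (hC f hf).1
  set fc : E := ∑ i, C f i • ρ i one with hfc
  have h5 : ‖one - τ true one‖ ≤ 2 * δ := by
    have h6 : one - τ true one = δ • τ false one - δ • τ true one := by
      nth_rewrite 1 [← hτs']
      rw [sub_smul, one_smul]
      abel
    rw [h6]
    calc ‖δ • τ false one - δ • τ true one‖ ≤ ‖δ • τ false one‖ + ‖δ • τ true one‖ :=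
          norm_sub_le _ _
      _ = δ * ‖one‖ + δ * ‖one‖ := by
          rw [norm_smul, norm_smul, LinearIsometry.norm_map, LinearIsometry.norm_map,
            Real.norm_of_nonneg hδ0.le]
      _ ≤ 2 * δ := by nlinarith [norm_one_le]
  have h7 : ‖fc - J true fc‖ ≤ M * (2 * δ) := by
    have h8 : fc - J true fc = ∑ k, C f k • ρ k (one - τ true one) := by
      rw [hfc, conj_sum hJρ, ← Finset.sum_sub_distrib]
      apply Finset.sum_congr rfl
      intro k _
      rw [map_sub, smul_sub]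
    rw [h8]
    calc ‖∑ k, C f k • ρ k (one - τ true one)‖
        ≤ ∑ k, ‖C f k • ρ k (one - τ true one)‖ := norm_sum_le _ _
      _ = ∑ k, |C f k| * ‖one - τ true one‖ := by
          apply Finset.sum_congr rfl
          intro k _
          rw [norm_smul, LinearIsometry.norm_map, Real.norm_eq_abs]
      _ = (∑ k, |C f k|) * ‖one - τ true one‖ := by rw [Finset.sum_mul]
      _ ≤ M * (2 * δ) := by
          apply mul_le_mul _ h5 (norm_nonneg _) hMpos.le
          have h9 : ∑ k, |C f k| ≤ ∑ f ∈ F, ∑ k, |C f k| :=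
            Finset.single_le_sum (f := fun f => ∑ k, |C f k|)
              (fun _ _ => Finset.sum_nonneg fun _ _ => abs_nonneg _) hf
          linarith
  have h10 : f - J true f = (f - fc) + (fc - J true fc) + J true (fc - f) := by
    rw [map_sub]
    abel
  rw [h10]
  calc ‖(f - fc) + (fc - J true fc) + J true (fc - f)‖
      ≤ ‖f - fc‖ + ‖fc - J true fc‖ + ‖J true (fc - f)‖ := norm_add₃_le
    _ < ε := by
        rw [LinearIsometry.norm_map, norm_sub_rev fc f]
        linarith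

end Pool.Agent.R201.RN
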