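import Pool.Agent.R201.RN.Stm

/-! # Invariant strictly convex renormings of `L₁[0,1]`: the permutation action -/

set_option autoImplicit false

open Set MeasureTheory Filter Topology

namespace Pool.Agent.R201.RN

namespace SActP

variable {P : Type} {pos : Prop} {R : P → E →ₗᵢ[ℝ] E}

theorem eq_of_agree (hR : IsDec pos R) (A B : E →ₗᵢ[ℝ] E) (h : ∀ p f, A (R p f) = B (R p f)) :
    A = B := by
  ext1 f
  rw [← sub_eq_zero, ← norm_eq_zero]
  apply le_antisymm _ (norm_nonneg _)
  apply le_of_forall_pos_le_add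
  intro ε hε
  obtain ⟨s, φ, h1, -⟩ := hR.dense f (ε / 2) (by positivity)
  have h2 : A (∑ p ∈ s, R p (φ p)) = B (∑ p ∈ s, R p (φ p)) := by
    rw [map_sum, map_sum]
    exact Finset.sum_congr rfl fun p _ => h p _
  have h3 : A f - B f = A (f - ∑ p ∈ s, R p (φ p)) - B (f - ∑ p ∈ s, R p (φ p)) := by
    rw [map_sub, map_sub, h2]
    abel
  rw [h3]
  refine (norm_sub_le _ _).trans ?_
  rw [A.norm_map, B.norm_map]
  linarith

theorem ortho_smul {G : Type} [Group G] [MulAction G P] (hR : IsDec pos R) (g : G)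
    (s : Finset P) (φ : P → E) : ‖∑ p ∈ s, R (g • p) (φ p)‖ = ∑ p ∈ s, ‖φ p‖ := by
  have h1 := hR.ortho (s.map (MulAction.toPerm g : Equiv.Perm P).toEmbedding)
    (fun q => φ (g⁻¹ • q))
  rw [Finset.sum_map, Finset.sum_map] at h1
  simpa using h1

end SActP

open SActP in
theorem sAct (h : SExt) : SAct := by
  intro G _ P _ pos R hR
  have h1 : ∀ g : G, ∃ J : E →ₗᵢ[ℝ] E, (∀ p f, J (R p f) = R (g • p) f) ∧
      (pos → ∀ f, 0 ≤ f → 0 ≤ J f) := fun g =>
    h P pos R (fun p => R (g • p)) hR (fun s φ => ortho_smul hR g s φ)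
      (fun hp p f hf => hR.posi hp (g • p) f hf)
  choose J hJ hpos using h1
  have hmul : ∀ g k : G, (J g).comp (J k) = J (g * k) := by
    intro g k
    apply eq_of_agree hR
    intro p f
    show J g (J k (R p f)) = J (g * k) (R p f)
    rw [hJ, hJ, hJ, mul_smul]
  have hone : J 1 = LinearIsometry.id := by
    apply eq_of_agree hR
    intro p f
    rw [hJ, one_smul]
    rfl
  have hmul' : ∀ (g k : G) (f : E), J g (J k f) = J (g * k) f := by
    intro g k f
    rw [← hmul]
    rfl
  have hone' : ∀ f : E, J 1 f = f := by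
    intro f
    rw [hone]
    rfl
  let e : G → (E ≃ₗᵢ[ℝ] E) := fun g =>
    { toLinearEquiv := LinearEquiv.ofLinearMap (J g).toLinearMap (J g⁻¹).toLinearMap
        (by
          apply LinearMap.ext
          intro f
          show J g (J g⁻¹ f) = f
          rw [hmul', mul_inv_cancel, hone'])
        (by
          apply LinearMap.ext
          intro f
          show J g⁻¹ (J g f) = f
          rw [hmul', inv_mul_cancel, hone'])
      norm_map' := fun f => (J g).norm_map f }
  have he : ∀ (g : G) (f : E), e g f = J g f := fun _ _ => rfl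
  refine ⟨{ toFun := e, map_one' := ?_, map_mul' := ?_ }, ?_, ?_⟩
  · apply LinearIsometryEquiv.ext
    intro f
    rw [he, hone']
    rfl
  · intro g k
    apply LinearIsometryEquiv.ext
    intro f
    show J (g * k) f = J g (J k f)
    rw [hmul']
  · intro g p f
    exact hJ g p f
  · intro hp g f hf
    exact hpos g hp f hf

end Pool.Agent.R201.RN
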