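import Pool.Agent.R201.RN.Stm

/-! # Locally finite groups are amenable -/

set_option autoImplicit false

open Set MeasureTheory Filter Topology

open scoped CompactlySupported

namespace Pool.Agent.R201.RN

theorem sAmen.{u} : SAmen.{u} := by
  intro G _ hG X _ _ _ _ _ _ _ hact
  classical
  choose Γ hfin hmem using hG
  have inst : ∀ K, Fintype (Γ K) := fun K => @Fintype.ofFinite _ (hfin K)
  obtain ⟨x0⟩ := ‹Nonempty X›
  let L : Finset G → (X → ℝ) → ℝ := fun K f =>
    (Fintype.card (Γ K) : ℝ)⁻¹ * ∑ g : Γ K, f ((g : G) • x0)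
  have hcard : ∀ K, (0 : ℝ) < Fintype.card (Γ K) := fun K => by
    exact_mod_cast Fintype.card_pos
  have hLb : ∀ K (f : X → ℝ) (B : ℝ), (∀ x, |f x| ≤ B) → L K f ∈ Icc (-B) B := by
    intro K f B hB
    change -B ≤ L K f ∧ L K f ≤ B
    rw [← abs_le]
    simp only [L]
    rw [abs_mul, abs_inv, abs_of_pos (hcard K), inv_mul_le_iff₀ (hcard K)]
    refine (Finset.abs_sum_le_sum_abs _ _).trans ?_
    refine (Finset.sum_le_sum fun g _ => hB _).trans ?_
    simp
  let U : Ultrafilter (Finset G) := Ultrafilter.of atTop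
  have hU : (U : Filter (Finset G)) ≤ atTop := Ultrafilter.of_le atTop
  have hbd : ∀ f : C_c(X, ℝ), ∃ B : ℝ, ∀ x, |f x| ≤ B := by
    intro f
    obtain ⟨B, hB⟩ := (isCompact_range f.continuous).isBounded.exists_norm_le
    exact ⟨B, fun x => hB _ (mem_range_self x)⟩
  have hlim : ∀ f : C_c(X, ℝ), ∃ l, Tendsto (fun K => L K f) U (𝓝 l) := by
    intro f
    obtain ⟨B, hB⟩ := hbd f
    obtain ⟨l, -, hl⟩ := (isCompact_Icc (a := -B) (b := B)).ultrafilter_le_nhds
      (U.map fun K => L K f) (by
        have h1 : ∀ᶠ K in (U : Filter (Finset G)), L K f ∈ Icc (-B) B :=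
          Eventually.of_forall fun K => hLb K f B hB
        rw [Filter.le_principal_iff, Ultrafilter.coe_map]
        exact h1)
    exact ⟨l, hl⟩
  choose Λ0 hΛ0 using hlim
  let Λ : C_c(X, ℝ) →ₚ[ℝ] ℝ := PositiveLinearMap.mk₀
    { toFun := Λ0
      map_add' := fun f g => by
        refine tendsto_nhds_unique (hΛ0 (f + g)) ?_
        refine ((hΛ0 f).add (hΛ0 g)).congr fun K => ?_
        simp only [L, CompactlySupportedContinuousMap.coe_add, Pi.add_apply,
          Finset.sum_add_distrib]
        ring
      map_smul' := fun c f => by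
        refine tendsto_nhds_unique (hΛ0 (c • f)) ?_
        refine ((hΛ0 f).const_mul c).congr fun K => ?_
        simp only [L, CompactlySupportedContinuousMap.coe_smul, Pi.smul_apply, smul_eq_mul,
          ← Finset.mul_sum]
        ring }
    fun f hf => by
      refine ge_of_tendsto (hΛ0 f) (Eventually.of_forall fun K => ?_)
      have h1 : 0 ≤ ∑ g : Γ K, f ((g : G) • x0) := Finset.sum_nonneg fun g _ => hf _
      have h2 := hcard K
      simp only [L]
      positivity
  have hΛ : ∀ f, Λ f = Λ0 f := fun _ => rfl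
  let sh : G → C_c(X, ℝ) → C_c(X, ℝ) := fun g f =>
    ⟨⟨fun x => f (g • x), f.continuous.comp (hact g)⟩, HasCompactSupport.of_compactSpace _⟩
  have hsh : ∀ g f x, sh g f x = f (g • x) := fun _ _ _ => rfl
  have hinv : ∀ g f, Λ0 (sh g f) = Λ0 f := by
    intro g f
    refine tendsto_nhds_unique_of_eventuallyEq (hΛ0 (sh g f)) (hΛ0 f) ?_
    have h1 : ∀ᶠ K in (atTop : Filter (Finset G)), L K (sh g f) = L K f := by
      filter_upwards [eventually_ge_atTop ({g} : Finset G)] with K hK
      have hg : g ∈ Γ K := hmem K g (hK (Finset.mem_singleton_self g))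
      simp only [L, hsh]
      congr 1
      refine Fintype.sum_equiv (Equiv.mulLeft (⟨g, hg⟩ : Γ K)) _ _ fun h => ?_
      simp [mul_smul]
    exact h1.filter_mono hU
  let μ : Measure X := RealRMK.rieszMeasure Λ
  have hμ : ∀ f : C_c(X, ℝ), ∫ x, f x ∂μ = Λ0 f := fun f => RealRMK.integral_rieszMeasure Λ f
  have hreg : μ.Regular := by infer_instance
  have hfm : IsFiniteMeasure μ := by infer_instance
  have hprob : IsProbabilityMeasure μ := by
    let o : C_c(X, ℝ) := ⟨1, HasCompactSupport.of_compactSpace 1⟩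
    have ho : ∀ x, o x = 1 := fun _ => rfl
    have h1 := hμ o
    have h2 : Λ0 o = 1 := by
      refine tendsto_nhds_unique (hΛ0 o) ?_
      refine tendsto_const_nhds.congr fun K => ?_
      simp only [L, ho]
      have h3 := (hcard K).ne'
      simp [h3]
    rw [h2] at h1
    simp only [ho, integral_const, smul_eq_mul, mul_one] at h1
    constructor
    rw [← ENNReal.ofReal_toReal (measure_ne_top μ univ)]
    change ENNReal.ofReal (μ.real univ) = 1
    rw [h1, ENNReal.ofReal_one]
  refine ⟨μ, hprob, hreg, fun g => ?_⟩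
  let e : X ≃ₜ X :=
    { toFun := fun x => g • x
      invFun := fun x => g⁻¹ • x
      left_inv := fun x => by simp
      right_inv := fun x => by simp
      continuous_toFun := hact g
      continuous_invFun := hact g⁻¹ }
  have hr2 : (μ.map (fun x => g • x)).Regular := Measure.Regular.map e
  refine Measure.ext_of_integral_eq_on_compactlySupported fun f => ?_
  have h4 : ∫ x, f x ∂(μ.map (fun x => g • x)) = ∫ x, f (g • x) ∂μ :=
    integral_map (hact g).measurable.aemeasurable
      (Continuous.stronglyMeasurable_of_hasCompactSupport f.continuous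
        f.hasCompactSupport).aestronglyMeasurable
  rw [h4]
  have h5 := hμ (sh g f)
  simp only [hsh] at h5
  rw [h5, hinv, hμ]

end Pool.Agent.R201.RN
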