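import Pool.Agent.R201.RN.Stm

/-! RN-14: the space of actions is Baire (helper888). -/

set_option autoImplicit false

open Set MeasureTheory Filter Topology

namespace Pool.Agent.R201.RN

namespace SBaireP

instance : SecondCountableTopology E := by
  have : Fact ((1 : ENNReal) ≠ ⊤) := ⟨ENNReal.one_ne_top⟩
  infer_instance

variable {G : Type} [Group G] {pos : Prop}

/-- evaluation on a dense sequence -/
noncomputable def Phi (pos : Prop) (G : Type) [Group G] (α : Act pos G) : G → ℕ → E :=
  fun g n => α.1 g (TopologicalSpace.denseSeq E n)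

lemma norm_diff_le (g : G) (α β : Act pos G) (f x : E) :
    ‖β.1 g f - α.1 g f‖ ≤ 2 * ‖f - x‖ + ‖β.1 g x - α.1 g x‖ := by
  have e : β.1 g f - α.1 g f = (β.1 g (f - x)) + (β.1 g x - α.1 g x) - (α.1 g (f - x)) := by
    rw [map_sub, map_sub]; abel
  have h1 : ‖β.1 g (f - x)‖ = ‖f - x‖ := (β.1 g).norm_map _
  have h2 : ‖α.1 g (f - x)‖ = ‖f - x‖ := (α.1 g).norm_map _
  rw [e]
  calc _ ≤ ‖(β.1 g (f - x)) + (β.1 g x - α.1 g x)‖ + ‖α.1 g (f - x)‖ := norm_sub_le _ _
    _ ≤ ‖β.1 g (f - x)‖ + ‖β.1 g x - α.1 g x‖ + ‖α.1 g (f - x)‖ := by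
        gcongr; exact norm_add_le _ _
    _ = 2 * ‖f - x‖ + ‖β.1 g x - α.1 g x‖ := by rw [h1, h2]; ring

lemma exists_near (f : E) {ε : ℝ} (hε : 0 < ε) :
    ∃ n, ‖f - TopologicalSpace.denseSeq E n‖ < ε := by
  obtain ⟨n, hn⟩ := (TopologicalSpace.denseRange_denseSeq E).exists_dist_lt f hε
  exact ⟨n, by rwa [dist_eq_norm] at hn⟩

lemma continuous_eval (g : G) (f : E) : Continuous (fun α : Act pos G => α.1 g f) := by
  have h : Continuous (fun (α : Act pos G) (g : G) (f : E) => α.1 g f) := continuous_induced_dom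
  exact (continuous_apply f).comp ((continuous_apply g).comp h)

lemma continuous_Phi : Continuous (Phi pos G) := by
  apply continuous_pi
  intro g
  apply continuous_pi
  intro n
  exact continuous_eval g _

lemma isInducing_Phi : IsInducing (Phi pos G) := by
  rw [isInducing_iff_nhds]
  intro α
  apply le_antisymm
  · exact (continuous_Phi.tendsto α).le_comap
  · have e : 𝓝 α = comap (fun (α : Act pos G) (g : G) (f : E) => α.1 g f)
        (𝓝 (fun (g : G) (f : E) => α.1 g f)) := nhds_induced _ _
    rw [e]
    rw [← tendsto_iff_comap]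
    rw [tendsto_pi_nhds]
    intro g
    rw [tendsto_pi_nhds]
    intro f
    rw [Metric.tendsto_nhds]
    intro ε hε
    obtain ⟨n, hn⟩ := exists_near f (show 0 < ε / 4 by positivity)
    have h1 : Tendsto (fun β : Act pos G => Phi pos G β g n) (comap (Phi pos G) (𝓝 (Phi pos G α)))
        (𝓝 (Phi pos G α g n)) := by
      have hc : Continuous (fun y : G → ℕ → E => y g n) :=
        (continuous_apply n).comp (continuous_apply g)
      exact (hc.tendsto (Phi pos G α)).comp tendsto_comap
    filter_upwards [Metric.tendsto_nhds.1 h1 (ε / 4) (by positivity)] with β hβ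
    rw [dist_eq_norm] at hβ ⊢
    have h2 := norm_diff_le g α β f (TopologicalSpace.denseSeq E n)
    have h3 : ‖β.1 g (TopologicalSpace.denseSeq E n) - α.1 g (TopologicalSpace.denseSeq E n)‖ < ε / 4 :=
      hβ
    linarith

lemma injective_Phi : Function.Injective (Phi pos G) := by
  intro α β h
  apply Subtype.ext
  apply MonoidHom.ext
  intro g
  apply LinearIsometryEquiv.ext
  intro f
  have h1 : (fun f => α.1 g f) = fun f => β.1 g f := by
    apply Continuous.ext_on (TopologicalSpace.denseRange_denseSeq E) (α.1 g).continuous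
      (β.1 g).continuous
    rintro _ ⟨n, rfl⟩
    exact congrFun (congrFun h g) n
  exact congrFun h1 f

lemma isClosed_range : IsClosed (range (Phi pos G)) := by
  rw [← closure_subset_iff_isClosed]
  intro y hy
  rw [mem_closure_iff_frequently] at hy
  set l : Filter (Act pos G) := comap (Phi pos G) (𝓝 y) with hl
  have hne : l.NeBot := comap_neBot_iff_frequently.2 hy
  have hyl : ∀ g n, Tendsto (fun β : Act pos G => β.1 g (TopologicalSpace.denseSeq E n)) l
      (𝓝 (y g n)) := by
    intro g n
    have hc : Continuous (fun y : G → ℕ → E => y g n) :=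
      (continuous_apply n).comp (continuous_apply g)
    exact (hc.tendsto y).comp tendsto_comap
  have hex : ∀ (g : G) (f : E), ∃ a : E, Tendsto (fun β : Act pos G => β.1 g f) l (𝓝 a) := by
    intro g f
    have hcau : Cauchy (map (fun β : Act pos G => β.1 g f) l) := by
      rw [Metric.cauchy_iff]
      refine ⟨inferInstance, ?_⟩
      intro ε hε
      obtain ⟨n, hn⟩ := exists_near f (show 0 < ε / 8 by positivity)
      have h1 := Metric.tendsto_nhds.1 (hyl g n) (ε / 8) (by positivity)
      refine ⟨(fun β : Act pos G => β.1 g f) ''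
        {β | dist (β.1 g (TopologicalSpace.denseSeq E n)) (y g n) < ε / 8}, image_mem_map h1, ?_⟩
      rintro _ ⟨β, hβ, rfl⟩ _ ⟨γ, hγ, rfl⟩
      have hβ' : dist (β.1 g (TopologicalSpace.denseSeq E n)) (y g n) < ε / 8 := hβ
      have hγ' : dist (γ.1 g (TopologicalSpace.denseSeq E n)) (y g n) < ε / 8 := hγ
      have h2 := norm_diff_le g γ β f (TopologicalSpace.denseSeq E n)
      have h3 : ‖β.1 g (TopologicalSpace.denseSeq E n) - γ.1 g (TopologicalSpace.denseSeq E n)‖
          < ε / 4 := by
        rw [← dist_eq_norm]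
        have h4 := dist_triangle_right (β.1 g (TopologicalSpace.denseSeq E n))
          (γ.1 g (TopologicalSpace.denseSeq E n)) (y g n)
        linarith
      show dist (β.1 g f) (γ.1 g f) < ε
      rw [dist_eq_norm]
      linarith
    obtain ⟨a, ha⟩ := CompleteSpace.complete hcau
    exact ⟨a, ha⟩
  choose A hA using hex
  have hadd : ∀ g f f', A g (f + f') = A g f + A g f' := by
    intro g f f'
    apply tendsto_nhds_unique (hA g (f + f'))
    have h1 := (hA g f).add (hA g f')
    refine h1.congr (fun β => ?_)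
    rw [map_add]
  have hsmul : ∀ g (c : ℝ) f, A g (c • f) = c • A g f := by
    intro g c f
    apply tendsto_nhds_unique (hA g (c • f))
    have h1 := (hA g f).const_smul c
    refine h1.congr (fun β => ?_)
    exact ((β.1 g).map_smul c f).symm
  have hnorm : ∀ g f, ‖A g f‖ = ‖f‖ := by
    intro g f
    have h1 := (hA g f).norm
    have h2 : Tendsto (fun β : Act pos G => ‖β.1 g f‖) l (𝓝 ‖f‖) := by
      refine tendsto_const_nhds.congr (fun β => ?_)
      exact ((β.1 g).norm_map f).symm
    exact tendsto_nhds_unique h1 h2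
  have hone : ∀ f, A 1 f = f := by
    intro f
    apply tendsto_nhds_unique (hA 1 f)
    refine tendsto_const_nhds.congr (fun β => ?_)
    rw [map_one]
    rfl
  have hmul : ∀ g h f, A (g * h) f = A g (A h f) := by
    intro g h f
    apply tendsto_nhds_unique (hA (g * h) f)
    rw [Metric.tendsto_nhds]
    intro ε hε
    have h1 := Metric.tendsto_nhds.1 (hA h f) (ε / 2) (by positivity)
    have h2 := Metric.tendsto_nhds.1 (hA g (A h f)) (ε / 2) (by positivity)
    filter_upwards [h1, h2] with β h3 h4
    have e1 : β.1 (g * h) f = β.1 g (β.1 h f) := by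
      rw [map_mul]; rfl
    rw [e1]
    have h5 : dist (β.1 g (β.1 h f)) (β.1 g (A h f)) = dist (β.1 h f) (A h f) :=
      (β.1 g).dist_map _ _
    have h6 := dist_triangle (β.1 g (β.1 h f)) (β.1 g (A h f)) (A g (A h f))
    linarith
  let B : G → (E →ₗᵢ[ℝ] E) := fun g =>
    ⟨⟨⟨A g, hadd g⟩, hsmul g⟩, hnorm g⟩
  let C : G → (E ≃ₗᵢ[ℝ] E) := fun g =>
    { toLinearEquiv := LinearEquiv.ofLinearMap (B g).toLinearMap (B g⁻¹).toLinearMap
        (by
          ext1 f
          show A g (A g⁻¹ f) = f
          rw [← hmul, mul_inv_cancel, hone])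
        (by
          ext1 f
          show A g⁻¹ (A g f) = f
          rw [← hmul, inv_mul_cancel, hone])
      norm_map' := hnorm g }
  have hC : ∀ g f, C g f = A g f := fun g f => rfl
  let α : G →* (E ≃ₗᵢ[ℝ] E) :=
    { toFun := C
      map_one' := by
        ext1 f
        show A 1 f = f
        exact hone f
      map_mul' := by
        intro g h
        ext1 f
        show A (g * h) f = A g (A h f)
        exact hmul g h f }
  refine ⟨⟨α, ?_⟩, ?_⟩
  · intro hp g f hf
    show 0 ≤ A g f
    exact ge_of_tendsto' (hA g f) (fun β => β.2 hp g f hf)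
  · funext g n
    show A g (TopologicalSpace.denseSeq E n) = y g n
    exact tendsto_nhds_unique (hA g _) (hyl g n)

end SBaireP

open SBaireP in
theorem sBaire : SBaire := by
  intro G _ _ pos
  have h : IsClosedEmbedding (Phi pos G) :=
    ⟨⟨isInducing_Phi, injective_Phi⟩, isClosed_range⟩
  have h2 : PolishSpace (Act pos G) := h.polishSpace
  infer_instance

end Pool.Agent.R201.RN
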