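import Pool.Agent.R201.RN.Stm

/-! # Transport of a decomposition by a decomposition -/

set_option autoImplicit false

open Set MeasureTheory Filter Topology

namespace Pool.Agent.R201.RN

namespace SConjAux

theorem densU {pos : Prop} {n : ℕ} {ρ : Fin n → E →ₗᵢ[ℝ] E} (hρ : IsDec pos ρ) (f : E) (ε : ℝ)
    (hε : 0 < ε) : ∃ φ : Fin n → E, ‖f - ∑ p, ρ p (φ p)‖ < ε ∧ (pos → 0 ≤ f → ∀ p, 0 ≤ φ p) := by
  classical
  obtain ⟨s, φ, h1, h2⟩ := hρ.dense f ε hε
  refine ⟨fun p => if p ∈ s then φ p else 0, ?_, ?_⟩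
  · have e : ∑ p, ρ p (if p ∈ s then φ p else 0) = ∑ p ∈ s, ρ p (φ p) := by
      rw [← Finset.sum_subset (Finset.subset_univ s)]
      · exact Finset.sum_congr rfl fun p hp => by rw [if_pos hp]
      · intro p _ hp
        rw [if_neg hp, map_zero]
    rw [e]
    exact h1
  · intro hp hf p
    by_cases hps : p ∈ s
    · simp only [if_pos hps]
      exact h2 hp hf p
    · simp only [if_neg hps]
      exact le_rfl

end SConjAux

open SConjAux in
theorem sConj (h1 : SExt) (_h2 : SProd) : SConj := by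
  classical
  intro n ρ I τ hρ hτ
  have hex : ∀ i : I, ∃ J : E →ₗᵢ[ℝ] E, (∀ k f, J (ρ k f) = ρ k (τ i f)) ∧
      ∀ f, 0 ≤ f → 0 ≤ J f := by
    intro i
    obtain ⟨J, hJ1, hJ2⟩ := h1 (Fin n) True ρ (fun k => (ρ k).comp (τ i)) hρ (by
      intro s φ
      have e := hρ.ortho s fun k => τ i (φ k)
      refine e.trans ?_
      exact Finset.sum_congr rfl fun k _ => (τ i).norm_map _) (by
      intro _ k f hf
      exact hρ.posi trivial k _ (hτ.posi trivial i f hf))
    exact ⟨J, fun k f => hJ1 k f, hJ2 trivial⟩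
  choose J hJ hJp using hex
  -- the sums
  have hsum : ∀ (s : Finset I) (Φ : I → Fin n → E),
      ∑ i ∈ s, J i (∑ k, ρ k (Φ i k)) = ∑ k, ρ k (∑ i ∈ s, τ i (Φ i k)) := by
    intro s Φ
    have e1 : ∀ i ∈ s, J i (∑ k, ρ k (Φ i k)) = ∑ k, ρ k (τ i (Φ i k)) := by
      intro i _
      rw [map_sum]
      exact Finset.sum_congr rfl fun k _ => hJ i k _
    rw [Finset.sum_congr rfl e1, Finset.sum_comm]
    refine Finset.sum_congr rfl fun k _ => ?_
    rw [map_sum]
  have hcore : ∀ (s : Finset I) (Φ : I → Fin n → E),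
      ‖∑ i ∈ s, J i (∑ k, ρ k (Φ i k))‖ = ∑ i ∈ s, ‖∑ k, ρ k (Φ i k)‖ := by
    intro s Φ
    rw [hsum, hρ.ortho Finset.univ fun k => ∑ i ∈ s, τ i (Φ i k)]
    have e1 : ∀ k ∈ Finset.univ, ‖∑ i ∈ s, τ i (Φ i k)‖ = ∑ i ∈ s, ‖Φ i k‖ := fun k _ =>
      hτ.ortho s fun i => Φ i k
    rw [Finset.sum_congr rfl e1, Finset.sum_comm]
    exact Finset.sum_congr rfl fun i _ => (hρ.ortho Finset.univ fun k => Φ i k).symm
  refine ⟨J, ⟨?_, ?_, ?_⟩, hJ⟩
  · intro s φ
    refine eq_of_forall_dist_le fun ε hε => ?_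
    have hδ : 0 < ε / (2 * (s.card + 1)) := by positivity
    choose Φ hΦ using fun i : I => densU hρ (φ i) _ hδ
    have e0 := hcore s Φ
    have e1 : ‖(∑ i ∈ s, J i (φ i)) - ∑ i ∈ s, J i (∑ k, ρ k (Φ i k))‖ ≤
        s.card * (ε / (2 * (s.card + 1))) := by
      rw [← Finset.sum_sub_distrib]
      refine (norm_sum_le _ _).trans ?_
      refine (Finset.sum_le_card_nsmul _ _ (ε / (2 * (s.card + 1))) fun i _ => ?_).trans
        (le_of_eq (by rw [nsmul_eq_mul]))
      rw [← map_sub, (J i).norm_map]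
      exact (hΦ i).1.le
    have e2 : |(∑ i ∈ s, ‖φ i‖) - ∑ i ∈ s, ‖∑ k, ρ k (Φ i k)‖| ≤
        s.card * (ε / (2 * (s.card + 1))) := by
      rw [← Finset.sum_sub_distrib]
      refine (Finset.abs_sum_le_sum_abs _ _).trans ?_
      refine (Finset.sum_le_card_nsmul _ _ (ε / (2 * (s.card + 1))) fun i _ => ?_).trans
        (le_of_eq (by rw [nsmul_eq_mul]))
      exact (abs_norm_sub_norm_le _ _).trans (hΦ i).1.le
    have e3 := abs_norm_sub_norm_le (∑ i ∈ s, J i (φ i)) (∑ i ∈ s, J i (∑ k, ρ k (Φ i k)))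
    rw [e0] at e3
    have e4 : (s.card : ℝ) * (ε / (2 * (s.card + 1))) ≤ ε / 2 := by
      rw [← mul_div_assoc, div_le_div_iff₀ (by positivity) (by norm_num)]
      nlinarith [(Nat.cast_nonneg s.card : (0 : ℝ) ≤ s.card)]
    rw [Real.dist_eq]
    rw [abs_le] at e2 ⊢
    have e5 := abs_le.1 (e3.trans e1)
    constructor <;> linarith [e5.1, e5.2, e2.1, e2.2]
  · intro _ i f hf
    exact hJp i f hf
  · intro f ε hε
    obtain ⟨φ, hφ1, hφ2⟩ := densU hρ f (ε / 2) (by positivity)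
    have hδ : 0 < ε / (2 * (n + 1)) := by positivity
    choose sk χ hχ1 hχ2 using fun k : Fin n => hτ.dense (φ k) _ hδ
    refine ⟨Finset.univ.biUnion sk,
      fun i => ∑ k, ρ k (if i ∈ sk k then χ k i else 0), ?_, ?_⟩
    · rw [hsum]
      have e1 : ∀ k ∈ Finset.univ, ρ k (∑ i ∈ Finset.univ.biUnion sk,
          τ i (if i ∈ sk k then χ k i else 0)) = ρ k (∑ i ∈ sk k, τ i (χ k i)) := by
        intro k _
        congr 1
        rw [← Finset.sum_subset (Finset.subset_biUnion_of_mem sk (Finset.mem_univ k))]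
        · exact Finset.sum_congr rfl fun i hi => by rw [if_pos hi]
        · intro i _ hi
          rw [if_neg hi, map_zero]
      rw [Finset.sum_congr rfl e1]
      have e2 : ‖(∑ k, ρ k (φ k)) - ∑ k, ρ k (∑ i ∈ sk k, τ i (χ k i))‖ ≤
          n * (ε / (2 * (n + 1))) := by
        rw [← Finset.sum_sub_distrib]
        refine (norm_sum_le _ _).trans ?_
        refine (Finset.sum_le_card_nsmul _ _ (ε / (2 * (n + 1))) fun k _ => ?_).trans
          (le_of_eq (by rw [nsmul_eq_mul, Finset.card_univ, Fintype.card_fin]))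
        rw [← map_sub, (ρ k).norm_map]
        exact (hχ1 k).le
      have e4 : (n : ℝ) * (ε / (2 * (n + 1))) ≤ ε / 2 := by
        rw [← mul_div_assoc, div_le_div_iff₀ (by positivity) (by norm_num)]
        nlinarith [(Nat.cast_nonneg n : (0 : ℝ) ≤ n)]
      have e5 : f - ∑ k, ρ k (∑ i ∈ sk k, τ i (χ k i)) = (f - ∑ k, ρ k (φ k)) +
          ((∑ k, ρ k (φ k)) - ∑ k, ρ k (∑ i ∈ sk k, τ i (χ k i))) := by abel
      rw [e5]
      refine lt_of_le_of_lt (norm_add_le _ _) ?_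
      linarith
    · intro _ hf i
      refine Finset.sum_nonneg fun k _ => ?_
      refine hρ.posi trivial k _ ?_
      by_cases hi : i ∈ sk k
      · rw [if_pos hi]
        exact hχ2 k trivial (hφ2 trivial hf k) i
      · rw [if_neg hi]

end Pool.Agent.R201.RN
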