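import Pool.Agent.R201.RN.Stm

/-! # Piece SD1: interval transport in `L₁[0,1]` -/

set_option autoImplicit false

open Set MeasureTheory Filter Topology
open scoped ENNReal

namespace Pool.Agent.R201.RN

namespace SD1P

/-- the measure -/
noncomputable abbrev μ₀ : Measure ℝ := volume.restrict (Icc (0 : ℝ) 1)

instance : IsProbabilityMeasure μ₀ := ⟨by simp [μ₀]⟩

lemma map_aff (u l : ℝ) (hl : 0 < l) :
    (volume : Measure ℝ).map (fun t => (t - u) / l) = ENNReal.ofReal l • volume := by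
  have h1 : (fun t : ℝ => (t - u) / l) = (fun t => l⁻¹ * t) ∘ (fun t => t + -u) := by
    funext t
    simp only [Function.comp_apply]
    rw [div_eq_inv_mul]
    rfl
  rw [h1, ← Measure.map_map (by fun_prop) (by fun_prop), map_add_right_eq_self,
    Real.map_volume_mul_left (by positivity), inv_inv, abs_of_pos hl]

lemma mp (u l : ℝ) (hl : 0 < l) : MeasurePreserving (fun t => (t - u) / l)
    (volume.restrict (Ioc u (u + l))) (ENNReal.ofReal l • μ₀) := by
  refine ⟨by fun_prop, ?_⟩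
  have h2 : (fun t : ℝ => (t - u) / l) ⁻¹' (Ioc 0 1) = Ioc u (u + l) := by
    ext t
    simp only [mem_preimage, mem_Ioc]
    rw [div_le_one hl, div_pos_iff_of_pos_right hl]
    constructor
    · rintro ⟨h, h'⟩
      constructor <;> linarith
    · rintro ⟨h, h'⟩
      constructor <;> linarith
  rw [← h2, ← Measure.restrict_map (by fun_prop) measurableSet_Ioc, map_aff u l hl,
    Measure.restrict_smul, Measure.restrict_congr_set Ioc_ae_eq_Icc]

lemma mp' (u l : ℝ) (hl : 0 < l) : MeasurePreserving (fun x => u + l * x)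
    μ₀ (ENNReal.ofReal l⁻¹ • volume.restrict (Icc u (u + l))) := by
  refine ⟨by fun_prop, ?_⟩
  have h1 : (fun x : ℝ => u + l * x) = fun x => (x - (-(u / l))) / l⁻¹ := by
    funext x
    field_simp
    ring
  have h2 : (fun x : ℝ => u + l * x) ⁻¹' (Icc u (u + l)) = Icc 0 1 := by
    ext t
    simp only [mem_preimage, mem_Icc]
    constructor
    · rintro ⟨h, h'⟩
      constructor
      · nlinarith
      · nlinarith
    · rintro ⟨h, h'⟩
      constructor
      · nlinarith
      · nlinarith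
  rw [μ₀, ← h2, ← Measure.restrict_map (by fun_prop) measurableSet_Icc, h1,
    map_aff _ _ (by positivity), Measure.restrict_smul]

/-- the transported function -/
noncomputable def A (u l : ℝ) (f : ℝ → ℝ) : ℝ → ℝ :=
  fun t => if t ∈ Ioc u (u + l) then l⁻¹ * f ((t - u) / l) else 0

lemma A_eq (u l : ℝ) (f : ℝ → ℝ) :
    A u l f = (Ioc u (u + l)).indicator (fun t => l⁻¹ * f ((t - u) / l)) := by
  funext t
  simp only [A, indicator]

structure Valid (u l : ℝ) : Prop where
  hu : 0 ≤ u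
  hl : 0 < l
  h1 : u + l ≤ 1

lemma Valid.sub {u l : ℝ} (h : Valid u l) : Ioc u (u + l) ⊆ Icc (0 : ℝ) 1 := fun t ht =>
  ⟨by linarith [ht.1, h.hu], by linarith [ht.2, h.h1]⟩

lemma Valid.subIcc {u l : ℝ} (h : Valid u l) : Icc u (u + l) ⊆ Icc (0 : ℝ) 1 := fun t ht =>
  ⟨by linarith [ht.1, h.hu], by linarith [ht.2, h.h1]⟩

lemma Valid.restr {u l : ℝ} (h : Valid u l) :
    μ₀.restrict (Ioc u (u + l)) = volume.restrict (Ioc u (u + l)) := by
  rw [Measure.restrict_restrict measurableSet_Ioc, inter_eq_self_of_subset_left h.sub]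

lemma A_all {u l : ℝ} (h : Valid u l) {p : ℝ → Prop} (hp : ∀ᵐ x ∂μ₀, p x) :
    ∀ᵐ t ∂μ₀, t ∈ Ioc u (u + l) → p ((t - u) / l) := by
  rw [← ae_restrict_iff' measurableSet_Ioc, h.restr]
  have h3 : ∀ᵐ x ∂(ENNReal.ofReal l • μ₀), p x := Measure.ae_smul_measure hp _
  exact (mp u l h.hl).quasiMeasurePreserving.ae h3

lemma A_ae {u l : ℝ} (h : Valid u l) {f g : ℝ → ℝ} (hfg : f =ᵐ[μ₀] g) :
    A u l f =ᵐ[μ₀] A u l g := by
  filter_upwards [A_all h hfg] with t ht
  unfold A
  split_ifs with h4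
  · rw [ht h4]
  · rfl

lemma A_memLp {u l : ℝ} (h : Valid u l) {f : ℝ → ℝ} (hf : MemLp f 1 μ₀) :
    MemLp (A u l f) 1 μ₀ := by
  rw [A_eq, memLp_indicator_iff_restrict measurableSet_Ioc, h.restr]
  exact ((hf.smul_measure (c := ENNReal.ofReal l) ENNReal.ofReal_ne_top).comp_measurePreserving
    (mp u l h.hl)).const_mul l⁻¹

lemma A_norm {u l : ℝ} (h : Valid u l) {f : ℝ → ℝ} (hf : MemLp f 1 μ₀) :
    eLpNorm (A u l f) 1 μ₀ = eLpNorm f 1 μ₀ := by
  rw [A_eq, eLpNorm_indicator_eq_eLpNorm_restrict measurableSet_Ioc, h.restr]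
  have h3 : (fun t => l⁻¹ * f ((t - u) / l)) = l⁻¹ • (f ∘ fun t => (t - u) / l) := by
    funext t
    simp
  rw [h3, eLpNorm_const_smul, eLpNorm_comp_measurePreserving
    (hf.smul_measure (c := ENNReal.ofReal l) ENNReal.ofReal_ne_top).aestronglyMeasurable
    (mp u l h.hl), eLpNorm_one_smul_measure, ← mul_assoc, Real.enorm_eq_ofReal (by
      have := h.hl
      positivity), ← ENNReal.ofReal_mul (by have := h.hl; positivity),
    inv_mul_cancel₀ h.hl.ne', ENNReal.ofReal_one, one_mul]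

/-- the isometry -/
noncomputable def Tv {u l : ℝ} (h : Valid u l) : E →ₗᵢ[ℝ] E where
  toFun f := (A_memLp h (Lp.memLp f)).toLp _
  map_add' f g := by
    rw [← MemLp.toLp_add]
    apply MemLp.toLp_congr
    refine (A_ae h (Lp.coeFn_add f g)).trans (Eventually.of_forall fun t => ?_)
    simp only [A, Pi.add_apply]
    split_ifs
    · ring
    · ring
  map_smul' c f := by
    rw [RingHom.id_apply, ← MemLp.toLp_const_smul]
    apply MemLp.toLp_congr
    refine (A_ae h (Lp.coeFn_smul c f)).trans (Eventually.of_forall fun t => ?_)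
    simp only [A, Pi.smul_apply, smul_eq_mul]
    split_ifs
    · ring
    · ring
  norm_map' f := by
    show ‖(A_memLp h (Lp.memLp f)).toLp _‖ = ‖f‖
    rw [Lp.norm_toLp, A_norm h (Lp.memLp f), Lp.norm_def]

lemma Tv_coe {u l : ℝ} (h : Valid u l) (f : E) : (Tv h f : ℝ → ℝ) =ᵐ[μ₀] A u l f :=
  MemLp.coeFn_toLp (A_memLp h (Lp.memLp f))

open Classical in
/-- the family -/
noncomputable def T (u l : ℝ) : E →ₗᵢ[ℝ] E :=
  if h : Valid u l then Tv h else LinearIsometry.id

lemma T_coe {u l : ℝ} (h : Valid u l) (f : E) : (T u l f : ℝ → ℝ) =ᵐ[μ₀] A u l f := by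
  unfold T
  rw [dif_pos h]
  exact Tv_coe h f

lemma abs_sum {I : Type} (s : Finset I) (x : I → ℝ)
    (h : ∀ i ∈ s, ∀ j ∈ s, i ≠ j → x i = 0 ∨ x j = 0) : |∑ i ∈ s, x i| = ∑ i ∈ s, |x i| := by
  by_cases h0 : ∀ i ∈ s, x i = 0
  · rw [Finset.sum_eq_zero h0, abs_zero, Finset.sum_eq_zero fun i hi => by rw [h0 i hi, abs_zero]]
  · push Not at h0
    obtain ⟨i, hi, hi0⟩ := h0
    have h1 : ∀ j ∈ s, j ≠ i → x j = 0 := fun j hj hji => (h i hi j hj hji.symm).resolve_left hi0
    rw [Finset.sum_eq_single_of_mem i hi h1, Finset.sum_eq_single_of_mem i hi fun j hj hji => by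
      rw [h1 j hj hji, abs_zero]]

/-- the inverse transport -/
noncomputable def B (u l : ℝ) (f : ℝ → ℝ) : ℝ → ℝ := fun x => l * f (u + l * x)

lemma B_memLp {u l : ℝ} (h : Valid u l) {f : ℝ → ℝ} (hf : MemLp f 1 μ₀) :
    MemLp (B u l f) 1 μ₀ := by
  have h1 : MemLp f 1 (volume.restrict (Icc u (u + l))) :=
    hf.mono_measure (Measure.restrict_mono_set volume h.subIcc)
  exact ((h1.smul_measure (c := ENNReal.ofReal l⁻¹) ENNReal.ofReal_ne_top).comp_measurePreserving
    (mp' u l h.hl)).const_mul l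

lemma A_B {u l : ℝ} (h : Valid u l) (f : ℝ → ℝ) :
    A u l (B u l f) = (Ioc u (u + l)).indicator f := by
  rw [A_eq]
  congr 1
  funext t
  have := h.hl.ne'
  simp only [B]
  rw [← mul_assoc, inv_mul_cancel₀ this, one_mul]
  congr 1
  field_simp
  ring

lemma nonneg_A {u l : ℝ} (h : Valid u l) {f : ℝ → ℝ} (hf : 0 ≤ᵐ[μ₀] f) : 0 ≤ᵐ[μ₀] A u l f := by
  filter_upwards [A_all h hf] with t ht
  unfold A
  split_ifs with h4
  · have h5 : 0 ≤ f ((t - u) / l) := ht h4
    have := h.hl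
    show (0 : ℝ) ≤ _
    positivity
  · exact le_rfl

lemma nonneg_B {u l : ℝ} (h : Valid u l) {f : ℝ → ℝ} (hf : 0 ≤ᵐ[μ₀] f) : 0 ≤ᵐ[μ₀] B u l f := by
  have h1 : ∀ᵐ x ∂(volume.restrict (Icc u (u + l))), 0 ≤ f x :=
    ae_mono (Measure.restrict_mono_set volume h.subIcc) hf
  have h2 : ∀ᵐ x ∂(ENNReal.ofReal l⁻¹ • volume.restrict (Icc u (u + l))), 0 ≤ f x :=
    Measure.ae_smul_measure h1 _
  filter_upwards [(mp' u l h.hl).quasiMeasurePreserving.ae h2] with t ht
  have := h.hl
  show (0 : ℝ) ≤ l * f (u + l * t)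
  positivity

lemma norm_eq (f : E) : ‖f‖ = ∫ t, |(f : ℝ → ℝ) t| ∂μ₀ := by
  rw [L1.norm_eq_integral_norm]
  rfl

lemma integrable_E (f : E) : Integrable (f : ℝ → ℝ) μ₀ := L1.integrable_coeFn f

end SD1P

open SD1P in
/-- **Interval transport.** -/
theorem sD1 : SD1 := by
  classical
  refine ⟨T, fun u l hu hl h1 f => T_coe ⟨hu, hl, h1⟩ f, ?_⟩
  intro I _ u l hv hdis hsum
  have hV : ∀ i, Valid (u i) (l i) := fun i => ⟨(hv i).1, (hv i).2.1, (hv i).2.2⟩
  have hne : ∀ t i k, i ≠ k → t ∈ Ioc (u i) (u i + l i) → t ∉ Ioc (u k) (u k + l k) :=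
    fun t i k hik h1 h2 => Set.disjoint_left.1 (hdis i k hik) h1 h2
  have hall : ∀ (s : Finset I) (φ : I → E), ∀ᵐ t ∂μ₀,
      ((∑ i ∈ s, T (u i) (l i) (φ i) : E) : ℝ → ℝ) t = ∑ i ∈ s, A (u i) (l i) (φ i) t := by
    intro s φ
    have h1 := Lp.coeFn_finsetSum s (fun i => T (u i) (l i) (φ i))
    have h2 : ∀ᵐ t ∂μ₀, ∀ i, (T (u i) (l i) (φ i) : ℝ → ℝ) t = A (u i) (l i) (φ i) t := by
      rw [ae_all_iff]
      exact fun i => T_coe (hV i) (φ i)
    filter_upwards [h1, h2] with t ht1 ht2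
    rw [ht1]
    simp only [Finset.sum_apply]
    exact Finset.sum_congr rfl fun i _ => ht2 i
  refine ⟨?_, ?_, ?_⟩
  · intro s φ
    have h3 : ‖∑ p ∈ s, T (u p) (l p) (φ p)‖ =
        ∫ t, ∑ i ∈ s, |A (u i) (l i) (φ i) t| ∂μ₀ := by
      rw [norm_eq]
      refine integral_congr_ae ?_
      filter_upwards [hall s φ] with t ht
      rw [ht]
      apply abs_sum
      intro i _ j _ hij
      by_cases hi : t ∈ Ioc (u i) (u i + l i)
      · right
        simp only [A]
        rw [if_neg (hne t i j hij hi)]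
      · left
        simp only [A]
        rw [if_neg hi]
    rw [h3, integral_finsetSum]
    · refine Finset.sum_congr rfl fun i _ => ?_
      rw [← (T (u i) (l i)).norm_map, norm_eq]
      refine integral_congr_ae ?_
      filter_upwards [T_coe (hV i) (φ i)] with t ht
      rw [ht]
    · intro i _
      exact (memLp_one_iff_integrable.1 (A_memLp (hV i) (Lp.memLp (φ i)))).abs
  · intro _ i f hf
    rw [← Lp.coeFn_nonneg] at hf ⊢
    refine (nonneg_A (hV i) hf).trans_eq (T_coe (hV i) f).symm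
  · intro f ε hε
    have hU : ∀ᵐ t ∂μ₀, t ∈ ⋃ i, Ioc (u i) (u i + l i) := by
      have h4 : (⋃ i, Ioc (u i) (u i + l i)) ∈ ae μ₀ := by
        rw [mem_ae_iff_prob_eq_one (MeasurableSet.iUnion fun i => measurableSet_Ioc)]
        rw [measure_iUnion (fun i k hik => hdis i k hik) fun i => measurableSet_Ioc]
        have h5 : ∀ i, μ₀ (Ioc (u i) (u i + l i)) = ENNReal.ofReal (l i) := by
          intro i
          rw [Measure.restrict_apply measurableSet_Ioc,
            inter_eq_self_of_subset_left (hV i).sub, Real.volume_Ioc]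
          congr 1
          ring
        simp_rw [h5]
        rw [← ENNReal.ofReal_tsum_of_nonneg (fun i => (hV i).hl.le) hsum.summable, hsum.tsum_eq,
          ENNReal.ofReal_one]
      exact h4
    have hf := integrable_E f
    have hS := hasSum_integral_iUnion (μ := μ₀) (f := fun t => |(f : ℝ → ℝ) t|)
      (s := fun i => Ioc (u i) (u i + l i)) (fun i => measurableSet_Ioc)
      (fun i k hik => hdis i k hik) hf.abs.integrableOn
    rw [Measure.restrict_eq_self_of_ae_mem hU] at hS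
    obtain ⟨s, hs⟩ := (hS.eventually (Metric.ball_mem_nhds _ hε)).exists
    refine ⟨s, fun i => (B_memLp (hV i) (Lp.memLp f)).toLp _, ?_, ?_⟩
    · have h6 : ‖f - ∑ i ∈ s, T (u i) (l i) ((B_memLp (hV i) (Lp.memLp f)).toLp _)‖ =
          ∫ t, (|(f : ℝ → ℝ) t| - ∑ i ∈ s, (Ioc (u i) (u i + l i)).indicator
            (fun t => |(f : ℝ → ℝ) t|) t) ∂μ₀ := by
        rw [norm_eq]
        refine integral_congr_ae ?_
        have h7 : ∀ᵐ t ∂μ₀, ∀ i, A (u i) (l i)
            ((B_memLp (hV i) (Lp.memLp f)).toLp _ : E) t =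
              (Ioc (u i) (u i + l i)).indicator (f : ℝ → ℝ) t := by
          rw [ae_all_iff]
          intro i
          rw [← A_B (hV i)]
          exact A_ae (hV i) (MemLp.coeFn_toLp _)
        filter_upwards [hall s (fun i => (B_memLp (hV i) (Lp.memLp f)).toLp _), h7,
          Lp.coeFn_sub f (∑ i ∈ s, T (u i) (l i) ((B_memLp (hV i) (Lp.memLp f)).toLp _))]
          with t ht1 ht2 ht3
        rw [ht3, Pi.sub_apply, ht1]
        simp_rw [ht2]
        by_cases h8 : ∃ i ∈ s, t ∈ Ioc (u i) (u i + l i)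
        · obtain ⟨i, hi, hit⟩ := h8
          have h9 : ∀ (g : ℝ → ℝ), ∑ j ∈ s, (Ioc (u j) (u j + l j)).indicator g t = g t := by
            intro g
            rw [Finset.sum_eq_single_of_mem i hi, indicator_of_mem hit]
            intro j _ hji
            exact indicator_of_notMem (hne t i j hji.symm hit) _
          rw [h9, h9]
          simp
        · push Not at h8
          have h9 : ∀ (g : ℝ → ℝ), ∑ j ∈ s, (Ioc (u j) (u j + l j)).indicator g t = 0 :=
            fun g => Finset.sum_eq_zero fun j hj => indicator_of_notMem (h8 j hj) _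
          rw [h9, h9]
          simp
      have h10 : ‖f - ∑ i ∈ s, T (u i) (l i) ((B_memLp (hV i) (Lp.memLp f)).toLp _)‖ =
          (∫ t, |(f : ℝ → ℝ) t| ∂μ₀) - ∑ i ∈ s, ∫ t in Ioc (u i) (u i + l i), |(f : ℝ → ℝ) t| ∂μ₀ := by
        rw [h6, integral_sub hf.abs, integral_finsetSum]
        · congr 1
          exact Finset.sum_congr rfl fun i _ => integral_indicator measurableSet_Ioc
        · exact fun i _ => hf.abs.indicator measurableSet_Ioc
        · exact integrable_finsetSum _ fun i _ => hf.abs.indicator measurableSet_Ioc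
      rw [h10]
      have h11 := Metric.mem_ball.1 hs
      rw [Real.dist_eq, abs_sub_comm] at h11
      exact (le_abs_self _).trans_lt h11
    · intro _ hf0 i
      rw [← Lp.coeFn_nonneg] at hf0 ⊢
      exact (nonneg_B (hV i) hf0).trans_eq (MemLp.coeFn_toLp _).symm

end Pool.Agent.R201.RN
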