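import Pool.Agent.R201.RN.Stm

/-! # RN-12: density -/

set_option autoImplicit false

open Set MeasureTheory Filter Topology

namespace Pool.Agent.R201.RN

namespace SDensAux

lemma mono {P : Type} {ρ : P → E →ₗᵢ[ℝ] E} (h : IsDec True ρ) (pos : Prop) : IsDec pos ρ where
  ortho := h.ortho
  posi _ := h.posi trivial
  dense f ε hε := by
    obtain ⟨s, φ, h1, h2⟩ := h.dense f ε hε
    exact ⟨s, φ, h1, fun _ => h2 trivial⟩

lemma compEquiv {P P' : Type} {pos : Prop} {ρ : P → E →ₗᵢ[ℝ] E} (h : IsDec pos ρ) (e : P' ≃ P) :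
    IsDec pos (fun p => ρ (e p)) where
  ortho s φ := by
    have h1 := h.ortho (s.map e.toEmbedding) (fun p => φ (e.symm p))
    rw [Finset.sum_map, Finset.sum_map] at h1
    simpa using h1
  posi hp p f hf := h.posi hp (e p) f hf
  dense f ε hε := by
    obtain ⟨s, φ, h1, h2⟩ := h.dense f ε hε
    refine ⟨s.map e.symm.toEmbedding, fun p => φ (e p), ?_, fun hp hf p => h2 hp hf (e p)⟩
    rw [Finset.sum_map]
    simpa using h1

lemma glue (h4 : SProd) {pos : Prop} {Q P P' : Type} {ρ : Bool → E →ₗᵢ[ℝ] E}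
    (hρ : IsDec pos ρ) {R0 : Q → E →ₗᵢ[ℝ] E} (hR0 : IsDec pos R0) {τ' : P' → E →ₗᵢ[ℝ] E}
    (hτ' : IsDec pos τ') (m1 : Q → P) (m2 : P' → P) (hbij : Function.Bijective (Sum.elim m1 m2)) :
    ∃ R : P → E →ₗᵢ[ℝ] E, IsDec pos R ∧ ∀ q f, R (m1 q) f = ρ true (R0 q f) := by
  set KK : Bool → Type := fun i => match i with
    | true => Q
    | false => P' with hKK
  set τ : (i : Bool) → KK i → E →ₗᵢ[ℝ] E := fun i => match i with
    | true => R0
    | false => τ' with hτdef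
  have hτ : ∀ i, IsDec pos (τ i) := by
    intro i
    cases i
    · exact hτ'
    · exact hR0
  have hD := h4 Bool KK pos ρ τ hρ hτ
  set fw : (Σ i, KK i) → P := fun x => match x with
    | ⟨true, q⟩ => m1 q
    | ⟨false, p⟩ => m2 p with hfw
  have hfwb : Function.Bijective fw := by
    constructor
    · rintro ⟨i, x⟩ ⟨i', x'⟩ h
      cases i <;> cases i'
      · have := hbij.1 (a₁ := Sum.inr x) (a₂ := Sum.inr x') h
        rw [Sum.inr.injEq] at this
        rw [this]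
      · have := hbij.1 (a₁ := Sum.inr x) (a₂ := Sum.inl x') h
        exact absurd this (by simp)
      · have := hbij.1 (a₁ := Sum.inl x) (a₂ := Sum.inr x') h
        exact absurd this (by simp)
      · have := hbij.1 (a₁ := Sum.inl x) (a₂ := Sum.inl x') h
        rw [Sum.inl.injEq] at this
        rw [this]
    · intro p
      obtain ⟨y, hy⟩ := hbij.2 p
      cases y with
      | inl q => exact ⟨⟨true, q⟩, hy⟩
      | inr q => exact ⟨⟨false, q⟩, hy⟩
  set e : (Σ i, KK i) ≃ P := Equiv.ofBijective fw hfwb with he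
  refine ⟨fun p => (ρ (e.symm p).1).comp (τ (e.symm p).1 (e.symm p).2), compEquiv hD e.symm, ?_⟩
  intro q f
  have h1 : e.symm (m1 q) = ⟨true, q⟩ := by
    rw [Equiv.symm_apply_eq]
    rfl
  show ((ρ (e.symm (m1 q)).1).comp (τ (e.symm (m1 q)).1 (e.symm (m1 q)).2)) f = _
  rw [h1]
  rfl

lemma weights (I : Type) [Countable I] [Nonempty I] : ∃ p : I → ℝ, (∀ i, 0 < p i) ∧ HasSum p 1 := by
  obtain ⟨e, he⟩ := Countable.exists_injective_nat I
  have hs : Summable (fun i => ((1 : ℝ) / 2) ^ (e i)) := summable_geometric_two.comp_injective he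
  have hpos : ∀ i, 0 < ((1 : ℝ) / 2) ^ (e i) := fun i => by positivity
  have ht : 0 < ∑' i, ((1 : ℝ) / 2) ^ (e i) :=
    hs.tsum_pos (fun i => (hpos i).le) (Classical.arbitrary I) (hpos _)
  refine ⟨fun i => ((1 : ℝ) / 2) ^ (e i) / ∑' i, ((1 : ℝ) / 2) ^ (e i), fun i => div_pos (hpos i) ht,
    ?_⟩
  have := hs.hasSum.div_const (∑' i, ((1 : ℝ) / 2) ^ (e i))
  rwa [div_self ht.ne'] at this

lemma norm_one_le : ‖one‖ ≤ 1 := by
  unfold one
  refine (Lp.norm_const_le _ _ _).trans ?_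
  simp

end SDensAux

open SDensAux in
theorem sDens (h1 : SQD) (h2 : SA3) (h3 : SW) (h4 : SProd) (h5 : SGS) (h6 : SAct) : SDens := by
  classical
  intro G _ _ hG pos β K F A B B' hA hB hB' hposAB ε hε
  obtain ⟨Γ, hΓ, hKΓ, hU⟩ := hG K
  have fΓ : Fintype Γ := Fintype.ofFinite Γ
  set F' : Finset E := (F ∪ {A, B, B'}) ∪ (K ×ˢ F).image (fun x => β.1 x.1 x.2) with hF'
  have hFF : ∀ f ∈ F, f ∈ F' := fun f hf => by simp [hF', hf]
  have hAF : A ∈ F' := by simp [hF']
  have hBF : B ∈ F' := by simp [hF']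
  have hB'F : B' ∈ F' := by simp [hF']
  have hβF : ∀ g ∈ K, ∀ f ∈ F, β.1 g f ∈ F' := by
    intro g hg f hf
    rw [hF', Finset.mem_union]
    right
    rw [Finset.mem_image]
    exact ⟨(g, f), Finset.mem_product.mpr ⟨hg, hf⟩, rfl⟩
  obtain ⟨S, fS, neS, R0, c, σ, σ', hR0, happ, heq, hσ, hσ'⟩ :=
    h1 pos Γ (β.1.comp Γ.subtype) (fun hp g f hf => β.2 hp g f hf) F' A B B' hAF hBF hB'F hA hB hB'
      hposAB (ε / 8) (by positivity)
  obtain ⟨j, hj, hjg⟩ := hU S
  obtain ⟨P, actP, ι, hPc, hι, ⟨p0, hp0⟩, hjι⟩ := h5 G (Γ × S) j hj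
  obtain ⟨ρ, hρ, hρapp⟩ := h2 F' (ε / 8) (by positivity)
  have neP' : Nonempty {p : P // p ∉ range ι} := ⟨⟨p0, hp0⟩⟩
  obtain ⟨w, hw, hws⟩ := weights {p : P // p ∉ range ι}
  obtain ⟨τ', hτ', -⟩ := h3 {p : P // p ∉ range ι} w hw hws
  have hbij : Function.Bijective (Sum.elim ι (fun p : {p : P // p ∉ range ι} => (p : P))) := by
    constructor
    · rintro (q | p) (q' | p') h
      · rw [hι h]
      · exact absurd ⟨q, h⟩ p'.2
      · exact absurd ⟨q', h.symm⟩ p.2
      · rw [Subtype.ext h]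
    · intro p
      by_cases hp : p ∈ range ι
      · obtain ⟨q, rfl⟩ := hp
        exact ⟨Sum.inl q, rfl⟩
      · exact ⟨Sum.inr ⟨p, hp⟩, rfl⟩
  obtain ⟨R, hR, hRι⟩ := glue h4 (mono hρ pos) hR0 (mono hτ' pos) ι
    (fun p : {p : P // p ∉ range ι} => (p : P)) hbij
  obtain ⟨α, hα, hαpos⟩ := h6 G P pos R hR
  -- the approximations
  set hat : E → E := fun f => ∑ q, c f q • R (ι q) one with hhat
  have hhat1 : ∀ f ∈ F', ‖f - hat f‖ < ε / 4 := by
    intro f hf
    have e1 : hat f = ρ true (∑ q, c f q • R0 q one) := by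
      simp only [hhat, map_sum, map_smul, hRι]
    have e2 : f - hat f = (f - ρ true f) + ρ true (f - ∑ q, c f q • R0 q one) := by
      rw [e1, map_sub]; abel
    rw [e2]
    have e3 := norm_add_le (f - ρ true f) (ρ true (f - ∑ q, c f q • R0 q one))
    rw [(ρ true).norm_map] at e3
    have e4 := hρapp f hf
    have e5 := happ f hf
    linarith
  have hact : ∀ (s : Equiv.Perm (Γ × S)) (f : E),
      α (j s) (hat f) = ∑ q, c f q • R (ι (s q)) one := by
    intro s f
    simp only [hhat, map_sum, map_smul, hα, hjι]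
  have hre : ∀ (s : Equiv.Perm (Γ × S)) (f : E),
      hat f = ∑ q, c f (s q) • R (ι (s q)) one := by
    intro s f
    exact (Equiv.sum_comp s (fun q => c f q • R (ι q) one)).symm
  have hdiff : ∀ (s : Equiv.Perm (Γ × S)) (f f' : E),
      ‖α (j s) (hat f) - hat f'‖ ≤ ∑ q, |c f q - c f' (s q)| := by
    intro s f f'
    rw [hact s f, hre s f', ← Finset.sum_sub_distrib]
    refine (norm_sum_le _ _).trans (Finset.sum_le_sum fun q _ => ?_)
    rw [← sub_smul, norm_smul, (R (ι (s q))).norm_map, Real.norm_eq_abs]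
    calc |c f q - c f' (s q)| * ‖one‖ ≤ |c f q - c f' (s q)| * 1 :=
          mul_le_mul_of_nonneg_left norm_one_le (abs_nonneg _)
      _ = |c f q - c f' (s q)| := mul_one _
  have hfin : ∀ (s : Equiv.Perm (Γ × S)) (f f' : E), f ∈ F' → f' ∈ F' →
      ∑ q, |c f q - c f' (s q)| < ε / 8 → ‖α (j s) f - f'‖ < ε := by
    intro s f f' hf hf' hsum
    have e1 := hhat1 f hf
    have e2 := hhat1 f' hf'
    have e3 := hdiff s f f'
    have e4 : α (j s) f - f' = α (j s) (f - hat f) + ((α (j s) (hat f) - hat f') - (f' - hat f')) := by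
      rw [map_sub]; abel
    rw [e4]
    have e5 := norm_add_le (α (j s) (f - hat f)) ((α (j s) (hat f) - hat f') - (f' - hat f'))
    have e6 := norm_sub_le (α (j s) (hat f) - hat f') (f' - hat f')
    rw [(α (j s)).norm_map] at e5
    linarith
  refine ⟨⟨α, hαpos⟩, ?_, ⟨j σ, hfin σ A B hAF hBF hσ⟩, ⟨j σ', hfin σ' A B' hAF hB'F hσ'⟩⟩
  intro g hg f hf
  have hgΓ : g ∈ Γ := hKΓ g hg
  have e1 := hfin (Equiv.prodCongr (Equiv.mulLeft (⟨g, hgΓ⟩ : Γ)) (Equiv.refl S)) f (β.1 g f)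
    (hFF f hf) (hβF g hg f hf) (by
      have : ∀ q : Γ × S, c f q - c (β.1 g f)
          ((Equiv.prodCongr (Equiv.mulLeft (⟨g, hgΓ⟩ : Γ)) (Equiv.refl S)) q) = 0 := by
        rintro ⟨z, s⟩
        have := heq ⟨g, hgΓ⟩ z s f
        rw [sub_eq_zero]
        exact this.symm
      simp only [this, abs_zero, Finset.sum_const_zero]
      positivity)
  rw [hjg] at e1
  exact e1

end Pool.Agent.R201.RN
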