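import Pool.Agent.R201.RN.Stm

/-! # Extension of maps from a decomposition -/

set_option autoImplicit false

open Set MeasureTheory Filter Topology

namespace Pool.Agent.R201.RN

theorem sExt : SExt := by
  classical
  intro P pos ρ ψ hρ hψ hpos
  let A : (P →₀ E) →ₗ[ℝ] E := Finsupp.lsum ℝ (fun p => (ρ p).toLinearMap)
  let B : (P →₀ E) →ₗ[ℝ] E := Finsupp.lsum ℝ (fun p => (ψ p).toLinearMap)
  have hA1 : ∀ v : P →₀ E, A v = ∑ p ∈ v.support, ρ p (v p) := fun v => rfl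
  have hB1 : ∀ v : P →₀ E, B v = ∑ p ∈ v.support, ψ p (v p) := fun v => rfl
  have hAB : ∀ v, ‖B v‖ = ‖A v‖ := by
    intro v
    rw [hA1, hB1, hρ.ortho v.support (fun p => v p), hψ v.support (fun p => v p)]
  have hAs : ∀ (s : Finset P) (φ : P → E), A (∑ p ∈ s, Finsupp.single p (φ p)) = ∑ p ∈ s, ρ p (φ p) := by
    intro s φ
    rw [map_sum]
    refine Finset.sum_congr rfl fun p _ => ?_
    show Finsupp.lsum ℝ (fun p => (ρ p).toLinearMap) (Finsupp.single p (φ p)) = _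
    rw [Finsupp.lsum_single]
    rfl
  have hBs : ∀ (s : Finset P) (φ : P → E), B (∑ p ∈ s, Finsupp.single p (φ p)) = ∑ p ∈ s, ψ p (φ p) := by
    intro s φ
    rw [map_sum]
    refine Finset.sum_congr rfl fun p _ => ?_
    show Finsupp.lsum ℝ (fun p => (ψ p).toLinearMap) (Finsupp.single p (φ p)) = _
    rw [Finsupp.lsum_single]
    rfl
  have hd : DenseRange A := by
    intro f
    rw [Metric.mem_closure_iff]
    intro ε hε
    obtain ⟨s, φ, h1, _⟩ := hρ.dense f ε hε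
    refine ⟨A (∑ p ∈ s, Finsupp.single p (φ p)), ⟨_, rfl⟩, ?_⟩
    rw [hAs, dist_eq_norm]
    exact h1
  have hn : ∃ C : ℝ, ∀ v, ‖B v‖ ≤ C * ‖A v‖ := ⟨1, fun v => by rw [one_mul]; exact (hAB v).le⟩
  let J := B.extendOfNorm A
  have hJ : ∀ v, J (A v) = B v := fun v => LinearMap.extendOfNorm_eq hd hn v
  have hJn : ∀ x, ‖J x‖ = ‖x‖ := by
    intro x
    refine hd.induction_on x (isClosed_eq (J.continuous.norm) continuous_norm) ?_
    intro v
    rw [hJ, hAB]
  let J' : E →ₗᵢ[ℝ] E := ⟨J.toLinearMap, hJn⟩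
  have hJ' : ∀ x, J' x = J x := fun x => rfl
  refine ⟨J', ?_, ?_⟩
  · intro p f
    have h1 := hAs {p} (fun _ => f)
    have h2 := hBs {p} (fun _ => f)
    rw [Finset.sum_singleton, Finset.sum_singleton] at h1 h2
    rw [hJ', ← h1, hJ, h2]
  · intro hp f hf
    have hcl : IsClosed {g : E | 0 ≤ g} := isClosed_Ici
    have hmem : J' f ∈ closure {g : E | 0 ≤ g} := by
      rw [Metric.mem_closure_iff]
      intro ε hε
      obtain ⟨s, φ, h1, h2⟩ := hρ.dense f ε hε
      refine ⟨∑ p ∈ s, ψ p (φ p), ?_, ?_⟩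
      · exact Finset.sum_nonneg fun p _ => hpos hp p _ (h2 hp hf p)
      · rw [← hBs, ← hJ, hAs, ← hJ', dist_eq_norm, ← map_sub, LinearIsometry.norm_map]
        exact h1
    rw [hcl.closure_eq] at hmem
    exact hmem

end Pool.Agent.R201.RN
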