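import Pool.Agent.R201.RN.Stm

/-! # Induced sets (piece SGS) -/

set_option autoImplicit false

namespace Pool.Agent.R201.RN

namespace SGSP

open Equiv

/-- the stabiliser of a point, mapped into `G` -/
def H0 {G Q : Type} [Group G] (j : Equiv.Perm Q →* G) (q0 : Q) : Subgroup G :=
  (MulAction.stabilizer (Equiv.Perm Q) q0).map j

theorem mem_H0 {G Q : Type} [Group G] (j : Equiv.Perm Q →* G) (hj : Function.Injective j)
    (q0 : Q) (τ : Equiv.Perm Q) : j τ ∈ H0 j q0 ↔ τ q0 = q0 := by
  unfold H0
  rw [Subgroup.mem_map]
  constructor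
  · rintro ⟨τ', h1, h2⟩
    rw [← hj h2]
    exact MulAction.mem_stabilizer_iff.1 h1
  · intro h
    exact ⟨τ, MulAction.mem_stabilizer_iff.2 h, rfl⟩

end SGSP

open SGSP in
theorem sGS : SGS := by
  classical
  intro G _ _ Q _ _ j hj
  obtain ⟨q0⟩ := (inferInstance : Nonempty Q)
  refine ⟨Option (G ⧸ H0 j q0), ?_, ?_⟩
  · exact
      { smul := fun g p => p.map (fun x => g • x)
        one_smul := by
          intro p
          show Option.map (fun x => (1 : G) • x) p = p
          cases p <;> simp
        mul_smul := by
          intro g h p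
          show Option.map (fun x => (g * h) • x) p =
            Option.map (fun x => g • x) (Option.map (fun x => h • x) p)
          cases p <;> simp [mul_smul] }
  · refine ⟨fun q => some (QuotientGroup.mk (j (Equiv.swap q0 q))), ?_, ?_, ?_, ?_⟩
    · have : Countable (G ⧸ H0 j q0) := Quotient.countable
      infer_instance
    · intro q q' hqq
      simp only [Option.some.injEq] at hqq
      rw [QuotientGroup.eq, ← map_inv, ← map_mul, mem_H0 j hj] at hqq
      simp only [Equiv.Perm.mul_apply, Equiv.swap_apply_left, Equiv.Perm.inv_eq_iff_eq] at hqq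
      rw [hqq]
    · refine ⟨none, ?_⟩
      rintro ⟨q, hq⟩
      cases hq
    · intro σ q
      show some (QuotientGroup.mk (j σ * j (Equiv.swap q0 q))) =
        some (QuotientGroup.mk (j (Equiv.swap q0 (σ q))))
      congr 1
      rw [QuotientGroup.eq, ← map_mul, ← map_inv, ← map_mul, mem_H0 j hj]
      simp only [Equiv.Perm.mul_apply, Equiv.swap_apply_left, Equiv.Perm.inv_eq_iff_eq]

end Pool.Agent.R201.RN
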