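import Pool.Agent.R201.RN.Stm

/-! # Project RN: a countable group with `PropU` (piece `SHall`) -/

set_option autoImplicit false

namespace Pool.Agent.R201.RN

namespace SHallAux

/-- the finite sets of the tower -/
def Om : ℕ → Type
  | 0 => Unit
  | (k + 1) => Equiv.Perm (Om k) × Fin (k + 1)

instance finite_Om : ∀ k, Finite (Om k)
  | 0 => by
    show Finite Unit
    infer_instance
  | (k + 1) => by
    have := finite_Om k
    show Finite (Equiv.Perm (Om k) × Fin (k + 1))
    infer_instance

/-- the groups of the tower -/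
abbrev G (k : ℕ) : Type := Equiv.Perm (Om k)

/-- the embeddings of the tower -/
def e (k : ℕ) : G k →* G (k + 1) where
  toFun σ := (Equiv.prodCongr (Equiv.mulLeft σ) (Equiv.refl (Fin (k + 1))) :
    Equiv.Perm (Equiv.Perm (Om k) × Fin (k + 1)))
  map_one' := by
    apply Equiv.ext
    rintro ⟨a, b⟩
    show (1 * a, b) = (a, b)
    rw [one_mul]
  map_mul' x y := by
    apply Equiv.ext
    rintro ⟨a, b⟩
    show (x * y * a, b) = (x * (y * a), b)
    rw [mul_assoc]

theorem e_apply (k : ℕ) (σ : G k) (a : Equiv.Perm (Om k)) (b : Fin (k + 1)) :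
    (e k σ : Equiv.Perm (Om (k + 1))) ((a, b) : Equiv.Perm (Om k) × Fin (k + 1)) = (σ * a, b) := rfl

theorem e_injective (k : ℕ) : Function.Injective (e k) := by
  intro x y h
  have h1 := e_apply k x 1 0
  rw [h, e_apply] at h1
  have h2 : (y * 1 : G k) = x * 1 := congrArg Prod.fst h1
  rw [mul_one, mul_one] at h2
  exact h2.symm

/-- the transition maps -/
def f (i j : ℕ) (h : i ≤ j) : G i →* G j :=
  Nat.leRecOn (C := fun k => G i →* G k) h (fun {k} φ => (e k).comp φ) (MonoidHom.id _)

theorem f_self (i : ℕ) : f i i le_rfl = MonoidHom.id _ :=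
  Nat.leRecOn_self (C := fun k => G i →* G k) _

theorem f_succ (i j : ℕ) (h : i ≤ j) (h' : i ≤ j + 1) : f i (j + 1) h' = (e j).comp (f i j h) :=
  Nat.leRecOn_succ (C := fun k => G i →* G k) h _

theorem f_comp (i j k : ℕ) (hij : i ≤ j) (hjk : j ≤ k) :
    (f j k hjk).comp (f i j hij) = f i k (hij.trans hjk) := by
  induction k, hjk using Nat.le_induction with
  | base => rw [f_self]; rfl
  | succ k hk ih => rw [f_succ j k hk, f_succ i k (hij.trans hk), MonoidHom.comp_assoc, ih]

theorem f_injective (i j : ℕ) (h : i ≤ j) : Function.Injective (f i j h) := by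
  induction j, h using Nat.le_induction with
  | base => rw [f_self]; exact fun _ _ h => h
  | succ k hk ih =>
    rw [f_succ i k hk]
    exact (e_injective k).comp ih

instance dirSys : DirectedSystem G (fun i j h => f i j h) where
  map_self i x := by rw [f_self]; rfl
  map_map k j i hij hjk x := by
    rw [← f_comp _ _ _ hij hjk]; rfl

/-- the limit group -/
abbrev L : Type := DirectLimit G f

/-- the canonical maps -/
def io (k : ℕ) : G k →* L where
  toFun x := (⟦⟨k, x⟩⟧ : DirectLimit G f)
  map_one' := (DirectLimit.one_def (G := G) (f := f) k).symm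
  map_mul' x y := (DirectLimit.mul_def (G := G) (f := f) k x y).symm

theorem io_injective (k : ℕ) : Function.Injective (io k) :=
  DirectLimit.mk_injective f f_injective k

theorem io_f (i j : ℕ) (h : i ≤ j) (x : G i) : io j (f i j h x) = io i x :=
  DirectLimit.mk_apply (f := f) i j x h

theorem io_e (k : ℕ) (x : G k) : io (k + 1) (e k x) = io k x := by
  rw [← io_f k (k + 1) (Nat.le_succ k), f_succ k k le_rfl, f_self]
  rfl

theorem io_surj (x : L) : ∃ k y, io k y = x := by
  obtain ⟨i, y, h⟩ := DirectLimit.exists_eq_mk f x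
  exact ⟨i, y, h.symm⟩

theorem finset_io (K : Finset L) : ∃ k, ∀ g ∈ K, g ∈ (io k).range := by
  classical
  induction K using Finset.induction_on with
  | empty => exact ⟨0, fun g hg => absurd hg (Finset.notMem_empty g)⟩
  | insert a s ha ih =>
    obtain ⟨k, hk⟩ := ih
    obtain ⟨l, y, hy⟩ := io_surj a
    refine ⟨max k l, ?_⟩
    intro g hg
    rcases Finset.mem_insert.1 hg with rfl | hg
    · exact ⟨f l (max k l) (le_max_right _ _) y, by rw [io_f, hy]⟩
    · obtain ⟨z, hz⟩ := hk g hg
      exact ⟨f k (max k l) (le_max_left _ _) z, by rw [io_f, hz]⟩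

/-- a group is a product of a subgroup and a set, compatibly with left multiplication -/
theorem exists_split {A B : Type} [Group A] [Group B] (φ : A →* B) (hφ : Function.Injective φ) :
    ∃ (R : Type) (E : A × R ≃ B), (Finite B → Finite R) ∧ Nonempty R ∧
      ∀ a a' r, E (a * a', r) = φ a * E (a', r) := by
  classical
  let H := φ.range
  let F : A × (B ⧸ H) → B := fun x => φ x.1 * (x.2.out)⁻¹
  have hF : Function.Bijective F := by
    constructor
    · rintro ⟨a, q⟩ ⟨a', q'⟩ h
      simp only [F] at h
      have h1 : (q.out)⁻¹ = (φ a)⁻¹ * φ a' * (q'.out)⁻¹ := by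
        rw [mul_assoc, ← h]; group
      have h2 : q.out = q'.out * ((φ a')⁻¹ * φ a) := by
        have := congrArg (fun x => x⁻¹) h1
        simp only [inv_inv, mul_inv_rev] at this
        rw [this]
      have h3 : q = q' := by
        have h4 : (QuotientGroup.mk q.out : B ⧸ H) = QuotientGroup.mk q'.out := by
          rw [h2]
          apply QuotientGroup.mk_mul_of_mem
          exact ⟨a'⁻¹ * a, by rw [map_mul, map_inv]⟩
        rw [QuotientGroup.out_eq', QuotientGroup.out_eq'] at h4
        exact h4
      subst h3
      have h5 : φ a = φ a' := mul_right_cancel h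
      rw [hφ h5]
    · intro b
      obtain ⟨h, hh⟩ := QuotientGroup.mk_out_eq_mul H b⁻¹
      obtain ⟨a, ha⟩ := h.2
      refine ⟨(a, QuotientGroup.mk b⁻¹), ?_⟩
      simp only [F]
      rw [hh, ha]
      group
  refine ⟨B ⧸ H, Equiv.ofBijective F hF, ?_, ⟨QuotientGroup.mk 1⟩, ?_⟩
  · intro _
    infer_instance
  · intro a a' r
    show φ (a * a') * (r.out)⁻¹ = φ a * (φ a' * (r.out)⁻¹)
    rw [map_mul, mul_assoc]

end SHallAux

open SHallAux in
theorem sHall : SHall := by
  classical
  refine ⟨L, inferInstance, ?_, ?_⟩
  · have : Function.Surjective (fun x : (Σ k, G k) => io x.1 x.2) := by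
      intro x
      obtain ⟨k, y, h⟩ := io_surj x
      exact ⟨⟨k, y⟩, h⟩
    exact this.countable
  · intro K
    obtain ⟨k, hk⟩ := finset_io K
    refine ⟨(io k).range, ?_, hk, ?_⟩
    · exact Finite.of_surjective (io k).rangeRestrict (io k).rangeRestrict_surjective
    · intro S _ _
      have := Fintype.ofFinite S
      obtain ⟨s, hs⟩ : ∃ s, Fintype.card S = s + 1 :=
        ⟨Fintype.card S - 1, by have := Fintype.card_pos (α := S); omega⟩
      -- the level
      obtain ⟨M, hM⟩ : ∃ M, M + 1 = (s + 1) * (k + 1) :=
        ⟨(s + 1) * (k + 1) - 1, by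
          have : 0 < (s + 1) * (k + 1) := by positivity
          omega⟩
      have hkM : k ≤ M := by nlinarith
      let ψ : G k ≃* (io k).range := MonoidHom.ofInjective (io_injective k)
      obtain ⟨R, E, hfin, hne, hE⟩ := exists_split (f k M hkM) (f_injective k M hkM)
      have eF : S × Fin (k + 1) ≃ Fin (M + 1) := by
        apply Fintype.equivOfCardEq
        rw [Fintype.card_prod, Fintype.card_fin, Fintype.card_fin, hs, hM]
      let D : ((io k).range × S) × (R × Fin (k + 1)) ≃ Om (M + 1) :=
        { toFun := fun x => (E (ψ.symm x.1.1, x.2.1), eF (x.1.2, x.2.2))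
          invFun := fun y => ((ψ (E.symm y.1).1, (eF.symm y.2).1), ((E.symm y.1).2, (eF.symm y.2).2))
          left_inv := by
            rintro ⟨⟨a, b⟩, ⟨c, d⟩⟩
            simp
          right_inv := by
            rintro ⟨a, b⟩
            simp }
      let J : Equiv.Perm ((io k).range × S) →* G (M + 1) :=
        { toFun := fun σ => (D.symm.trans (Equiv.prodCongr σ (Equiv.refl (R × Fin (k + 1))))).trans D
          map_one' := by
            apply Equiv.ext
            intro x
            show D ((Equiv.prodCongr 1 (Equiv.refl (R × Fin (k + 1)))) (D.symm x)) = x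
            have : (Equiv.prodCongr (1 : Equiv.Perm ((io k).range × S))
              (Equiv.refl (R × Fin (k + 1)))) (D.symm x) = D.symm x := rfl
            rw [this, Equiv.apply_symm_apply]
          map_mul' := by
            intro σ τ
            apply Equiv.ext
            intro x
            show D ((Equiv.prodCongr (σ * τ) (Equiv.refl (R × Fin (k + 1)))) (D.symm x)) =
              D ((Equiv.prodCongr σ (Equiv.refl (R × Fin (k + 1)))) (D.symm
                (D ((Equiv.prodCongr τ (Equiv.refl (R × Fin (k + 1)))) (D.symm x)))))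
            rw [Equiv.symm_apply_apply]
            rfl }
      have hJ : ∀ σ x, J σ (D x) = D (σ x.1, x.2) := by
        intro σ x
        show D ((Equiv.prodCongr σ (Equiv.refl (R × Fin (k + 1)))) (D.symm (D x))) = _
        rw [Equiv.symm_apply_apply]
        rfl
      refine ⟨(io (M + 1)).comp J, ?_, ?_⟩
      · refine (io_injective (M + 1)).comp ?_
        intro σ τ h
        apply Equiv.ext
        intro x
        obtain ⟨r⟩ := hne
        have h1 := hJ σ (x, (r, 0))
        rw [h, hJ τ] at h1
        have h2 := D.injective h1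
        exact (congrArg Prod.fst h2).symm
      · rintro ⟨g, x, rfl⟩
        have fin : ∀ z : G (M + 1), z = e M (f k M hkM x) → io (M + 1) z = io k x := by
          intro z hz
          rw [hz, io_e, io_f]
        apply fin
        apply Equiv.ext
        intro y
        obtain ⟨⟨⟨a, b⟩, ⟨c, d⟩⟩, rfl⟩ := D.surjective y
        rw [hJ]
        show ((E (ψ.symm ((⟨io k x, ⟨x, rfl⟩⟩ : (io k).range) * a), c), eF (b, d)) :
          G M × Fin (M + 1)) = (f k M hkM x * E (ψ.symm a, c), eF (b, d))
        rw [map_mul, hE]
        have : ψ.symm (⟨io k x, ⟨x, rfl⟩⟩ : (io k).range) = x := by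
          rw [MulEquiv.symm_apply_eq]
          rfl
        rw [this]

end Pool.Agent.R201.RN
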