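import Pool.Agent.R201.RN.Stm

/-! # Products of decompositions -/

set_option autoImplicit false

open Set MeasureTheory Filter Topology

namespace Pool.Agent.R201.RN

namespace SProdX

lemma as_sigma {I : Type} {K : I → Type} (s : Finset (Σ i, K i)) :
    ∃ (t : Finset I) (u : (i : I) → Finset (K i)), s = t.sigma u := by
  classical
  refine ⟨s.image Sigma.fst, fun i => s.preimage (Sigma.mk i) (sigma_mk_injective.injOn), ?_⟩
  ext ⟨i, k⟩
  simp only [Finset.mem_sigma, Finset.mem_image, Finset.mem_preimage]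
  constructor
  · intro h
    exact ⟨⟨⟨i, k⟩, h, rfl⟩, h⟩
  · intro h
    exact h.2

end SProdX

theorem sProd : SProd := by
  classical
  intro I K pos ρ τ hρ hτ
  refine ⟨?_, ?_, ?_⟩
  · intro s φ
    obtain ⟨t, u, rfl⟩ := SProdX.as_sigma s
    rw [Finset.sum_sigma, Finset.sum_sigma]
    have h1 : ∀ i ∈ t, (∑ k ∈ u i, ((ρ i).comp (τ i k)) (φ ⟨i, k⟩))
        = ρ i (∑ k ∈ u i, τ i k (φ ⟨i, k⟩)) := by
      intro i _
      rw [map_sum]
      rfl
    have h2 : (∑ i ∈ t, ∑ k ∈ u i, ((ρ i).comp (τ i k)) (φ ⟨i, k⟩))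
        = ∑ i ∈ t, ρ i (∑ k ∈ u i, τ i k (φ ⟨i, k⟩)) := Finset.sum_congr rfl h1
    refine (congrArg norm h2).trans ?_
    rw [hρ.ortho t (fun i => ∑ k ∈ u i, τ i k (φ ⟨i, k⟩))]
    exact Finset.sum_congr rfl fun i _ => (hτ i).ortho (u i) (fun k => φ ⟨i, k⟩)
  · intro hp x f hf
    exact hρ.posi hp x.1 _ ((hτ x.1).posi hp x.2 f hf)
  · intro f ε hε
    obtain ⟨s, φ, h1, h2⟩ := hρ.dense f (ε / 2) (half_pos hε)
    have hδ : 0 < ε / (2 * ((s.card : ℝ) + 1)) := by positivity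
    choose u ψ h3 h4 using fun i => (hτ i).dense (φ i) (ε / (2 * ((s.card : ℝ) + 1))) hδ
    refine ⟨s.sigma u, fun x => ψ x.1 x.2, ?_, ?_⟩
    · rw [Finset.sum_sigma]
      have h5 : (∑ i ∈ s, ∑ k ∈ u i, ((ρ i).comp (τ i k)) (ψ i k))
          = ∑ i ∈ s, ρ i (∑ k ∈ u i, τ i k (ψ i k)) := by
        refine Finset.sum_congr rfl fun i _ => ?_
        rw [map_sum]
        rfl
      have h6 : ‖f - ∑ i ∈ s, ρ i (∑ k ∈ u i, τ i k (ψ i k))‖ < ε := by
        have h7 : f - ∑ i ∈ s, ρ i (∑ k ∈ u i, τ i k (ψ i k))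
            = (f - ∑ i ∈ s, ρ i (φ i)) + ∑ i ∈ s, ρ i (φ i - ∑ k ∈ u i, τ i k (ψ i k)) := by
          have h8 : ∑ i ∈ s, ρ i (φ i - ∑ k ∈ u i, τ i k (ψ i k))
              = ∑ i ∈ s, ρ i (φ i) - ∑ i ∈ s, ρ i (∑ k ∈ u i, τ i k (ψ i k)) := by
            rw [← Finset.sum_sub_distrib]
            exact Finset.sum_congr rfl fun i _ => map_sub _ _ _
          rw [h8]
          abel
        rw [h7]
        have h9 : ‖∑ i ∈ s, ρ i (φ i - ∑ k ∈ u i, τ i k (ψ i k))‖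
            ≤ s.card * (ε / (2 * ((s.card : ℝ) + 1))) := by
          rw [hρ.ortho s (fun i => φ i - ∑ k ∈ u i, τ i k (ψ i k))]
          calc ∑ i ∈ s, ‖φ i - ∑ k ∈ u i, τ i k (ψ i k)‖
              ≤ ∑ i ∈ s, ε / (2 * ((s.card : ℝ) + 1)) := Finset.sum_le_sum fun i _ => (h3 i).le
            _ = s.card * (ε / (2 * ((s.card : ℝ) + 1))) := by rw [Finset.sum_const, nsmul_eq_mul]
        have h10 : (s.card : ℝ) * (ε / (2 * ((s.card : ℝ) + 1))) ≤ ε / 2 := by
          have h11 : (0 : ℝ) ≤ s.card := Nat.cast_nonneg _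
          have h12 : (0 : ℝ) < (s.card : ℝ) + 1 := by linarith
          rw [show (s.card : ℝ) * (ε / (2 * ((s.card : ℝ) + 1))) = (s.card / (s.card + 1)) * (ε / 2) by
            field_simp]
          have h13 : (s.card : ℝ) / (s.card + 1) ≤ 1 := by
            rw [div_le_one h12]; linarith
          nlinarith
        calc _ ≤ ‖f - ∑ i ∈ s, ρ i (φ i)‖ + ‖∑ i ∈ s, ρ i (φ i - ∑ k ∈ u i, τ i k (ψ i k))‖ :=
              norm_add_le _ _
          _ < ε / 2 + ε / 2 := add_lt_add_of_lt_of_le h1 (h9.trans h10)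
          _ = ε := by ring
      refine lt_of_le_of_lt (le_of_eq ?_) h6
      exact congrArg (fun z => ‖f - z‖) h5
    · intro hp hf x
      exact h4 x.1 hp (h2 hp hf x.1) x.2

end Pool.Agent.R201.RN
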