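import Pool.Agent.R201.RN.Stm

/-! # RN-11: finite models of actions of a finite group -/

set_option autoImplicit false

open Set MeasureTheory Filter Topology

namespace Pool.Agent.R201.RN

namespace SQDP

theorem smul_nonneg' (c : ℝ) (hc : 0 ≤ c) (f : E) (hf : 0 ≤ f) : 0 ≤ c • f := by
  rw [← Lp.coeFn_nonneg] at hf ⊢
  filter_upwards [hf, Lp.coeFn_smul c f] with x hx h2
  rw [h2, Pi.smul_apply, smul_eq_mul]
  exact mul_nonneg hc hx

theorem norm_one' : ‖one‖ = 1 := by
  unfold one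
  rw [Lp.norm_const' _ _ _ one_ne_zero ENNReal.one_ne_top]
  simp [Measure.real]

theorem IsDec.ofTrue {P : Type} {ρ : P → E →ₗᵢ[ℝ] E} (h : IsDec True ρ) (pos : Prop) :
    IsDec pos ρ where
  ortho := h.ortho
  posi := fun _ => h.posi trivial
  dense := by
    intro f ε hε
    obtain ⟨s, φ, h1, h2⟩ := h.dense f ε hε
    exact ⟨s, φ, h1, fun _ => h2 trivial⟩

theorem IsDec.twist {pos : Prop} {P : Type} {ρ : P → E →ₗᵢ[ℝ] E} (h : IsDec pos ρ)
    (u : P → E ≃ₗᵢ[ℝ] E)
    (hu : pos → ∀ (p : P) (f : E), 0 ≤ f → 0 ≤ u p f ∧ 0 ≤ (u p).symm f) :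
    IsDec pos (fun p => (ρ p).comp (u p).toLinearIsometry) where
  ortho := by
    intro s φ
    have := h.ortho s (fun p => u p (φ p))
    simpa using this
  posi := by
    intro hp p f hf
    exact h.posi hp p _ (hu hp p f hf).1
  dense := by
    intro f ε hε
    obtain ⟨s, φ, h1, h2⟩ := h.dense f ε hε
    refine ⟨s, fun p => (u p).symm (φ p), ?_, ?_⟩
    · simpa using h1
    · intro hp hf p
      exact (hu hp p _ (h2 hp hf p)).2

theorem IsDec.reindex {pos : Prop} {P P' : Type} {ρ : P → E →ₗᵢ[ℝ] E} (h : IsDec pos ρ)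
    (e : P' ≃ P) : IsDec pos (fun p => ρ (e p)) where
  ortho := by
    intro s φ
    have := h.ortho (s.map e.toEmbedding) (fun p => φ (e.symm p))
    simpa using this
  posi := by
    intro hp p f hf
    exact h.posi hp (e p) f hf
  dense := by
    intro f ε hε
    obtain ⟨s, φ, h1, h2⟩ := h.dense f ε hε
    refine ⟨s.map e.symm.toEmbedding, fun p => φ (e p), ?_, ?_⟩
    · simpa using h1
    · intro hp hf p
      exact h2 hp hf (e p)

open Classical in
/-- The isometry given by a sign. -/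
noncomputable def sgi (a : ℝ) : E ≃ₗᵢ[ℝ] E :=
  if a = 1 then LinearIsometryEquiv.refl ℝ E else LinearIsometryEquiv.neg ℝ

theorem sgi_apply (a : ℝ) (ha : a = 1 ∨ a = -1) (f : E) : sgi a f = a • f := by
  unfold sgi
  rcases ha with rfl | rfl
  · simp
  · rw [if_neg (by norm_num)]
    simp

theorem sgi_one : sgi 1 = LinearIsometryEquiv.refl ℝ E := by
  unfold sgi
  simp

end SQDP

open SQDP in
/-- RN-11. -/
theorem sQD (h1 : SA1) (h2 : SA2) (h3 : SW) (h4 : SProd) (h5 : STel) : SQD := by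
  intro pos Γ _ _ β hβ F A B B' hA hB hB' nA nB nB' hAB ε hε
  classical
  have hN : (0 : ℝ) < (Fintype.card Γ : ℝ) := by
    have : 0 < Fintype.card Γ := Fintype.card_pos
    exact_mod_cast this
  set N : ℝ := (Fintype.card Γ : ℝ) with hNd
  obtain ⟨e, he0, he1, he2⟩ : ∃ e : ℝ, 0 < e ∧ e < 1 ∧ e ≤ ε / 8 := by
    refine ⟨min ε 1 / 8, by positivity, ?_, ?_⟩
    · have := min_le_right ε 1
      linarith
    · have := min_le_left ε 1
      linarith
  obtain ⟨J, hJ, hJF⟩ := h2 Γ F (e / 2) (by positivity)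
  obtain ⟨m, ρ, C, hρ, hC⟩ := h1
    (((Finset.univ : Finset Γ) ×ˢ F).image (fun x => (1 / N) • β x.1⁻¹ x.2))
    (e / (2 * N)) (by positivity)
  have hC1 : ∀ (z : Γ) (f : E), f ∈ F →
      ‖(1 / N) • β z⁻¹ f - ∑ i, C ((1 / N) • β z⁻¹ f) i • ρ i one‖ < e / (2 * N) := by
    intro z f hf
    exact (hC _ (Finset.mem_image.mpr ⟨(z, f), by simp [hf], rfl⟩)).1
  have hC2 : ∀ (z : Γ) (f : E), f ∈ F → 0 ≤ (1 / N) • β z⁻¹ f →
      ∀ i, 0 ≤ C ((1 / N) • β z⁻¹ f) i := by
    intro z f hf
    exact (hC _ (Finset.mem_image.mpr ⟨(z, f), by simp [hf], rfl⟩)).2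
  set c0 : E → Γ × Fin m → ℝ := fun f x => C ((1 / N) • β x.1⁻¹ f) x.2 with hc0
  set f0 : E → E := fun f => ∑ z, J z (β z (∑ i, c0 f (z, i) • ρ i one)) with hf0
  have herr : ∀ f ∈ F, ‖f - f0 f‖ < e := by
    intro f hf
    have hsplit : f - f0 f = (f - ∑ z, J z ((1 / N) • f)) +
        ∑ z, J z (β z ((1 / N) • β z⁻¹ f - ∑ i, c0 f (z, i) • ρ i one)) := by
      have hz : ∀ z : Γ, J z (β z ((1 / N) • β z⁻¹ f - ∑ i, c0 f (z, i) • ρ i one)) =
          J z ((1 / N) • f) - J z (β z (∑ i, c0 f (z, i) • ρ i one)) := by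
        intro z
        have hb : β z (β z⁻¹ f) = f := by
          have : (β z * β z⁻¹) f = f := by rw [← map_mul, mul_inv_cancel, map_one]; rfl
          exact this
        rw [map_sub, map_sub, map_smul, hb]
      rw [Finset.sum_congr rfl (fun z _ => hz z), Finset.sum_sub_distrib]
      rw [hf0]
      abel
    rw [hsplit]
    have hb1 := hJF f hf
    have hb2 : ‖∑ z, J z (β z ((1 / N) • β z⁻¹ f - ∑ i, c0 f (z, i) • ρ i one))‖ ≤ e / 2 := by
      calc ‖∑ z, J z (β z ((1 / N) • β z⁻¹ f - ∑ i, c0 f (z, i) • ρ i one))‖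
          ≤ ∑ z, ‖J z (β z ((1 / N) • β z⁻¹ f - ∑ i, c0 f (z, i) • ρ i one))‖ :=
            norm_sum_le _ _
        _ ≤ ∑ _z : Γ, e / (2 * N) := by
            apply Finset.sum_le_sum
            intro z _
            rw [LinearIsometry.norm_map, LinearIsometryEquiv.norm_map]
            exact (hC1 z f hf).le
        _ = e / 2 := by
            rw [Finset.sum_const, Finset.card_univ, nsmul_eq_mul, ← hNd]
            field_simp
    calc _ ≤ ‖f - ∑ z, J z ((1 / N) • f)‖ +
          ‖∑ z, J z (β z ((1 / N) • β z⁻¹ f - ∑ i, c0 f (z, i) • ρ i one))‖ := norm_add_le _ _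
      _ < e := by linarith
  have hnorm : ∀ f, ‖f0 f‖ = ∑ x, |c0 f x| := by
    intro f
    have hj := hJ.ortho Finset.univ (fun z => β z (∑ i, c0 f (z, i) • ρ i one))
    rw [hf0]
    simp only
    rw [hj, Fintype.sum_prod_type]
    apply Finset.sum_congr rfl
    intro z _
    rw [LinearIsometryEquiv.norm_map]
    have hr := hρ.ortho Finset.univ (fun i => c0 f (z, i) • one)
    have hs : ∑ i, c0 f (z, i) • ρ i one = ∑ i, ρ i (c0 f (z, i) • one) :=
      Finset.sum_congr rfl (fun i _ => (map_smul (ρ i) _ _).symm)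
    rw [hs, hr]
    apply Finset.sum_congr rfl
    intro i _
    rw [norm_smul, norm_one', mul_one, Real.norm_eq_abs]
  have hone : ∀ f ∈ F, ‖f‖ = 1 → |∑ x, |c0 f x| - 1| ≤ e := by
    intro f hf hf1
    rw [← hnorm f]
    have h6 := abs_norm_sub_norm_le (f0 f) f
    rw [hf1, norm_sub_rev] at h6
    exact h6.trans (herr f hf).le
  have heq : ∀ (g z : Γ) (i : Fin m) (f : E), c0 (β g f) (g * z, i) = c0 f (z, i) := by
    intro g z i f
    have hb : β (g * z)⁻¹ (β g f) = β z⁻¹ f := by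
      have : (β (g * z)⁻¹ * β g) f = β z⁻¹ f := by rw [← map_mul]; simp
      exact this
    simp only [hc0]
    rw [hb]
  obtain ⟨S', hS1, hS2, w, sg, σ, σ', hw, hw1, hsg, hsgp, hσ, hσ'⟩ :=
    h5 (Γ × Fin m) (c0 A) (c0 B) (c0 B') e (hone A hA nA) (hone B hB nB) (hone B' hB' nB') he1
      (ε / 4) (by positivity)
  have hpc : pos → ∀ s, sg s = 1 := by
    intro hp
    apply hsgp
    obtain ⟨pA, pB, pB'⟩ := hAB hp
    intro x
    have hh : ∀ f ∈ F, 0 ≤ f → 0 ≤ c0 f x := by
      intro f hf hf0'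
      apply hC2 x.1 f hf
      exact smul_nonneg' _ (by positivity) _ (hβ hp _ _ hf0')
    exact ⟨hh A hA pA, hh B hB pB, hh B' hB' pB'⟩
  obtain ⟨τ, hτ, hτ1⟩ := h3 S' w hw (by rw [← hw1]; exact hasSum_fintype w)
  have hτ2 : ∑ s, w s • τ s one = one := (hasSum_fintype _).unique hτ1
  have hm : Nonempty (Fin m) := by
    by_contra hcon
    rw [not_nonempty_iff] at hcon
    have := hone A hA nA
    simp at this
    linarith
  -- the decomposition
  have hJd : IsDec pos (fun z => (J z).comp (β z).toLinearIsometry) := by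
    apply IsDec.twist (IsDec.ofTrue hJ pos)
    intro hp z f hf
    refine ⟨hβ hp z f hf, ?_⟩
    have : (β z).symm f = β z⁻¹ f := by
      rw [map_inv]; rfl
    rw [this]
    exact hβ hp _ f hf
  have hτd : IsDec pos (fun s => (τ s).comp (sgi (sg s)).toLinearIsometry) := by
    apply IsDec.twist (IsDec.ofTrue hτ pos)
    intro hp s f hf
    rw [hpc hp s, sgi_one]
    exact ⟨hf, hf⟩
  have hD1 := h4 Γ (fun _ => Fin m) pos _ (fun _ i => ρ i) hJd (fun _ => IsDec.ofTrue hρ pos)
  have hD2 := h4 (Σ _ : Γ, Fin m) (fun _ => S') pos _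
    (fun _ s => (τ s).comp (sgi (sg s)).toLinearIsometry) hD1 (fun _ => hτd)
  let en : Γ × (Fin m × S') ≃ (Σ _ : (Σ _ : Γ, Fin m), S') :=
    { toFun := fun q => ⟨⟨q.1, q.2.1⟩, q.2.2⟩
      invFun := fun q => (q.1.1, (q.1.2, q.2))
      left_inv := fun _ => rfl
      right_inv := fun _ => rfl }
  have hD3 := IsDec.reindex hD2 en
  let ea : (Γ × Fin m) × S' ≃ Γ × (Fin m × S') := Equiv.prodAssoc Γ (Fin m) S'
  refine ⟨Fin m × S', inferInstance, inferInstance, _,
    fun f q => c0 f (q.1, q.2.1) * (sg q.2.2 * w q.2.2),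
    (ea.symm.trans σ).trans ea, (ea.symm.trans σ').trans ea, hD3, ?_, ?_, ?_, ?_⟩
  · intro f hf
    have hsum : ∑ q : Γ × (Fin m × S'), (c0 f (q.1, q.2.1) * (sg q.2.2 * w q.2.2)) •
        ((((J (en q).1.1).comp (β (en q).1.1).toLinearIsometry).comp (ρ (en q).1.2)).comp
          ((τ (en q).2).comp (sgi (sg (en q).2)).toLinearIsometry)) one = f0 f := by
      rw [Fintype.sum_prod_type]
      rw [hf0]
      apply Finset.sum_congr rfl
      intro z _
      rw [Fintype.sum_prod_type, map_sum, map_sum]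
      apply Finset.sum_congr rfl
      intro i _
      have hs : ∀ s : S', (c0 f (z, i) * (sg s * w s)) •
          ((((J z).comp (β z).toLinearIsometry).comp (ρ i)).comp
          ((τ s).comp (sgi (sg s)).toLinearIsometry)) one =
          c0 f (z, i) • J z (β z (ρ i (w s • τ s one))) := by
        intro s
        have h1 : ((((J z).comp (β z).toLinearIsometry).comp (ρ i)).comp
          ((τ s).comp (sgi (sg s)).toLinearIsometry)) one =
            J z (β z (ρ i (τ s (sgi (sg s) one)))) := rfl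
        rw [h1, sgi_apply _ (hsg s)]
        simp only [map_smul, smul_smul]
        congr 1
        rcases hsg s with h | h <;> rw [h] <;> ring
      show ∑ s : S', (c0 f (z, i) * (sg s * w s)) •
          ((((J z).comp (β z).toLinearIsometry).comp (ρ i)).comp
          ((τ s).comp (sgi (sg s)).toLinearIsometry)) one = _
      rw [Finset.sum_congr rfl (fun s _ => hs s), ← Finset.smul_sum]
      rw [← map_sum (J z), ← map_sum (β z), ← map_sum (ρ i), hτ2]
      rw [map_smul, map_smul]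
    rw [hsum]
    calc ‖f - f0 f‖ < e := herr f hf
      _ ≤ ε := by linarith
  · intro g z s f
    simp only
    rw [heq]
  · have hh : ∑ q : Γ × (Fin m × S'), |c0 A (q.1, q.2.1) * (sg q.2.2 * w q.2.2) -
        c0 B ((((ea.symm.trans σ).trans ea) q).1, (((ea.symm.trans σ).trans ea) q).2.1) *
          (sg (((ea.symm.trans σ).trans ea) q).2.2 *
            w (((ea.symm.trans σ).trans ea) q).2.2)| =
        ∑ q : (Γ × Fin m) × S', |c0 A q.1 * (sg q.2 * w q.2) -
          c0 B (σ q).1 * (sg (σ q).2 * w (σ q).2)| := by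
      rw [← Equiv.sum_comp ea]
      apply Finset.sum_congr rfl
      intro q _
      simp [ea]
    simp only
    rw [hh]
    linarith
  · have hh : ∑ q : Γ × (Fin m × S'), |c0 A (q.1, q.2.1) * (sg q.2.2 * w q.2.2) -
        c0 B' ((((ea.symm.trans σ').trans ea) q).1, (((ea.symm.trans σ').trans ea) q).2.1) *
          (sg (((ea.symm.trans σ').trans ea) q).2.2 *
            w (((ea.symm.trans σ').trans ea) q).2.2)| =
        ∑ q : (Γ × Fin m) × S', |c0 A q.1 * (sg q.2 * w q.2) -
          c0 B' (σ' q).1 * (sg (σ' q).2 * w (σ' q).2)| := by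
      rw [← Equiv.sum_comp ea]
      apply Finset.sum_congr rfl
      intro q _
      simp [ea]
    simp only
    rw [hh]
    linarith

end Pool.Agent.R201.RN
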