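import Pool.Agent.R201.RN.Stm

/-!
# The telescoping permutations
-/

set_option autoImplicit false
set_option linter.unusedSectionVars false

namespace Pool.Agent.R201.RN

namespace STelAux

variable {Θ : Type} [Fintype Θ]

/-- the error of a permutation -/
noncomputable def Err {S : Type} [Fintype S] (a b : Θ → ℝ) (w : S → ℝ)
    (σ : Equiv.Perm (Θ × S)) : ℝ :=
  ∑ q : Θ × S, |a q.1 * w q.2 - b (σ q).1 * w (σ q).2|

theorem pert {S : Type} [Fintype S] (a b a' b' : Θ → ℝ) (w : S → ℝ) (σ : Equiv.Perm (Θ × S))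
    (hw : ∑ s, |w s| = 1) :
    Err a b w σ ≤ Err a' b' w σ + (∑ x, |a x - a' x|) + ∑ x, |b x - b' x| := by
  have h1 : ∑ q : Θ × S, |a q.1 - a' q.1| * |w q.2| = ∑ x, |a x - a' x| := by
    rw [Fintype.sum_prod_type]
    simp_rw [← Finset.mul_sum, hw, mul_one]
  have h2 : ∑ q : Θ × S, |b (σ q).1 - b' (σ q).1| * |w (σ q).2| = ∑ x, |b x - b' x| := by
    rw [Equiv.sum_comp σ (fun q : Θ × S => |b q.1 - b' q.1| * |w q.2|), Fintype.sum_prod_type]
    simp_rw [← Finset.mul_sum, hw, mul_one]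
  unfold Err
  rw [← h1, ← h2, ← Finset.sum_add_distrib, ← Finset.sum_add_distrib]
  refine Finset.sum_le_sum fun q _ => ?_
  rw [← abs_mul, ← abs_mul]
  have e : a q.1 * w q.2 - b (σ q).1 * w (σ q).2 =
      ((a' q.1 * w q.2 - b' (σ q).1 * w (σ q).2) + (a q.1 - a' q.1) * w q.2) -
      (b (σ q).1 - b' (σ q).1) * w (σ q).2 := by ring
  rw [e]
  have h3 := abs_sub (a' q.1 * w q.2 - b' (σ q).1 * w (σ q).2 + (a q.1 - a' q.1) * w q.2)
    ((b (σ q).1 - b' (σ q).1) * w (σ q).2)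
  have h4 := abs_add_le (a' q.1 * w q.2 - b' (σ q).1 * w (σ q).2) ((a q.1 - a' q.1) * w q.2)
  linarith

/-- mixed products -/
noncomputable def mm (a b : Θ → ℝ) (n k : ℕ) (t : Fin n → Θ) : ℝ :=
  ∏ j : Fin n, if (j : ℕ) < k then a (t j) else b (t j)

theorem sum_mm (a b : Θ → ℝ) (ha : ∑ x, a x = 1) (hb : ∑ x, b x = 1) (n k : ℕ) :
    ∑ t : Fin n → Θ, mm a b n k t = 1 := by
  unfold mm
  have h := Finset.prod_univ_sum (fun _ : Fin n => (Finset.univ : Finset Θ))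
    (fun (j : Fin n) x => if (j : ℕ) < k then a x else b x)
  rw [Fintype.piFinset_univ] at h
  rw [← h]
  refine Finset.prod_eq_one fun j _ => ?_
  split_ifs <;> assumption

theorem mm_pos (a b : Θ → ℝ) (ha : ∀ x, 0 < a x) (hb : ∀ x, 0 < b x) (n k : ℕ) (t : Fin n → Θ) :
    0 < mm a b n k t := by
  refine Finset.prod_pos fun j _ => ?_
  split_ifs
  · exact ha _
  · exact hb _

theorem succAbove_lt {n : ℕ} (i : Fin (n + 1)) (j : Fin n) :
    ((i.succAbove j : Fin (n + 1)) : ℕ) < (i : ℕ) ↔ (j : ℕ) < (i : ℕ) := by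
  by_cases h : j.castSucc < i
  · rw [Fin.succAbove_of_castSucc_lt _ _ h]
    rfl
  · rw [Fin.succAbove_of_le_castSucc _ _ (not_lt.1 h)]
    have h' : (i : ℕ) ≤ j := not_lt.1 h
    simp only [Fin.val_succ]
    omega

theorem succAbove_lt' {n : ℕ} (i : Fin (n + 1)) (j : Fin n) :
    ((i.succAbove j : Fin (n + 1)) : ℕ) < (i : ℕ) + 1 ↔ (j : ℕ) < (i : ℕ) := by
  by_cases h : j.castSucc < i
  · rw [Fin.succAbove_of_castSucc_lt _ _ h]
    have h' : (j : ℕ) < i := h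
    simp only [Fin.val_castSucc]
    omega
  · rw [Fin.succAbove_of_le_castSucc _ _ (not_lt.1 h)]
    have h' : (i : ℕ) ≤ j := not_lt.1 h
    simp only [Fin.val_succ]
    omega

theorem mm_succ (a b : Θ → ℝ) {n : ℕ} (i : Fin (n + 1)) (t : Fin (n + 1) → Θ) :
    mm a b (n + 1) (i + 1) t = a (t i) * mm a b n i (fun j => t (i.succAbove j)) := by
  unfold mm
  rw [Fin.prod_univ_succAbove _ i, if_pos (Nat.lt_succ_self _)]
  congr 1
  refine Finset.prod_congr rfl fun j _ => ?_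
  simp only [succAbove_lt']

theorem mm_self (a b : Θ → ℝ) {n : ℕ} (i : Fin (n + 1)) (t : Fin (n + 1) → Θ) :
    mm a b (n + 1) i t = b (t i) * mm a b n i (fun j => t (i.succAbove j)) := by
  unfold mm
  rw [Fin.prod_univ_succAbove _ i, if_neg (lt_irrefl _)]
  congr 1
  refine Finset.prod_congr rfl fun j _ => ?_
  simp only [succAbove_lt]

/-- insertion -/
def ins (Θ : Type) (n : ℕ) :
    Θ × (Fin (n + 1) × (Fin n → Θ)) ≃ Fin (n + 1) × (Fin (n + 1) → Θ) where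
  toFun q := (q.2.1, Fin.insertNth (α := fun _ => Θ) q.2.1 q.1 q.2.2)
  invFun p := (p.2 p.1, (p.1, fun j => p.2 (p.1.succAbove j)))
  left_inv := by
    rintro ⟨x, i, r⟩
    simp
  right_inv := by
    rintro ⟨i, t⟩
    refine Prod.ext rfl ?_
    funext j
    refine Fin.succAboveCases i ?_ (fun k => ?_) j
    · simp
    · simp

theorem core (a b : Θ → ℝ) (ha : ∀ x, 0 < a x) (hb : ∀ x, 0 < b x) (ha1 : ∑ x, a x = 1)
    (hb1 : ∑ x, b x = 1) [Nonempty Θ] (n : ℕ) :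
    ∃ (S : Type) (_ : Fintype S) (_ : Nonempty S) (w : S → ℝ) (σ : Equiv.Perm (Θ × S)),
      (∀ s, 0 < w s) ∧ ∑ s, w s = 1 ∧ Err a b w σ ≤ 2 / ((n : ℝ) + 1) := by
  have hn : (0 : ℝ) < (n : ℝ) + 1 := by positivity
  let w : Fin (n + 1) × (Fin n → Θ) → ℝ := fun s => mm a b n s.1 s.2 / ((n : ℝ) + 1)
  let sh : Equiv.Perm (Fin (n + 1) × (Fin (n + 1) → Θ)) :=
    Equiv.prodCongr (finRotate (n + 1)) (Equiv.refl _)
  let σ : Equiv.Perm (Θ × (Fin (n + 1) × (Fin n → Θ))) :=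
    ((ins Θ n).trans sh).trans (ins Θ n).symm
  refine ⟨Fin (n + 1) × (Fin n → Θ), inferInstance, inferInstance, w, σ, fun s => ?_, ?_, ?_⟩
  · exact div_pos (mm_pos a b ha hb _ _ _) hn
  · rw [Fintype.sum_prod_type]
    simp only [w]
    simp_rw [← Finset.sum_div, sum_mm a b ha1 hb1]
    rw [Finset.sum_const, Finset.card_univ, Fintype.card_fin, nsmul_eq_mul]
    push_cast
    field_simp
  · have h1 : Err a b w σ = ∑ p : Fin (n + 1) × (Fin (n + 1) → Θ),
        |mm a b (n + 1) (p.1 + 1) p.2 / ((n : ℝ) + 1) -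
          mm a b (n + 1) (finRotate (n + 1) p.1) p.2 / ((n : ℝ) + 1)| := by
      unfold Err
      rw [← Equiv.sum_comp (ins Θ n).symm]
      refine Finset.sum_congr rfl fun p _ => ?_
      have e1 : σ ((ins Θ n).symm p) = (ins Θ n).symm (finRotate (n + 1) p.1, p.2) := by
        simp only [σ, Equiv.trans_apply, Equiv.apply_symm_apply, sh]
        rfl
      rw [e1, mm_succ, mm_self]
      change |a (p.2 p.1) * (mm a b n p.1 (fun j => p.2 (p.1.succAbove j)) / ((n : ℝ) + 1)) -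
        b (p.2 (finRotate (n + 1) p.1)) * (mm a b n (finRotate (n + 1) p.1)
          (fun j => p.2 ((finRotate (n + 1) p.1).succAbove j)) / ((n : ℝ) + 1))| = _
      rw [mul_div_assoc, mul_div_assoc]
    rw [h1, Fintype.sum_prod_type, Fin.sum_univ_castSucc]
    have h2 : ∑ i : Fin n, ∑ t : Fin (n + 1) → Θ,
        |mm a b (n + 1) ((i.castSucc : Fin (n + 1)) + 1) t / ((n : ℝ) + 1) -
          mm a b (n + 1) (finRotate (n + 1) i.castSucc) t / ((n : ℝ) + 1)| = 0 := by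
      refine Finset.sum_eq_zero fun i _ => Finset.sum_eq_zero fun t _ => ?_
      have e : ((finRotate (n + 1) i.castSucc : Fin (n + 1)) : ℕ) = (i.castSucc : ℕ) + 1 := by
        have := finRotate_of_lt (n := n) (k := i) i.2
        have h3 : i.castSucc = (⟨i, i.2.trans_le n.le_succ⟩ : Fin (n + 1)) := rfl
        rw [h3, this]
      rw [e, sub_self, abs_zero]
    change (∑ i : Fin n, ∑ t : Fin (n + 1) → Θ,
        |mm a b (n + 1) ((i.castSucc : ℕ) + 1) t / ((n : ℝ) + 1) -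
          mm a b (n + 1) (finRotate (n + 1) i.castSucc) t / ((n : ℝ) + 1)|) + _ ≤ _
    have h2' : (∑ i : Fin n, ∑ t : Fin (n + 1) → Θ,
        |mm a b (n + 1) ((i.castSucc : ℕ) + 1) t / ((n : ℝ) + 1) -
          mm a b (n + 1) (finRotate (n + 1) i.castSucc) t / ((n : ℝ) + 1)|) = 0 := by
      refine Finset.sum_eq_zero fun i _ => Finset.sum_eq_zero fun t _ => ?_
      have e : ((finRotate (n + 1) i.castSucc : Fin (n + 1)) : ℕ) = (i.castSucc : ℕ) + 1 := by
        have := finRotate_of_lt (n := n) (k := i) i.2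
        have h3 : i.castSucc = (⟨i, i.2.trans_le n.le_succ⟩ : Fin (n + 1)) := rfl
        rw [h3, this]
      rw [e, sub_self, abs_zero]
    rw [h2', zero_add]
    have h4 : ∀ t : Fin (n + 1) → Θ,
        |mm a b (n + 1) ((Fin.last n : ℕ) + 1) t / ((n : ℝ) + 1) -
          mm a b (n + 1) (finRotate (n + 1) (Fin.last n)) t / ((n : ℝ) + 1)| ≤
        mm a b (n + 1) ((Fin.last n : ℕ) + 1) t / ((n : ℝ) + 1) +
          mm a b (n + 1) (finRotate (n + 1) (Fin.last n)) t / ((n : ℝ) + 1) := by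
      intro t
      have h5 : 0 ≤ mm a b (n + 1) ((Fin.last n : ℕ) + 1) t / ((n : ℝ) + 1) :=
        (div_pos (mm_pos a b ha hb _ _ _) hn).le
      have h6 : 0 ≤ mm a b (n + 1) (finRotate (n + 1) (Fin.last n)) t / ((n : ℝ) + 1) :=
        (div_pos (mm_pos a b ha hb _ _ _) hn).le
      rw [abs_le]
      constructor <;> linarith
    refine (Finset.sum_le_sum fun t _ => h4 t).trans ?_
    rw [Finset.sum_add_distrib, ← Finset.sum_div, ← Finset.sum_div, sum_mm a b ha1 hb1,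
      sum_mm a b ha1 hb1, ← add_div]
    norm_num

/-- two targets -/
theorem two {S1 S2 : Type} [Fintype S1] [Fintype S2] (a b b' : Θ → ℝ) (w1 : S1 → ℝ)
    (w2 : S2 → ℝ) (h1 : ∀ s, 0 < w1 s) (h2 : ∀ s, 0 < w2 s) (hs1 : ∑ s, w1 s = 1)
    (hs2 : ∑ s, w2 s = 1) (σ1 : Equiv.Perm (Θ × S1)) (σ2 : Equiv.Perm (Θ × S2)) :
    ∃ σ σ' : Equiv.Perm (Θ × (S1 × S2)),
      Err a b (fun s : S1 × S2 => w1 s.1 * w2 s.2) σ = Err a b w1 σ1 ∧
      Err a b' (fun s : S1 × S2 => w1 s.1 * w2 s.2) σ' = Err a b' w2 σ2 := by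
  let e1 : Θ × (S1 × S2) ≃ (Θ × S1) × S2 := (Equiv.prodAssoc _ _ _).symm
  let e2 : Θ × (S1 × S2) ≃ (Θ × S2) × S1 :=
    (Equiv.prodCongr (Equiv.refl Θ) (Equiv.prodComm S1 S2)).trans (Equiv.prodAssoc _ _ _).symm
  refine ⟨(e1.trans (Equiv.prodCongr σ1 (Equiv.refl S2))).trans e1.symm,
    (e2.trans (Equiv.prodCongr σ2 (Equiv.refl S1))).trans e2.symm, ?_, ?_⟩
  · unfold Err
    rw [← Equiv.sum_comp e1.symm, Fintype.sum_prod_type]
    refine Finset.sum_congr rfl fun q _ => ?_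
    have e : ∀ s : S2, |a q.1 * (w1 q.2 * w2 s) - b (σ1 q).1 * (w1 (σ1 q).2 * w2 s)| =
        |a q.1 * w1 q.2 - b (σ1 q).1 * w1 (σ1 q).2| * w2 s := by
      intro s
      rw [← abs_of_pos (h2 s), ← abs_mul, abs_of_pos (h2 s)]
      congr 1
      ring
    calc _ = ∑ s : S2, |a q.1 * (w1 q.2 * w2 s) - b (σ1 q).1 * (w1 (σ1 q).2 * w2 s)| := rfl
      _ = ∑ s : S2, |a q.1 * w1 q.2 - b (σ1 q).1 * w1 (σ1 q).2| * w2 s :=
        Finset.sum_congr rfl fun s _ => e s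
      _ = _ := by rw [← Finset.mul_sum, hs2, mul_one]
  · unfold Err
    rw [← Equiv.sum_comp e2.symm, Fintype.sum_prod_type]
    refine Finset.sum_congr rfl fun q _ => ?_
    have e : ∀ s : S1, |a q.1 * (w1 s * w2 q.2) - b' (σ2 q).1 * (w1 s * w2 (σ2 q).2)| =
        |a q.1 * w2 q.2 - b' (σ2 q).1 * w2 (σ2 q).2| * w1 s := by
      intro s
      rw [← abs_of_pos (h1 s), ← abs_mul, abs_of_pos (h1 s)]
      congr 1
      ring
    calc _ = ∑ s : S1, |a q.1 * (w1 s * w2 q.2) - b' (σ2 q).1 * (w1 s * w2 (σ2 q).2)| := rfl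
      _ = ∑ s : S1, |a q.1 * w2 q.2 - b' (σ2 q).1 * w2 (σ2 q).2| * w1 s :=
        Finset.sum_congr rfl fun s _ => e s
      _ = _ := by rw [← Finset.mul_sum, hs1, mul_one]

/-- smoothing and normalising -/
theorem smooth (c : Θ → ℝ) (η κ : ℝ) (hc : |∑ x, |c x| - 1| ≤ η) (hη : η < 1) (hκ0 : 0 < κ)
    (hκ1 : κ < 1) : ∃ d : Θ → ℝ, (∀ x, 0 < d x) ∧ ∑ x, d x = 1 ∧
      ∑ x, |(|c x|) - d x| ≤ η + 2 * κ := by
  have hA : 0 < ∑ x, |c x| := by
    have := (abs_le.1 hc).1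
    linarith
  have hne : Nonempty Θ := by
    by_contra h
    rw [not_nonempty_iff] at h
    rw [Fintype.sum_empty] at hA
    exact lt_irrefl _ hA
  have hN : (0 : ℝ) < Fintype.card Θ := by exact_mod_cast Fintype.card_pos
  refine ⟨fun x => (1 - κ) * (|c x| / ∑ y, |c y|) + κ / Fintype.card Θ, fun x => ?_, ?_, ?_⟩
  · have h1 : 0 ≤ |c x| / ∑ y, |c y| := by positivity
    have h2 : 0 < κ / Fintype.card Θ := by positivity
    have h3 : 0 ≤ (1 - κ) * (|c x| / ∑ y, |c y|) := mul_nonneg (by linarith) h1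
    linarith
  · rw [Finset.sum_add_distrib, ← Finset.mul_sum, ← Finset.sum_div, div_self hA.ne',
      Finset.sum_const, Finset.card_univ, nsmul_eq_mul]
    field_simp
    ring
  · have h1 : ∀ x, |(|c x|) - ((1 - κ) * (|c x| / ∑ y, |c y|) + κ / Fintype.card Θ)| ≤
        |c x| / (∑ y, |c y|) * |∑ y, |c y| - 1| + (κ * (|c x| / ∑ y, |c y|) +
          κ / Fintype.card Θ) := by
      intro x
      have e : |c x| - ((1 - κ) * (|c x| / ∑ y, |c y|) + κ / Fintype.card Θ) =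
          (|c x| / (∑ y, |c y|) * (∑ y, |c y| - 1)) + (κ * (|c x| / ∑ y, |c y|) -
            κ / Fintype.card Θ) := by
        field_simp
        ring
      rw [e]
      have h2 : 0 ≤ |c x| / ∑ y, |c y| := by positivity
      have h3 : 0 ≤ κ / Fintype.card Θ := by positivity
      have h4 : 0 ≤ κ * (|c x| / ∑ y, |c y|) := by positivity
      refine (abs_add_le _ _).trans (add_le_add ?_ ?_)
      · rw [abs_mul, abs_of_nonneg h2]
      · rw [abs_le]
        constructor <;> linarith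
    refine (Finset.sum_le_sum fun x _ => h1 x).trans ?_
    rw [Finset.sum_add_distrib, Finset.sum_add_distrib, ← Finset.sum_mul, ← Finset.sum_div,
      div_self hA.ne', ← Finset.mul_sum, ← Finset.sum_div, div_self hA.ne', Finset.sum_const,
      Finset.card_univ, nsmul_eq_mul, mul_div_cancel₀ _ hN.ne', one_mul, mul_one]
    linarith

/-- the nonnegative case -/
theorem nn (a b b' : Θ → ℝ) (η : ℝ) (ha : |∑ x, |a x| - 1| ≤ η) (hb : |∑ x, |b x| - 1| ≤ η)
    (hb' : |∑ x, |b' x| - 1| ≤ η) (hη : η < 1) (ε : ℝ) (hε : 0 < ε) :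
    ∃ (S : Type) (_ : Fintype S) (_ : Nonempty S) (w : S → ℝ) (σ σ' : Equiv.Perm (Θ × S)),
      (∀ s, 0 < w s) ∧ ∑ s, w s = 1 ∧
      Err (fun x => |a x|) (fun x => |b x|) w σ ≤ 2 * η + ε ∧
      Err (fun x => |a x|) (fun x => |b' x|) w σ' ≤ 2 * η + ε := by
  have hne : Nonempty Θ := by
    by_contra h
    rw [not_nonempty_iff] at h
    rw [Fintype.sum_empty] at ha
    norm_num at ha
    linarith
  obtain ⟨κ, hκ0, hκ1, hκε⟩ : ∃ κ : ℝ, 0 < κ ∧ κ < 1 ∧ 4 * κ ≤ ε / 2 := by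
    refine ⟨min (ε / 8) (1 / 2), by positivity, ?_, ?_⟩
    · exact (min_le_right _ _).trans_lt (by norm_num)
    · have := min_le_left (ε / 8) (1 / 2)
      linarith
  obtain ⟨n, hn⟩ := exists_nat_gt (4 / ε)
  have hn2 : 2 / ((n : ℝ) + 1) ≤ ε / 2 := by
    have h1 : (0 : ℝ) < (n : ℝ) + 1 := by positivity
    rw [div_le_iff₀ h1]
    rw [div_lt_iff₀ hε] at hn
    nlinarith
  obtain ⟨a1, ha1, ha2, ha3⟩ := smooth a η κ ha hη hκ0 hκ1
  obtain ⟨b1, hb1, hb2, hb3⟩ := smooth b η κ hb hη hκ0 hκ1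
  obtain ⟨c1, hc1, hc2, hc3⟩ := smooth b' η κ hb' hη hκ0 hκ1
  obtain ⟨S1, _, _, w1, σ1, h1, h2, h3⟩ := core a1 b1 ha1 hb1 ha2 hb2 n
  obtain ⟨S2, _, _, w2, σ2, h4, h5, h6⟩ := core a1 c1 ha1 hc1 ha2 hc2 n
  obtain ⟨σ, _, h7, _⟩ := two a1 b1 c1 w1 w2 h1 h4 h2 h5 σ1 σ2
  obtain ⟨_, σ', _, h8⟩ := two a1 b1 c1 w1 w2 h1 h4 h2 h5 σ1 σ2
  have hw : ∑ s : S1 × S2, w1 s.1 * w2 s.2 = 1 := by
    rw [Fintype.sum_prod_type]
    simp_rw [← Finset.mul_sum, h5, mul_one]
    exact h2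
  have hwa : ∑ s : S1 × S2, |w1 s.1 * w2 s.2| = 1 := by
    rw [← hw]
    exact Finset.sum_congr rfl fun s _ => abs_of_pos (mul_pos (h1 _) (h4 _))
  refine ⟨S1 × S2, inferInstance, inferInstance, fun s => w1 s.1 * w2 s.2, σ, σ',
    fun s => mul_pos (h1 _) (h4 _), hw, ?_, ?_⟩
  · have := pert (fun x => |a x|) (fun x => |b x|) a1 b1 (fun s : S1 × S2 => w1 s.1 * w2 s.2) σ hwa
    rw [h7] at this
    linarith
  · have := pert (fun x => |a x|) (fun x => |b' x|) a1 c1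
      (fun s : S1 × S2 => w1 s.1 * w2 s.2) σ' hwa
    rw [h8] at this
    linarith

/-- flipping signs -/
noncomputable def flip (S : Type) (c : Θ → ℝ) : Equiv.Perm (Θ × (S × Bool)) where
  toFun q := (q.1, (q.2.1, if c q.1 < 0 then !q.2.2 else q.2.2))
  invFun q := (q.1, (q.2.1, if c q.1 < 0 then !q.2.2 else q.2.2))
  left_inv := by
    rintro ⟨x, s, β⟩
    by_cases h : c x < 0 <;> simp [h]
  right_inv := by
    rintro ⟨x, s, β⟩
    by_cases h : c x < 0 <;> simp [h]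

/-- the sign -/
noncomputable def sgn (β : Bool) : ℝ := if β then 1 else -1

theorem flip_eq {S : Type} (c : Θ → ℝ) (w : S → ℝ) (q : Θ × (S × Bool)) :
    c q.1 * (sgn q.2.2 * w q.2.1) =
      |c (flip S c q).1| * (sgn (flip S c q).2.2 * w (flip S c q).2.1) := by
  obtain ⟨x, s, β⟩ := q
  by_cases h : c x < 0
  · cases β <;> simp [flip, h, sgn, abs_of_neg h]
  · simp [flip, h, abs_of_nonneg (not_lt.1 h)]

theorem signed {S : Type} [Fintype S] (a b : Θ → ℝ) (w : S → ℝ) (σ0 : Equiv.Perm (Θ × S)) :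
    ∃ σ : Equiv.Perm (Θ × (S × Bool)),
      ∑ q : Θ × (S × Bool), |a q.1 * (sgn q.2.2 * (w q.2.1 / 2)) -
        b (σ q).1 * (sgn (σ q).2.2 * (w (σ q).2.1 / 2))| =
      Err (fun x => |a x|) (fun x => |b x|) w σ0 := by
  let e : Θ × (S × Bool) ≃ (Θ × S) × Bool := (Equiv.prodAssoc _ _ _).symm
  let τ : Equiv.Perm (Θ × (S × Bool)) :=
    (e.trans (Equiv.prodCongr σ0 (Equiv.refl Bool))).trans e.symm
  refine ⟨((flip S a).trans τ).trans (flip S b), ?_⟩
  let g : Θ × (S × Bool) → ℝ := fun p => |(|a p.1| * (sgn p.2.2 * (w p.2.1 / 2)) -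
        |b (τ p).1| * (sgn (τ p).2.2 * (w (τ p).2.1 / 2)))|
  have h1 : ∀ q : Θ × (S × Bool),
      |a q.1 * (sgn q.2.2 * (w q.2.1 / 2)) -
        b ((((flip S a).trans τ).trans (flip S b)) q).1 *
          (sgn ((((flip S a).trans τ).trans (flip S b)) q).2.2 *
            (w ((((flip S a).trans τ).trans (flip S b)) q).2.1 / 2))| =
      g (flip S a q) := by
    intro q
    have h2 := flip_eq a (fun s => w s / 2) q
    have h3 := flip_eq b (fun s => w s / 2) (flip S b (τ (flip S a q)))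
    have h4 : flip S b (flip S b (τ (flip S a q))) = τ (flip S a q) :=
      (flip S b).left_inv (τ (flip S a q))
    rw [h4] at h3
    simp only [g]
    rw [h2]
    change |_ - b (flip S b (τ (flip S a q))).1 * (sgn (flip S b (τ (flip S a q))).2.2 *
      (w (flip S b (τ (flip S a q))).2.1 / 2))| = _
    rw [h3]
  rw [Finset.sum_congr rfl fun q _ => h1 q, Equiv.sum_comp (flip S a) g, ← Equiv.sum_comp e.symm,
    Fintype.sum_prod_type]
  unfold Err
  refine Finset.sum_congr rfl fun q _ => ?_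
  have h5 : ∀ β : Bool, |(|a q.1| * (sgn β * (w q.2 / 2)) -
      |b (σ0 q).1| * (sgn β * (w (σ0 q).2 / 2)))| =
      |(|a q.1| * w q.2 - |b (σ0 q).1| * w (σ0 q).2)| / 2 := by
    intro β
    have h6 : |(sgn β / 2 : ℝ)| = 1 / 2 := by
      cases β <;> simp [sgn, abs_div]
    have h7 : |a q.1| * (sgn β * (w q.2 / 2)) - |b (σ0 q).1| * (sgn β * (w (σ0 q).2 / 2)) =
      (sgn β / 2) * (|a q.1| * w q.2 - |b (σ0 q).1| * w (σ0 q).2) := by ring
    rw [h7, abs_mul, h6]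
    ring
  calc _ = ∑ β : Bool, |(|a q.1| * (sgn β * (w q.2 / 2)) -
      |b (σ0 q).1| * (sgn β * (w (σ0 q).2 / 2)))| := rfl
    _ = ∑ _β : Bool, |(|a q.1| * w q.2 - |b (σ0 q).1| * w (σ0 q).2)| / 2 :=
      Finset.sum_congr rfl fun β _ => h5 β
    _ = _ := by
      rw [Fintype.sum_bool]
      ring

end STelAux

open STelAux in
theorem sTel : STel := by
  intro Θ _ a b b' η ha hb hb' hη ε hε
  obtain ⟨S, _, _, w, σ, σ', hw, hw1, h1, h2⟩ := nn a b b' η ha hb hb' hη ε hε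
  by_cases hpos : ∀ x, 0 ≤ a x ∧ 0 ≤ b x ∧ 0 ≤ b' x
  · have ea : (fun x => |a x|) = a := funext fun x => abs_of_nonneg (hpos x).1
    have eb : (fun x => |b x|) = b := funext fun x => abs_of_nonneg (hpos x).2.1
    have eb' : (fun x => |b' x|) = b' := funext fun x => abs_of_nonneg (hpos x).2.2
    rw [ea, eb] at h1
    rw [ea, eb'] at h2
    refine ⟨S, inferInstance, inferInstance, w, fun _ => 1, σ, σ', hw, hw1, fun _ => Or.inl rfl,
      fun _ _ => rfl, ?_, ?_⟩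
    · unfold Err at h1
      simpa only [one_mul] using h1
    · unfold Err at h2
      simpa only [one_mul] using h2
  · obtain ⟨τ, hτ⟩ := signed a b w σ
    obtain ⟨τ', hτ'⟩ := signed a b' w σ'
    refine ⟨S × Bool, inferInstance, inferInstance, fun s => w s.1 / 2, fun s => sgn s.2, τ, τ',
      fun s => half_pos (hw _), ?_, fun s => ?_, fun h => absurd h hpos, ?_, ?_⟩
    · rw [Fintype.sum_prod_type]
      simp_rw [Fintype.sum_bool, add_halves]
      exact hw1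
    · obtain ⟨s, β⟩ := s
      cases β
      · right; simp [sgn]
      · left; simp [sgn]
    · rw [hτ]; exact h1
    · rw [hτ']; exact h2

end Pool.Agent.R201.RN
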