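import Pool.Agent.R201.RN.Stm

set_option autoImplicit false

open Set MeasureTheory Filter Topology

namespace Pool.Agent.R201.RN

theorem sTop : STop := by
  classical
  intro G _ pos D h β
  choose a haD ha using fun (i : Finset G × Finset E × ℕ) =>
    h β i.1 i.2.1 (1 / ((i.2.2 : ℝ) + 1)) (by positivity)
  have hind : Topology.IsInducing (fun (α : Act pos G) (g : G) (f : E) => α.1 g f) := ⟨rfl⟩
  refine mem_closure_of_tendsto (f := a) (b := atTop) ?_ (Eventually.of_forall haD)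
  rw [hind.tendsto_nhds_iff, tendsto_pi_nhds]
  intro g
  rw [tendsto_pi_nhds]
  intro f
  rw [Metric.tendsto_atTop]
  intro ε hε
  obtain ⟨n, hn⟩ := exists_nat_one_div_lt hε
  refine ⟨({g}, {f}, n), ?_⟩
  rintro ⟨K, F, m⟩ hi
  obtain ⟨h1, h2, h3⟩ : ({g} : Finset G) ≤ K ∧ ({f} : Finset E) ≤ F ∧ n ≤ m := ⟨hi.1, hi.2.1, hi.2.2⟩
  have hg : g ∈ K := h1 (Finset.mem_singleton_self g)
  have hf : f ∈ F := h2 (Finset.mem_singleton_self f)
  have h4 := ha (K, F, m) g hg f hf
  rw [dist_eq_norm]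
  refine h4.trans (lt_of_le_of_lt ?_ hn)
  have h5 : (n : ℝ) ≤ m := by exact_mod_cast h3
  show 1 / ((m : ℝ) + 1) ≤ 1 / ((n : ℝ) + 1)
  apply one_div_le_one_div_of_le (by positivity)
  linarith

namespace STopP

lemma eq_of_close {x y C : ℝ} (h : ∀ ε : ℝ, 0 < ε → |x - y| ≤ C * ε) : x = y := by
  by_contra hne
  have h1 : 0 < |x - y| := abs_pos.mpr (sub_ne_zero.mpr hne)
  have hC : 0 < |C| + 1 := by positivity
  have h2 := h (|x - y| / (2 * (|C| + 1))) (by positivity)
  have h3 : C * (|x - y| / (2 * (|C| + 1))) ≤ |x - y| / 2 := by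
    have h4 : C ≤ |C| + 1 := (le_abs_self C).trans (by linarith)
    calc C * (|x - y| / (2 * (|C| + 1))) ≤ (|C| + 1) * (|x - y| / (2 * (|C| + 1))) :=
          mul_le_mul_of_nonneg_right h4 (by positivity)
      _ = |x - y| / 2 := by field_simp
  linarith

end STopP

theorem sObs : SObs := by
  intro G _ pos α A B hAB h hα
  obtain ⟨N, hadd, hsmul, ⟨c, C, hc, hcC⟩, hstrict, hinv⟩ := hα
  have hneg : ∀ x, N (-x) = N x := by
    intro x
    have := hsmul (-1) x
    simpa using this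
  have hlip : ∀ x y, |N x - N y| ≤ C * ‖x - y‖ := by
    intro x y
    have h1 : N x ≤ N (x - y) + N y := by
      have := hadd (x - y) y
      rwa [sub_add_cancel] at this
    have h2 : N y ≤ N (x - y) + N x := by
      have := hadd (y - x) x
      rw [sub_add_cancel] at this
      rw [← hneg (x - y), neg_sub]
      exact this
    have h3 := (hcC (x - y)).2
    rw [abs_le]
    constructor <;> linarith
  have hC : 0 ≤ C := by
    have h1 := hcC (A - B)
    have h2 : 0 < ‖A - B‖ := norm_pos_iff.mpr (sub_ne_zero.mpr hAB)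
    by_contra hn
    push Not at hn
    have h3 : 0 < c * ‖A - B‖ := mul_pos hc h2
    have h4 : C * ‖A - B‖ < 0 := mul_neg_of_neg_of_pos hn h2
    linarith [h1.1, h1.2]
  have key : ∀ D : E, (∀ ε : ℝ, 0 < ε → ∃ a : G, ‖α.1 a A - D‖ < ε) → N A = N D := by
    intro D hD
    apply STopP.eq_of_close (C := C)
    intro ε hε
    obtain ⟨a, ha⟩ := hD ε hε
    have h1 := hlip (α.1 a A) D
    rw [hinv] at h1
    exact h1.trans (mul_le_mul_of_nonneg_left ha.le hC)
  have h1 : N A = N B := key B fun ε hε => (h ε hε).1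
  have h2 : N A = N ((1 / 2 : ℝ) • (A + B)) := key _ fun ε hε => (h ε hε).2
  have h3 := hstrict A B hAB h1
  linarith

theorem sFn : SFn := by
  set μ : Measure ℝ := volume.restrict (Icc (0 : ℝ) 1) with hμ
  have hs : MeasurableSet (Icc (0 : ℝ) (1 / 2)) := measurableSet_Icc
  have ht : MeasurableSet (Ioc (1 / 2 : ℝ) 1) := measurableSet_Ioc
  have hst : Disjoint (Icc (0 : ℝ) (1 / 2)) (Ioc (1 / 2 : ℝ) 1) := by
    rw [Set.disjoint_left]
    intro x hx hy
    exact absurd hx.2 (not_le.mpr hy.1)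
  have ms : μ (Icc (0 : ℝ) (1 / 2)) = ENNReal.ofReal (1 / 2) := by
    rw [hμ, Measure.restrict_apply hs, Set.inter_eq_left.mpr (Icc_subset_Icc_right (by norm_num)),
      Real.volume_Icc, sub_zero]
  have mt : μ (Ioc (1 / 2 : ℝ) 1) = ENNReal.ofReal (1 / 2) := by
    rw [hμ, Measure.restrict_apply ht, Set.inter_eq_left.mpr
      (show Ioc (1 / 2 : ℝ) 1 ⊆ Icc 0 1 from fun x hx => ⟨by linarith [hx.1], hx.2⟩),
      Real.volume_Ioc]
    norm_num
  have fs : μ (Icc (0 : ℝ) (1 / 2)) ≠ ⊤ := by rw [ms]; exact ENNReal.ofReal_ne_top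
  have ft : μ (Ioc (1 / 2 : ℝ) 1) ≠ ⊤ := by rw [mt]; exact ENNReal.ofReal_ne_top
  have rs : μ.real (Icc (0 : ℝ) (1 / 2)) = 1 / 2 := by
    rw [Measure.real, ms, ENNReal.toReal_ofReal (by norm_num)]
  have rt : μ.real (Ioc (1 / 2 : ℝ) 1) = 1 / 2 := by
    rw [Measure.real, mt, ENNReal.toReal_ofReal (by norm_num)]
  have rst : μ.real (Icc (0 : ℝ) (1 / 2) ∪ Ioc (1 / 2 : ℝ) 1) = 1 := by
    rw [Measure.real, measure_union hst ht, ms, mt, ← ENNReal.ofReal_add (by norm_num)
      (by norm_num), ENNReal.toReal_ofReal (by norm_num)]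
    norm_num
  have fst : μ (Icc (0 : ℝ) (1 / 2) ∪ Ioc (1 / 2 : ℝ) 1) ≠ ⊤ := by
    rw [measure_union hst ht]
    exact ENNReal.add_ne_top.mpr ⟨fs, ft⟩
  have hone : (1 : ENNReal).toReal = 1 := ENNReal.toReal_one
  refine ⟨indicatorConstLp 1 hs fs (2 : ℝ), indicatorConstLp 1 ht ft (2 : ℝ), ?_, ?_, ?_, ?_, ?_, ?_⟩
  · rw [← Lp.coeFn_nonneg]
    filter_upwards [indicatorConstLp_coeFn (p := 1) (hs := hs) (hμs := fs) (c := (2 : ℝ))] with x hx
    rw [hx]
    exact Set.indicator_nonneg (fun _ _ => by norm_num) x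
  · rw [← Lp.coeFn_nonneg]
    filter_upwards [indicatorConstLp_coeFn (p := 1) (hs := ht) (hμs := ft) (c := (2 : ℝ))] with x hx
    rw [hx]
    exact Set.indicator_nonneg (fun _ _ => by norm_num) x
  · intro h
    have h1 := indicatorConstLp_coeFn (p := 1) (hs := hs) (hμs := fs) (c := (2 : ℝ))
    have h2 := indicatorConstLp_coeFn (p := 1) (hs := ht) (hμs := ft) (c := (2 : ℝ))
    rw [h] at h1
    have h3 : ∀ᵐ x ∂μ, x ∉ Icc (0 : ℝ) (1 / 2) := by
      filter_upwards [h1, h2] with x hx hy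
      intro hxs
      rw [hx] at hy
      rw [Set.indicator_of_mem hxs, Set.indicator_of_notMem (Set.disjoint_left.mp hst hxs)] at hy
      norm_num at hy
    have h4 := measure_eq_zero_iff_ae_notMem.mpr h3
    rw [ms] at h4
    have : (0 : ℝ) < 1 / 2 := by norm_num
    exact absurd h4 (ENNReal.ofReal_pos.mpr this).ne'
  · rw [norm_indicatorConstLp one_ne_zero ENNReal.one_ne_top, rs, hone]
    norm_num
  · rw [norm_indicatorConstLp one_ne_zero ENNReal.one_ne_top, rt, hone]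
    norm_num
  · rw [← indicatorConstLp_disjoint_union hs ht fs ft hst, norm_smul,
      norm_indicatorConstLp one_ne_zero ENNReal.one_ne_top, rst, hone]
    norm_num

end Pool.Agent.R201.RN
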