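import Pool.Agent.R201.RN.Stm

/-! # Partition of the unit interval with given weights -/

set_option autoImplicit false

open Set MeasureTheory Filter Topology

namespace Pool.Agent.R201.RN

namespace SWX

instance : NeZero (volume.restrict (Icc (0 : ℝ) 1)) := by
  refine ⟨?_⟩
  rw [Ne, Measure.restrict_eq_zero, Real.volume_Icc]
  norm_num

instance : IsProbabilityMeasure (volume.restrict (Icc (0 : ℝ) 1)) := by
  refine ⟨?_⟩
  rw [Measure.restrict_apply_univ, Real.volume_Icc]
  norm_num

/-- the representative of the constant function -/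
lemma one_apply (x : ℝ) : (one : ℝ → ℝ) x = 1 :=
  AEEqFun.coeFn_const_eq (μ := volume.restrict (Icc (0 : ℝ) 1)) ℝ (1 : ℝ) x

lemma norm_oneE : ‖one‖ = 1 := by
  rw [L1.norm_eq_integral_norm]
  simp only [one_apply, norm_one, integral_const, smul_eq_mul, mul_one]
  simp

lemma one_nonneg : 0 ≤ one := by
  rw [← Lp.coeFn_nonneg]
  refine Eventually.of_forall fun x => ?_
  show (0 : ℝ) ≤ _
  rw [one_apply]
  exact zero_le_one

lemma smul_nonnegE {c : ℝ} (hc : 0 ≤ c) {f : E} (hf : 0 ≤ f) : 0 ≤ c • f := by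
  rw [← Lp.coeFn_nonneg]
  filter_upwards [Lp.coeFn_smul c f, (Lp.coeFn_nonneg f).mpr hf] with t h1 h2
  rw [h1]
  exact mul_nonneg hc h2

lemma norm_nonneg_eq {a : E} (ha : 0 ≤ a) : ‖a‖ = ∫ x, (a : ℝ → ℝ) x ∂(volume.restrict (Icc (0 : ℝ) 1)) := by
  rw [L1.norm_eq_integral_norm]
  refine integral_congr_ae ?_
  filter_upwards [(Lp.coeFn_nonneg a).mpr ha] with x hx
  exact Real.norm_of_nonneg hx

lemma norm_add_of_nonneg {a b : E} (ha : 0 ≤ a) (hb : 0 ≤ b) : ‖a + b‖ = ‖a‖ + ‖b‖ := by
  rw [norm_nonneg_eq ha, norm_nonneg_eq hb, norm_nonneg_eq (add_nonneg ha hb),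
    ← integral_add (L1.integrable_coeFn a) (L1.integrable_coeFn b)]
  exact integral_congr_ae (Lp.coeFn_add a b)

/-- sums of indicators of disjoint sets -/
lemma ind_le {I : Type} (J : I → Set ℝ) (hJ : ∀ i k, i ≠ k → Disjoint (J i) (J k)) (s : Finset I)
    (t : ℝ) : ∑ i ∈ s, (J i).indicator (fun _ => (1 : ℝ)) t ≤ 1 := by
  classical
  by_cases h : ∃ i ∈ s, t ∈ J i
  · obtain ⟨i, hi, ht⟩ := h
    rw [Finset.sum_eq_single i]
    · rw [indicator_of_mem ht]
    · intro k _ hk
      exact indicator_of_notMem (fun h => Set.disjoint_left.mp (hJ i k hk.symm) ht h) _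
    · intro h
      exact absurd hi h
  · push Not at h
    rw [Finset.sum_eq_zero]
    · exact zero_le_one
    · intro i hi
      exact indicator_of_notMem (h i hi) _

end SWX

open SWX in
theorem sW (h : SD1) : SW := by
  classical
  obtain ⟨T, hT1, hT2⟩ := h
  intro I _ p hp hsum
  obtain ⟨e, he⟩ := Countable.exists_injective_nat I
  obtain ⟨w, hw⟩ : ∃ w : I → I → ℝ, w = fun i k => if e k < e i then p k else 0 := ⟨_, rfl⟩
  obtain ⟨u, hu⟩ : ∃ u : I → ℝ, u = fun i => ∑' k, w i k := ⟨_, rfl⟩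
  have hps : Summable p := hsum.summable
  have hws : ∀ i, Summable (w i) := by
    intro i
    refine Summable.of_nonneg_of_le (fun k => ?_) (fun k => ?_) hps
    · rw [hw]
      dsimp only
      split_ifs
      · exact (hp k).le
      · exact le_rfl
    · rw [hw]
      dsimp only
      split_ifs
      · exact le_rfl
      · exact (hp k).le
  have hu0 : ∀ i, 0 ≤ u i := by
    intro i
    rw [hu]
    refine tsum_nonneg fun k => ?_
    rw [hw]
    dsimp only
    split_ifs
    · exact (hp k).le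
    · exact le_rfl
  have hadd : ∀ i, u i + p i = ∑' k, (w i k + if k = i then p i else 0) := by
    intro i
    rw [(hws i).tsum_add]
    · rw [tsum_ite_eq, hu]
    · exact (hasSum_ite_eq i (p i)).summable
  have hs2 : ∀ i, Summable fun k => (w i k + if k = i then p i else 0) :=
    fun i => (hws i).add (hasSum_ite_eq i (p i)).summable
  have hle1 : ∀ i, u i + p i ≤ 1 := by
    intro i
    rw [hadd, ← hsum.tsum_eq]
    refine (hs2 i).tsum_le_tsum (fun k => ?_) hps
    rw [hw]
    dsimp only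
    by_cases hk : k = i
    · subst hk
      simp
    · rw [if_neg hk, add_zero]
      split_ifs
      · exact le_rfl
      · exact (hp k).le
  have hle2 : ∀ i j, e i < e j → u i + p i ≤ u j := by
    intro i j hij
    rw [hadd, hu]
    refine (hs2 i).tsum_le_tsum (fun k => ?_) (hws j)
    rw [hw]
    dsimp only
    by_cases hk : k = i
    · subst hk
      simp [hij]
    · rw [if_neg hk, add_zero]
      by_cases h1 : e k < e i
      · rw [if_pos h1, if_pos (h1.trans hij)]
      · rw [if_neg h1]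
        split_ifs
        · exact (hp k).le
        · exact le_rfl
  have hdisj : ∀ i k, i ≠ k → Disjoint (Ioc (u i) (u i + p i)) (Ioc (u k) (u k + p k)) := by
    intro i k hik
    rw [Set.disjoint_left]
    intro x hx hx'
    rcases lt_or_gt_of_ne (fun h' => hik (he h')) with h' | h'
    · have := hle2 i k h'
      have h1 := hx.2
      have h2 := hx'.1
      linarith
    · have := hle2 k i h'
      have h1 := hx'.2
      have h2 := hx.1
      linarith
  have hdec := hT2 I u p (fun i => ⟨hu0 i, hp i, hle1 i⟩) hdisj hsum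
  refine ⟨fun i => T (u i) (p i), hdec, ?_⟩
  -- the a.e. form of the terms
  have hterm : ∀ i, ((p i • T (u i) (p i) one : E) : ℝ → ℝ) =ᵐ[volume.restrict (Icc (0 : ℝ) 1)]
      (Ioc (u i) (u i + p i)).indicator (fun _ => (1 : ℝ)) := by
    intro i
    filter_upwards [Lp.coeFn_smul (p i) (T (u i) (p i) one), hT1 (u i) (p i) (hu0 i) (hp i) (hle1 i) one]
      with t h1 h2
    rw [h1, Pi.smul_apply, h2, one_apply, smul_eq_mul]
    by_cases ht : t ∈ Ioc (u i) (u i + p i)
    · rw [if_pos ht, indicator_of_mem ht, mul_one, mul_inv_cancel₀ (hp i).ne']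
    · rw [if_neg ht, indicator_of_notMem ht, mul_zero]
  have hnn : ∀ i, 0 ≤ p i • T (u i) (p i) one := fun i =>
    smul_nonnegE (hp i).le (hdec.posi trivial i one one_nonneg)
  have hsle : ∀ s : Finset I, ∑ i ∈ s, p i • T (u i) (p i) one ≤ one := by
    intro s
    rw [← Lp.coeFn_le]
    have hall : ∀ᵐ t ∂(volume.restrict (Icc (0 : ℝ) 1)), ∀ i : s,
        ((p i • T (u i) (p i) one : E) : ℝ → ℝ) t
          = (Ioc (u i) (u i + p i)).indicator (fun _ => (1 : ℝ)) t := by
      rw [ae_all_iff]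
      exact fun i => hterm i
    filter_upwards [Lp.coeFn_fun_finsetSum s (fun i => p i • T (u i) (p i) one), hall] with t h1 h2
    rw [h1, one_apply]
    calc ∑ i ∈ s, ((p i • T (u i) (p i) one : E) : ℝ → ℝ) t
        = ∑ i ∈ s, (Ioc (u i) (u i + p i)).indicator (fun _ => (1 : ℝ)) t :=
          Finset.sum_congr rfl fun i hi => h2 ⟨i, hi⟩
      _ ≤ 1 := ind_le _ hdisj s t
  have hnorm : ∀ s : Finset I, ‖one - ∑ i ∈ s, p i • T (u i) (p i) one‖ = 1 - ∑ i ∈ s, p i := by
    intro s
    have h1 : 0 ≤ one - ∑ i ∈ s, p i • T (u i) (p i) one := sub_nonneg.mpr (hsle s)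
    have h2 : 0 ≤ ∑ i ∈ s, p i • T (u i) (p i) one := Finset.sum_nonneg fun i _ => hnn i
    have h3 := norm_add_of_nonneg h1 h2
    rw [sub_add_cancel, norm_oneE] at h3
    have h4 : ‖∑ i ∈ s, p i • T (u i) (p i) one‖ = ∑ i ∈ s, p i := by
      have h5 := hdec.ortho s (fun i => p i • one)
      have h6 : (∑ i ∈ s, T (u i) (p i) (p i • one)) = ∑ i ∈ s, p i • T (u i) (p i) one :=
        Finset.sum_congr rfl fun i _ => map_smul _ _ _
      rw [← h6]
      refine h5.trans ?_
      refine Finset.sum_congr rfl fun i _ => ?_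
      rw [norm_smul, norm_oneE, mul_one, Real.norm_of_nonneg (hp i).le]
    rw [h4] at h3
    linarith
  show Tendsto _ _ _
  rw [tendsto_iff_norm_sub_tendsto_zero]
  have h7 : Tendsto (fun s : Finset I => 1 - ∑ i ∈ s, p i) atTop (𝓝 (1 - 1)) :=
    tendsto_const_nhds.sub hsum
  rw [sub_self] at h7
  refine h7.congr fun s => ?_
  rw [← hnorm s, norm_sub_rev]

end Pool.Agent.R201.RN
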