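import Pool.Agent.R201.RN.Defs

/-! # Invariant strictly convex renormings of `L₁[0,1]`: statements of the pieces -/

set_option autoImplicit false

open Set MeasureTheory Filter Topology

namespace Pool.Agent.R201.RN

/-- Interval transport. -/
def SD1 : Prop := ∃ T : ℝ → ℝ → E →ₗᵢ[ℝ] E,
  (∀ u l : ℝ, 0 ≤ u → 0 < l → u + l ≤ 1 → ∀ f : E,
    (T u l f : ℝ → ℝ) =ᵐ[volume.restrict (Icc (0 : ℝ) 1)]
      fun t => if t ∈ Ioc u (u + l) then l⁻¹ * (f : ℝ → ℝ) ((t - u) / l) else 0) ∧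
  ∀ (I : Type) [Countable I] (u l : I → ℝ), (∀ i, 0 ≤ u i ∧ 0 < l i ∧ u i + l i ≤ 1) →
    (∀ i k, i ≠ k → Disjoint (Ioc (u i) (u i + l i)) (Ioc (u k) (u k + l k))) →
    HasSum l 1 → IsDec True (fun i => T (u i) (l i))

/-- Partition of `[0,1]` with given weights. -/
def SW : Prop := ∀ (I : Type) [Countable I] (p : I → ℝ), (∀ i, 0 < p i) → HasSum p 1 →
  ∃ τ : I → E →ₗᵢ[ℝ] E, IsDec True τ ∧ HasSum (fun i => p i • τ i one) one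

/-- Approximation by step functions. -/
def SA1 : Prop := ∀ (F : Finset E) (ε : ℝ), 0 < ε →
  ∃ (n : ℕ) (ρ : Fin n → E →ₗᵢ[ℝ] E) (C : E → Fin n → ℝ), IsDec True ρ ∧
    ∀ f ∈ F, ‖f - ∑ i, C f i • ρ i one‖ < ε ∧ (0 ≤ f → ∀ i, 0 ≤ C f i)

/-- Extension of maps from a decomposition. -/
def SExt : Prop := ∀ (P : Type) (pos : Prop) (ρ ψ : P → E →ₗᵢ[ℝ] E), IsDec pos ρ →
  (∀ (s : Finset P) (φ : P → E), ‖∑ p ∈ s, ψ p (φ p)‖ = ∑ p ∈ s, ‖φ p‖) →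
  (pos → ∀ (p : P) (f : E), 0 ≤ f → 0 ≤ ψ p f) →
  ∃ J : E →ₗᵢ[ℝ] E, (∀ p f, J (ρ p f) = ψ p f) ∧ (pos → ∀ f, 0 ≤ f → 0 ≤ J f)

/-- Products of decompositions. -/
def SProd : Prop := ∀ (I : Type) (K : I → Type) (pos : Prop) (ρ : I → E →ₗᵢ[ℝ] E)
  (τ : (i : I) → K i → E →ₗᵢ[ℝ] E), IsDec pos ρ → (∀ i, IsDec pos (τ i)) →
  IsDec pos (fun x : (Σ i, K i) => (ρ x.1).comp (τ x.1 x.2))

/-- Transport of a decomposition by a decomposition. -/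
def SConj : Prop := ∀ (n : ℕ) (ρ : Fin n → E →ₗᵢ[ℝ] E) (I : Type) (τ : I → E →ₗᵢ[ℝ] E),
  IsDec True ρ → IsDec True τ →
  ∃ J : I → E →ₗᵢ[ℝ] E, IsDec True J ∧ ∀ i k f, J i (ρ k f) = ρ k (τ i f)

/-- Interleaving. -/
def SA2 : Prop := ∀ (Γ : Type) [Fintype Γ] [Nonempty Γ] (F : Finset E) (ε : ℝ), 0 < ε →
  ∃ J : Γ → E →ₗᵢ[ℝ] E, IsDec True J ∧
    ∀ f ∈ F, ‖f - ∑ z, J z ((1 / (Fintype.card Γ : ℝ)) • f)‖ < ε

/-- Compression. -/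
def SA3 : Prop := ∀ (F : Finset E) (ε : ℝ), 0 < ε →
  ∃ ρ : Bool → E →ₗᵢ[ℝ] E, IsDec True ρ ∧ ∀ f ∈ F, ‖f - ρ true f‖ < ε

/-- The telescoping permutations. -/
def STel : Prop := ∀ (Θ : Type) [Fintype Θ] (a b b' : Θ → ℝ) (η : ℝ), 
  |∑ x, |a x| - 1| ≤ η → |∑ x, |b x| - 1| ≤ η → |∑ x, |b' x| - 1| ≤ η → η < 1 →
  ∀ ε : ℝ, 0 < ε →
  ∃ (S : Type) (_ : Fintype S) (_ : Nonempty S) (w sg : S → ℝ) (σ σ' : Equiv.Perm (Θ × S)),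
    (∀ s, 0 < w s) ∧ ∑ s, w s = 1 ∧ (∀ s, sg s = 1 ∨ sg s = -1) ∧
    ((∀ x, 0 ≤ a x ∧ 0 ≤ b x ∧ 0 ≤ b' x) → ∀ s, sg s = 1) ∧
    ∑ q : Θ × S, |a q.1 * (sg q.2 * w q.2) - b (σ q).1 * (sg (σ q).2 * w (σ q).2)|
      ≤ 2 * η + ε ∧
    ∑ q : Θ × S, |a q.1 * (sg q.2 * w q.2) - b' (σ' q).1 * (sg (σ' q).2 * w (σ' q).2)|
      ≤ 2 * η + ε

/-- Induced sets. -/
def SGS : Prop := ∀ (G : Type) [Group G] [Countable G] (Q : Type) [Finite Q] [Nonempty Q]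
  (j : Equiv.Perm Q →* G), Function.Injective j →
  ∃ (P : Type) (_ : MulAction G P) (ι : Q → P), Countable P ∧ Function.Injective ι ∧
    (∃ p, p ∉ range ι) ∧ ∀ σ q, j σ • ι q = ι (σ q)

/-- The action of `G` by permutations of a decomposition. -/
def SAct : Prop := ∀ (G : Type) [Group G] (P : Type) [MulAction G P] (pos : Prop)
  (R : P → E →ₗᵢ[ℝ] E), IsDec pos R →
  ∃ α : G →* (E ≃ₗᵢ[ℝ] E), (∀ (g : G) (p : P) (f : E), α g (R p f) = R (g • p) f) ∧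
    (pos → ∀ (g : G) (f : E), 0 ≤ f → 0 ≤ α g f)

/-- Finite models of the actions of a finite group. -/
def SQD : Prop := ∀ (pos : Prop) (Γ : Type) [Group Γ] [Fintype Γ] (β : Γ →* (E ≃ₗᵢ[ℝ] E)),
  (pos → ∀ (g : Γ) (f : E), 0 ≤ f → 0 ≤ β g f) →
  ∀ (F : Finset E) (A B B' : E), A ∈ F → B ∈ F → B' ∈ F → ‖A‖ = 1 → ‖B‖ = 1 → ‖B'‖ = 1 →
  (pos → 0 ≤ A ∧ 0 ≤ B ∧ 0 ≤ B') → ∀ ε : ℝ, 0 < ε →
  ∃ (S : Type) (_ : Fintype S) (_ : Nonempty S) (R : Γ × S → E →ₗᵢ[ℝ] E)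
    (c : E → Γ × S → ℝ) (σ σ' : Equiv.Perm (Γ × S)),
    IsDec pos R ∧
    (∀ f ∈ F, ‖f - ∑ q, c f q • R q one‖ < ε) ∧
    (∀ (g z : Γ) (s : S) (f : E), c (β g f) (g * z, s) = c f (z, s)) ∧
    ∑ q, |c A q - c B (σ q)| < ε ∧ ∑ q, |c A q - c B' (σ' q)| < ε

/-- Density. -/
def SDens : Prop := ∀ (G : Type) [Group G] [Countable G], PropU G →
  ∀ (pos : Prop) (β : Act pos G) (K : Finset G) (F : Finset E) (A B B' : E),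
  ‖A‖ = 1 → ‖B‖ = 1 → ‖B'‖ = 1 → (pos → 0 ≤ A ∧ 0 ≤ B ∧ 0 ≤ B') → ∀ ε : ℝ, 0 < ε →
  ∃ α : Act pos G, (∀ g ∈ K, ∀ f ∈ F, ‖α.1 g f - β.1 g f‖ < ε) ∧
    (∃ a : G, ‖α.1 a A - B‖ < ε) ∧ ∃ b : G, ‖α.1 b A - B'‖ < ε

/-- Dense subsets of the space of actions. -/
def STop : Prop := ∀ (G : Type) [Group G] (pos : Prop) (D : Set (Act pos G)),
  (∀ (β : Act pos G) (K : Finset G) (F : Finset E) (ε : ℝ), 0 < ε →
    ∃ α ∈ D, ∀ g ∈ K, ∀ f ∈ F, ‖α.1 g f - β.1 g f‖ < ε) → Dense D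

/-- The space of actions is a Baire space. -/
def SBaire : Prop := ∀ (G : Type) [Group G] [Countable G] (pos : Prop), BaireSpace (Act pos G)

/-- The obstruction to invariant strictly convex norms. -/
def SObs : Prop := ∀ (G : Type) [Group G] (pos : Prop) (α : Act pos G) (A B : E), A ≠ B →
  (∀ ε : ℝ, 0 < ε → (∃ a : G, ‖α.1 a A - B‖ < ε) ∧
    ∃ b : G, ‖α.1 b A - (1 / 2 : ℝ) • (A + B)‖ < ε) → α ∉ SG pos G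

/-- Two functions. -/
def SFn : Prop := ∃ A B : E, 0 ≤ A ∧ 0 ≤ B ∧ A ≠ B ∧ ‖A‖ = 1 ∧ ‖B‖ = 1 ∧
  ‖(1 / 2 : ℝ) • (A + B)‖ = 1

/-- A countable group with `PropU`. -/
def SHall : Prop := ∃ (G : Type) (_ : Group G), Countable G ∧ PropU G

/-- Locally finite groups are amenable. -/
def SAmen.{u} : Prop := ∀ (G : Type) [Group G], LocFin G → Amenable.{u} G

end Pool.Agent.R201.RN
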